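import Mathlib

/-!
# Jacobi diagrams on the circle over the integers

A Jacobi diagram on the oriented circle is encoded by the set `H` of the half-edges of the union of
the circle and of the graph. Every vertex of this union is trivalent: the univalent vertices of the
graph are the vertices on the circle.
-/

set_option autoImplicit false

namespace Pool.Agent.Jac70

/-- A Jacobi diagram on the circle; `H` is the set of the half-edges of the union of the circle and
the graph. `e` exchanges the two halves of an edge (or of an arc of the circle), the orbits of `r`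
are the vertices, with their cyclic orders, and `K` is the set of the halves of the arcs of the
circle through which the oriented circle enters a vertex. At a vertex of the circle the cyclic
order is (incoming half-arc, outgoing half-arc, leg). -/
@[ext]
structure JD (H : Type) [DecidableEq H] where
  /-- the two halves of an edge -/
  e : Equiv.Perm H
  /-- the cyclic orders at the vertices -/
  r : Equiv.Perm H
  /-- the incoming half-arcs of the circle -/
  K : Finset H
  e2 : ∀ h, e (e h) = h
  e1 : ∀ h, e h ≠ h
  r3 : ∀ h, r (r (r h)) = h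
  r1 : ∀ h, r h ≠ h
  /-- the circle leaves the vertex of the incoming half-arc `h` through `r h`, and the other half of
  the arc of `r h` is again incoming -/
  out : ∀ h ∈ K, e (r h) ∈ K
  /-- the two halves of an arc are not both incoming -/
  ke : ∀ h ∈ K, e h ∉ K
  /-- the third half-edge at a vertex of the circle does not belong to the circle -/
  leg : ∀ h ∈ K, r (r h) ∉ K ∧ e (r (r h)) ∉ K
  /-- there is only one circle: a set of incoming half-arcs closed under the walk along the circle
  contains all of them or none -/
  cyc : ∀ S : Set H, (∃ h ∈ K, h ∈ S) → (∀ h ∈ K, h ∈ S → e (r h) ∈ S) → ∀ h ∈ K, h ∈ S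
  /-- the union of the circle and the graph is connected: every component of the graph has a leg -/
  conn : ∀ S : Set H, S.Nonempty → (∀ h ∈ S, e h ∈ S) → (∀ h ∈ S, r h ∈ S) → S = Set.univ
  /-- there is a leg, unless the diagram is empty -/
  ne : ∀ _h : H, K.Nonempty

variable {H : Type} [DecidableEq H]

/-- The half-edge `h` is a half of an arc of the circle. -/
def JD.onC (D : JD H) (h : H) : Prop := h ∈ D.K ∨ D.e h ∈ D.K

/-- The vertex of the half-edge `h` is not on the circle. -/
def JD.inner (D : JD H) (h : H) : Prop :=
  ¬ D.onC h ∧ ¬ D.onC (D.r h) ∧ ¬ D.onC (D.r (D.r h))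

/-- `D'` is obtained from `D` by a renaming of the half-edges. -/
def Iso (D D' : JD H) : Prop :=
  ∃ g : Equiv.Perm H, (∀ h, D'.e (g h) = g (D.e h)) ∧ (∀ h, D'.r (g h) = g (D.r h)) ∧
    ∀ h, g h ∈ D'.K ↔ h ∈ D.K

/-- `D'` is obtained from `D` by reversing the cyclic order at one vertex outside the circle. -/
def AS (D D' : JD H) : Prop :=
  ∃ x, D.inner x ∧ D'.e = D.e ∧ D'.K = D.K ∧
    ∀ h, D'.r h = if h = x ∨ h = D.r x ∨ h = D.r (D.r x) then D.r (D.r h) else D.r h

/-- The cyclic orders of the three diagrams of IHX or STU. In the first diagram the edge `{x, y}`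
joins the vertex `(x, a, b)`, which is not on the circle, to the other vertex `(y, c, d)`; in the
second diagram it joins `(x, b, c)` to `(y, d, a)`, in the third one `(x, a, c)` to `(y, d, b)`. The
rest is the same. -/
structure Loc (I J X : JD H) (x a b y c d : H) : Prop where
  exy : I.e x = y
  inn : I.inner x
  nya : y ≠ a
  nyb : y ≠ b
  i1 : I.r x = a ∧ I.r a = b ∧ I.r b = x ∧ I.r y = c ∧ I.r c = d ∧ I.r d = y
  j1 : J.r x = b ∧ J.r b = c ∧ J.r c = x ∧ J.r y = d ∧ J.r d = a ∧ J.r a = y
  x1 : X.r x = a ∧ X.r a = c ∧ X.r c = x ∧ X.r y = d ∧ X.r d = b ∧ X.r b = y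
  oth : ∀ h, h ≠ x → h ≠ a → h ≠ b → h ≠ y → h ≠ c → h ≠ d → J.r h = I.r h ∧ X.r h = I.r h
  eJ : J.e = I.e
  eX : X.e = I.e

/-- IHX: the second vertex is not on the circle either. -/
def IHX (I J X : JD H) : Prop :=
  ∃ x a b y c d, Loc I J X x a b y c d ∧ I.inner y ∧ J.K = I.K ∧ X.K = I.K

/-- STU: the second vertex is on the circle; `y` is the leg, `c` the incoming and `d` the outgoing
half-arc. In the other two diagrams the circle enters through `c`, goes along the edge from `x` to
`y` and leaves through `d`. -/
def STU (S T U : JD H) : Prop :=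
  ∃ x a b y c d, Loc S T U x a b y c d ∧ c ∈ S.K ∧ T.K = insert y S.K ∧ U.K = insert y S.K

/-- The relations: isomorphic diagrams are equal, AS, IHX, STU. -/
def rels (H : Type) [DecidableEq H] : Set (FreeAbelianGroup (JD H)) :=
  {z | ∃ D D', Iso D D' ∧ z = FreeAbelianGroup.of D - FreeAbelianGroup.of D'} ∪
    {z | ∃ D D', AS D D' ∧ z = FreeAbelianGroup.of D + FreeAbelianGroup.of D'} ∪
    {z | ∃ I J X, (IHX I J X ∨ STU I J X) ∧
      z = FreeAbelianGroup.of I - FreeAbelianGroup.of J + FreeAbelianGroup.of X}

/-- The homogeneous part of the integral space of Jacobi diagrams on the circle generated by the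
diagrams whose union with the circle has the set of half-edges `H`; its degree is `|H| / 6`. -/
abbrev A (H : Type) [DecidableEq H] : Type :=
  FreeAbelianGroup (JD H) ⧸ AddSubgroup.closure (rels H)

/-- The class of a diagram. -/
def JD.cl (D : JD H) : A H := QuotientAddGroup.mk (FreeAbelianGroup.of D)

/-- `φ` is an automorphism of the diagram without the cyclic orders: it preserves the edges, the
vertices and the circle with its orientation. -/
structure Aut (D : JD H) (φ : Equiv.Perm H) : Prop where
  e : ∀ h, D.e (φ h) = φ (D.e h)
  r : ∀ h, D.r (φ h) = φ (D.r h) ∨ D.r (φ h) = φ (D.r (D.r h))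
  K : ∀ h, φ h ∈ D.K ↔ h ∈ D.K

/-- The half-edges at the vertices whose cyclic order is reversed by `φ`: three for every such
vertex. -/
def rev [Fintype H] (D : JD H) (φ : Equiv.Perm H) : Finset H :=
  Finset.univ.filter fun h => D.r (φ h) ≠ φ (D.r h)

end Pool.Agent.Jac70
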