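import Mathlib
import Pool.Agent.Jac70.Defs

/-!
# Jacobi diagrams: elementary facts, reversal of vertices, isomorphisms up to orientation
-/

set_option autoImplicit false

namespace Pool.Agent.Jac70

variable {H : Type} [DecidableEq H]

namespace JD

variable (D : JD H)

theorem r_inj {u v : H} (h : D.r u = D.r v) : u = v := D.r.injective h

theorem e_inj {u v : H} (h : D.e u = D.e v) : u = v := D.e.injective h

theorem r2 (h : H) : D.r (D.r h) ≠ h := by
  intro hh
  have h1 := D.r3 h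
  rw [hh] at h1
  exact D.r1 h h1

theorem rr_ne_r (h : H) : D.r (D.r h) ≠ D.r h := D.r1 (D.r h)

/-- An outgoing half-arc starts at a vertex of the circle. -/
theorem surj {z : H} (hz : D.e z ∈ D.K) : ∃ u ∈ D.K, D.r u = z := by
  have h1 : D.K.image (fun u => D.e (D.r u)) ⊆ D.K := by
    intro v hv
    obtain ⟨u, hu, rfl⟩ := Finset.mem_image.1 hv
    exact D.out u hu
  have h2 : (D.K.image (fun u => D.e (D.r u))).card = D.K.card :=
    Finset.card_image_of_injective _ fun u v huv => D.r_inj (D.e_inj huv)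
  have h3 : D.K.image (fun u => D.e (D.r u)) = D.K := Finset.eq_of_subset_of_card_le h1 h2.ge
  rw [← h3] at hz
  obtain ⟨u, hu, huz⟩ := Finset.mem_image.1 hz
  exact ⟨u, hu, D.e_inj huz⟩

theorem out_notMem {u : H} (hu : u ∈ D.K) : D.r u ∉ D.K := by
  intro h
  have := D.ke _ (D.out u hu)
  rw [D.e2] at this
  exact this h

theorem inner_r {h : H} (hi : D.inner h) : D.inner (D.r h) :=
  ⟨hi.2.1, hi.2.2, by rw [D.r3]; exact hi.1⟩

theorem not_inner_iff {h : H} : ¬ D.inner h ↔ ∃ u ∈ D.K, h = u ∨ h = D.r u ∨ h = D.r (D.r u) := by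
  constructor
  · intro hi
    have key : ∀ z, D.onC z → ∃ u ∈ D.K, z = u ∨ z = D.r u := by
      intro z hz
      rcases hz with hz | hz
      · exact ⟨z, hz, Or.inl rfl⟩
      · obtain ⟨u, hu, h⟩ := D.surj hz
        exact ⟨u, hu, Or.inr h.symm⟩
    by_contra hc
    push Not at hc
    apply hi
    refine ⟨fun h1 => ?_, fun h1 => ?_, fun h1 => ?_⟩
    · obtain ⟨u, hu, h2 | h2⟩ := key _ h1
      · exact (hc u hu).1 h2
      · exact (hc u hu).2.1 h2
    · obtain ⟨u, hu, h2 | h2⟩ := key _ h1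
      · apply (hc u hu).2.2
        rw [← h2, D.r3]
      · exact (hc u hu).1 (D.r_inj h2)
    · obtain ⟨u, hu, h2 | h2⟩ := key _ h1
      · apply (hc u hu).2.1
        rw [← h2, D.r3]
      · apply (hc u hu).2.2
        rw [← D.r_inj h2, D.r3]
  · rintro ⟨u, hu, h1 | h1 | h1⟩ hi
    · exact hi.1 (Or.inl (h1 ▸ hu))
    · exact hi.1 (Or.inr (h1 ▸ D.out u hu))
    · apply hi.2.1
      left
      rw [h1, D.r3]
      exact hu

/-- Permutations of order three. -/
def perm3 {α : Type} (f : α → α) (h3 : ∀ h, f (f (f h)) = h) : Equiv.Perm α where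
  toFun := f
  invFun h := f (f h)
  left_inv h := h3 h
  right_inv h := h3 h

/-- The membership in the vertex of `x`. -/
def vt (x h : H) : Prop := h = x ∨ h = D.r x ∨ h = D.r (D.r x)

instance (x h : H) : Decidable (D.vt x h) := by
  unfold vt
  infer_instance

theorem vt_r {x h : H} : D.vt x (D.r h) ↔ D.vt x h := by
  have h1 : D.r (D.r (D.r x)) = x := D.r3 x
  constructor
  · rintro (h2 | h2 | h2)
    · right; right
      exact D.r_inj (h2.trans h1.symm)
    · left
      exact D.r_inj h2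
    · right; left
      exact D.r_inj h2
  · rintro (h2 | h2 | h2)
    · right; left
      rw [h2]
    · right; right
      rw [h2]
    · left
      rw [h2, h1]

/-- The cyclic orders after the reversal at `x`. -/
def fr (x h : H) : H := if D.vt x h then D.r (D.r h) else D.r h

theorem fr3 (x h : H) : D.fr x (D.fr x (D.fr x h)) = h := by
  unfold fr
  by_cases hx : D.vt x h
  · have h1 : D.vt x (D.r h) := D.vt_r.2 hx
    have h2 : D.vt x (D.r (D.r h)) := D.vt_r.2 h1
    simp only [if_pos hx, if_pos h2, D.r3, if_pos h1]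
  · have h1 : ¬ D.vt x (D.r h) := fun h' => hx (D.vt_r.1 h')
    have h2 : ¬ D.vt x (D.r (D.r h)) := fun h' => h1 (D.vt_r.1 h')
    simp only [if_neg hx, if_neg h1, if_neg h2, D.r3]

theorem inner_of_vt {x h : H} (hx : D.inner x) (hv : D.vt x h) : D.inner h := by
  rcases hv with rfl | rfl | rfl
  · exact hx
  · exact D.inner_r hx
  · exact D.inner_r (D.inner_r hx)

theorem not_vt_of_mem {x u : H} (hx : D.inner x) (hu : u ∈ D.K) : ¬ D.vt x u := fun hv =>
  (D.not_inner_iff.2 ⟨u, hu, Or.inl rfl⟩) (D.inner_of_vt hx hv)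

theorem fr_mem {x u : H} (hx : D.inner x) (hu : u ∈ D.K) : D.fr x u = D.r u :=
  if_neg (D.not_vt_of_mem hx hu)

/-- Reversal of the cyclic order at the vertex of `x`. -/
def flip (x : H) (hx : D.inner x) : JD H where
  e := D.e
  r := perm3 (D.fr x) (D.fr3 x)
  K := D.K
  e2 := D.e2
  e1 := D.e1
  r3 := D.fr3 x
  r1 h := by
    show D.fr x h ≠ h
    unfold fr
    split_ifs
    · exact D.r2 h
    · exact D.r1 h
  out h hh := by
    show D.e (D.fr x h) ∈ D.K
    rw [D.fr_mem hx hh]
    exact D.out h hh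
  ke := D.ke
  leg h hh := by
    show D.fr x (D.fr x h) ∉ D.K ∧ D.e (D.fr x (D.fr x h)) ∉ D.K
    rw [D.fr_mem hx hh]
    have : ¬ D.vt x (D.r h) := fun h' => D.not_vt_of_mem hx hh (D.vt_r.1 h')
    unfold fr
    rw [if_neg this]
    exact D.leg h hh
  cyc S h1 h2 := by
    refine D.cyc S h1 fun h hh hs => ?_
    have h3 := h2 h hh hs
    have h4 : (perm3 (D.fr x) (D.fr3 x)) h = D.r h := D.fr_mem hx hh
    rwa [h4] at h3
  conn S h1 h2 h3 := by
    have h3' : ∀ h ∈ S, D.fr x h ∈ S := h3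
    refine D.conn S h1 h2 fun h hs => ?_
    have h4 := h3' h hs
    have h5 := h3' _ h4
    unfold fr at h4 h5
    by_cases hv : D.vt x h
    · have hv2 : D.vt x (D.r (D.r h)) := D.vt_r.2 (D.vt_r.2 hv)
      rw [if_pos hv, if_pos hv2, D.r3] at h5
      exact h5
    · rwa [if_neg hv] at h4
  ne := D.ne

theorem flip_r (x : H) (hx : D.inner x) (h : H) :
    (D.flip x hx).r h = if D.vt x h then D.r (D.r h) else D.r h := rfl

/-- Renaming of the half-edges. -/
def map (φ : Equiv.Perm H) : JD H where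
  e := (φ.symm.trans D.e).trans φ
  r := (φ.symm.trans D.r).trans φ
  K := D.K.map φ.toEmbedding
  e2 h := by simp [D.e2]
  e1 h := by
    intro hh
    have := D.e1 (φ.symm h)
    apply this
    apply φ.injective
    simpa using hh
  r3 h := by simp [D.r3]
  r1 h := by
    intro hh
    have := D.r1 (φ.symm h)
    apply this
    apply φ.injective
    simpa using hh
  out h hh := by
    obtain ⟨u, hu, rfl⟩ := Finset.mem_map.1 hh
    simpa using D.out u hu
  ke h hh := by
    obtain ⟨u, hu, rfl⟩ := Finset.mem_map.1 hh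
    simpa using D.ke u hu
  leg h hh := by
    obtain ⟨u, hu, rfl⟩ := Finset.mem_map.1 hh
    simpa using D.leg u hu
  cyc S h1 h2 := by
    have h3 := D.cyc (φ ⁻¹' S) (by
      obtain ⟨h, hh, hs⟩ := h1
      obtain ⟨u, hu, rfl⟩ := Finset.mem_map.1 hh
      exact ⟨u, hu, hs⟩) (by
      intro u hu hs
      have := h2 (φ u) (Finset.mem_map_of_mem _ hu) hs
      simpa using this)
    intro h hh
    obtain ⟨u, hu, rfl⟩ := Finset.mem_map.1 hh
    exact h3 u hu
  conn S h1 h2 h3 := by
    have h4 := D.conn (φ ⁻¹' S) (by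
      obtain ⟨h, hs⟩ := h1
      exact ⟨φ.symm h, by simpa using hs⟩) (by
      intro u hs
      have := h2 (φ u) hs
      simpa using this) (by
      intro u hs
      have := h3 (φ u) hs
      simpa using this)
    ext h
    have h5 : φ.symm h ∈ φ ⁻¹' S := by rw [h4]; trivial
    simpa using h5
  ne h := by
    obtain ⟨u, hu⟩ := D.ne h
    exact ⟨φ u, Finset.mem_map_of_mem _ hu⟩

theorem map_e (φ : Equiv.Perm H) (h : H) : (D.map φ).e (φ h) = φ (D.e h) := by
  simp [map]

theorem map_r (φ : Equiv.Perm H) (h : H) : (D.map φ).r (φ h) = φ (D.r h) := by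
  simp [map]

theorem map_K (φ : Equiv.Perm H) (h : H) : φ h ∈ (D.map φ).K ↔ h ∈ D.K := by
  simp [map]

theorem cl_iso {D D' : JD H} (h : Iso D D') : D'.cl = D.cl := by
  symm
  refine (QuotientAddGroup.eq_iff_sub_mem).2 (AddSubgroup.subset_closure ?_)
  exact Or.inl (Or.inl ⟨D, D', h, rfl⟩)

theorem cl_AS {D D' : JD H} (h : AS D D') : D'.cl = - D.cl := by
  rw [eq_neg_iff_add_eq_zero, add_comm]
  refine (QuotientAddGroup.eq_zero_iff _).2 (AddSubgroup.subset_closure ?_)
  exact Or.inl (Or.inr ⟨D, D', h, rfl⟩)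

theorem cl_loc {I J X : JD H} (h : IHX I J X ∨ STU I J X) : I.cl = J.cl - X.cl := by
  have h1 : I.cl - J.cl + X.cl = 0 := by
    refine (QuotientAddGroup.eq_zero_iff _).2 (AddSubgroup.subset_closure ?_)
    exact Or.inr ⟨I, J, X, h, rfl⟩
  have h2 : I.cl = J.cl - X.cl + (I.cl - J.cl + X.cl) := by abel
  rw [h1, add_zero] at h2
  exact h2

theorem cl_map (φ : Equiv.Perm H) : (D.map φ).cl = D.cl :=
  cl_iso ⟨φ, D.map_e φ, D.map_r φ, D.map_K φ⟩

theorem cl_flip (x : H) (hx : D.inner x) : (D.flip x hx).cl = - D.cl :=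
  cl_AS ⟨x, hx, rfl, rfl, fun h => D.flip_r x hx h⟩

end JD

end Pool.Agent.Jac70
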