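import Mathlib
import Pool.Agent.Jac70.Basic

/-!
# The sign of an isomorphism up to orientation
-/

set_option autoImplicit false

namespace Pool.Agent.Jac70

variable {H : Type} [DecidableEq H]

/-- `φ` maps `D` to `D'` up to the cyclic orders. -/
structure UI (D D' : JD H) (φ : Equiv.Perm H) : Prop where
  e : ∀ h, D'.e (φ h) = φ (D.e h)
  r : ∀ h, D'.r (φ h) = φ (D.r h) ∨ D'.r (φ h) = φ (D.r (D.r h))
  K : ∀ h, φ h ∈ D'.K ↔ h ∈ D.K

/-- The sign. -/
def sg [Fintype H] (D D' : JD H) (φ : Equiv.Perm H) : ℤ :=
  ∏ h : H, if D'.r (φ h) = φ (D.r h) then 1 else -1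

namespace JD

open Classical in
theorem ui_one [Fintype H] (D' : JD H) (n : ℕ) : ∀ D : JD H, D'.e = D.e → D'.K = D.K →
    (∀ h, D'.r h = D.r h ∨ D'.r h = D.r (D.r h)) →
    (Finset.univ.filter fun h => ¬ D'.r h = D.r h).card = n → D'.cl = (-1 : ℤ) ^ n • D.cl := by
  induction n using Nat.strong_induction_on with
  | _ n ih =>
    intro D he hK hr hn
    by_cases h0 : ∀ h, D'.r h = D.r h
    · have h1 : D' = D := JD.ext he (Equiv.ext h0) hK
      have h2 : (Finset.univ.filter fun h => ¬ D'.r h = D.r h) = ∅ := by
        rw [Finset.filter_eq_empty_iff]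
        intro h _ hh
        exact hh (h0 h)
      rw [h2, Finset.card_empty] at hn
      rw [← hn, h1, pow_zero, one_smul]
    · push Not at h0
      obtain ⟨x, hx⟩ := h0
      have x1 : D'.r x = D.r (D.r x) := (hr x).resolve_left hx
      have x2 : D'.r (D.r (D.r x)) = D.r x := by
        rcases hr (D.r (D.r x)) with h | h
        · exfalso
          rw [D.r3, ← x1] at h
          exact D'.r2 x h
        · rw [h, D.r3]
      have x3 : D'.r (D.r x) = x := by
        have := D'.r3 x
        rwa [x1, x2] at this
      have hv : ∀ h, D.vt x h → D'.r h = D.r (D.r h) := by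
        rintro h (rfl | rfl | rfl)
        · exact x1
        · rw [x3, D.r3]
        · rw [x2, D.r3]
      have hin : D.inner x := by
        by_contra hin
        obtain ⟨u, hu, h⟩ := D.not_inner_iff.1 hin
        have hu' : D.vt x u := by
          rcases h with h | h | h
          · exact Or.inl h.symm
          · right; right
            rw [h, D.r3]
          · right; left
            rw [h, D.r3]
        have h1 := D'.out u (by rw [hK]; exact hu)
        rw [hv u hu', he, hK] at h1
        exact (D.leg u hu).2 h1
      let D₁ := D.flip x hin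
      have hr₁ : ∀ h, D'.r h = D₁.r h ∨ D'.r h = D₁.r (D₁.r h) := by
        intro h
        by_cases hvh : D.vt x h
        · left
          rw [D.flip_r x hin, if_pos hvh, hv h hvh]
        · have hvh' : ¬ D.vt x (D.r h) := fun h' => hvh (D.vt_r.1 h')
          rw [D.flip_r x hin, if_neg hvh, D.flip_r x hin, if_neg hvh']
          exact hr h
      have hset : (Finset.univ.filter fun h => ¬ D'.r h = D.r h) =
          (Finset.univ.filter fun h => ¬ D'.r h = D₁.r h) ∪ {x, D.r x, D.r (D.r x)} := by
        ext h
        simp only [Finset.mem_filter, Finset.mem_univ, true_and, Finset.mem_union,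
          Finset.mem_insert, Finset.mem_singleton]
        by_cases hvh : D.vt x h
        · have h1 : ¬ D'.r h = D.r h := by
            rw [hv h hvh]
            exact D.rr_ne_r h
          exact ⟨fun _ => Or.inr hvh, fun _ => h1⟩
        · rw [D.flip_r x hin, if_neg hvh]
          constructor
          · exact fun h1 => Or.inl h1
          · rintro (h1 | h1)
            · exact h1
            · exact absurd h1 hvh
      have hdis : Disjoint (Finset.univ.filter fun h => ¬ D'.r h = D₁.r h)
          {x, D.r x, D.r (D.r x)} := by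
        rw [Finset.disjoint_right]
        intro h hh hm
        have hvh : D.vt x h := by simpa [vt] using hh
        rw [Finset.mem_filter] at hm
        apply hm.2
        rw [D.flip_r x hin, if_pos hvh, hv h hvh]
      have hcard : ({x, D.r x, D.r (D.r x)} : Finset H).card = 3 := by
        rw [Finset.card_eq_three]
        exact ⟨x, D.r x, D.r (D.r x), (D.r1 x).symm, (D.r2 x).symm, (D.rr_ne_r x).symm, rfl⟩
      rw [hset, Finset.card_union_of_disjoint hdis, hcard] at hn
      have h1 := ih _ (by omega) D₁ (he.trans rfl) (hK.trans rfl) hr₁ rfl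
      rw [h1, D.cl_flip x hin, ← hn, pow_add, smul_neg, ← neg_smul]
      congr 1
      norm_num

theorem cl_ui [Fintype H] {D D' : JD H} {φ : Equiv.Perm H} (h : UI D D' φ) :
    D'.cl = sg D D' φ • D.cl := by
  classical
  have h1 := ui_one D' _ (D.map φ) (by
    ext u
    obtain ⟨v, rfl⟩ := φ.surjective u
    rw [h.e, D.map_e]) (by
    ext u
    obtain ⟨v, rfl⟩ := φ.surjective u
    rw [h.K, D.map_K]) (by
    intro u
    obtain ⟨v, rfl⟩ := φ.surjective u
    rw [D.map_r, D.map_r]
    exact h.r v) rfl
  rw [h1, D.cl_map]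
  congr 1
  unfold sg
  rw [← Equiv.prod_comp φ.symm, ← Finset.prod_filter_mul_prod_filter_not Finset.univ
    (fun u => ¬ D'.r u = (D.map φ).r u)]
  rw [Finset.prod_congr rfl (g := fun _ => (-1 : ℤ)), Finset.prod_const]
  · rw [Finset.prod_congr rfl (g := fun _ => (1 : ℤ)), Finset.prod_const_one, mul_one]
    intro u hu
    have h2 := (Finset.mem_filter.1 hu).2
    rw [not_not] at h2
    rw [if_pos]
    rw [Equiv.apply_symm_apply, h2]
    conv_lhs => rw [← Equiv.apply_symm_apply φ u]
    rw [D.map_r]
  · intro u hu
    have h2 := (Finset.mem_filter.1 hu).2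
    rw [if_neg]
    intro h3
    apply h2
    rw [Equiv.apply_symm_apply] at h3
    rw [h3]
    conv_rhs => rw [← Equiv.apply_symm_apply φ u]
    rw [D.map_r]

theorem Aut.ui {D : JD H} {φ : Equiv.Perm H} (h : Aut D φ) : UI D D φ := ⟨h.e, h.r, h.K⟩

theorem sg_eq_neg_one [Fintype H] {D : JD H} {φ : Equiv.Perm H} :
    sg D D φ = (-1) ^ (rev D φ).card := by
  unfold sg rev
  rw [Finset.prod_ite, Finset.prod_const_one, one_mul, Finset.prod_const]

end JD

end Pool.Agent.Jac70
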