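import Mathlib
import Pool.Agent.Jac70.Sgn

/-!
# The diagrams of the relation IHX or STU at an edge
-/

set_option autoImplicit false

namespace Pool.Agent.Jac70

variable {H : Type} [DecidableEq H]

/-- The edge of `x` joins a vertex outside the circle to another vertex. -/
structure Ok (D : JD H) (x : H) : Prop where
  inn : D.inner x
  ya : D.e x ≠ D.r x
  yb : D.e x ≠ D.r (D.r x)

/-- The fifteen inequalities. -/
structure Dst (x a b y c d : H) : Prop where
  xa : x ≠ a
  xb : x ≠ b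
  ab : a ≠ b
  yx : y ≠ x
  ya : y ≠ a
  yb : y ≠ b
  yc : y ≠ c
  yd : y ≠ d
  cd : c ≠ d
  cx : c ≠ x
  ca : c ≠ a
  cb : c ≠ b
  dx : d ≠ x
  da : d ≠ a
  db : d ≠ b

namespace JD

variable (D : JD H)

theorem dst {x : H} (h : Ok D x) :
    Dst x (D.r x) (D.r (D.r x)) (D.e x) (D.r (D.e x)) (D.r (D.r (D.e x))) where
  xa := (D.r1 x).symm
  xb := (D.r2 x).symm
  ab := (D.rr_ne_r x).symm
  yx := D.e1 x
  ya := h.ya
  yb := h.yb
  yc := (D.r1 _).symm
  yd := (D.r2 _).symm
  cd := (D.rr_ne_r _).symm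
  cx := by
    intro h1
    apply h.yb
    rw [← h1, D.r3, h1]
  ca := fun h1 => D.e1 x (D.r_inj h1)
  cb := fun h1 => h.ya (D.r_inj h1)
  dx := by
    intro h1
    apply h.ya
    rw [← h1, D.r3, h1]
  da := by
    intro h1
    have h2 := D.r_inj h1
    apply h.yb
    rw [← h2, D.r3, h2]
  db := fun h1 => D.e1 x (D.r_inj (D.r_inj h1))

/-- The cyclic orders of the second diagram. -/
def hf (x h : H) : H :=
  if h = x then D.r (D.r x) else if h = D.r (D.r x) then D.r (D.e x) else
  if h = D.r (D.e x) then x else if h = D.e x then D.r (D.r (D.e x)) else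
  if h = D.r (D.r (D.e x)) then D.r x else if h = D.r x then D.e x else D.r h

/-- The half-edge `h` is at one of the two ends of the edge of `x`. -/
def six (x h : H) : Prop := D.vt x h ∨ D.vt (D.e x) h

theorem six_r {x h : H} : D.six x (D.r h) ↔ D.six x h := by
  unfold six
  rw [D.vt_r, D.vt_r]

section

set_option linter.unusedSectionVars false

variable {D} {x : H} (k : Ok D x)

include k

theorem hf_x : D.hf x x = D.r (D.r x) := by simp [hf]

theorem hf_b : D.hf x (D.r (D.r x)) = D.r (D.e x) := by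
  have := D.dst k
  simp [hf, this.xb.symm]

theorem hf_c : D.hf x (D.r (D.e x)) = x := by
  have := D.dst k
  simp [hf, this.cx, this.cb]

theorem hf_y : D.hf x (D.e x) = D.r (D.r (D.e x)) := by
  have := D.dst k
  simp [hf, this.yx, this.yb, this.yc]

theorem hf_d : D.hf x (D.r (D.r (D.e x))) = D.r x := by
  have := D.dst k
  simp [hf, this.dx, this.db, this.cd.symm, this.yd.symm]

theorem hf_a : D.hf x (D.r x) = D.e x := by
  have := D.dst k
  simp [hf, this.xa.symm, this.ab, this.ca.symm, this.ya.symm, this.da.symm]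

theorem hf_o {h : H} (hh : ¬ D.six x h) : D.hf x h = D.r h := by
  unfold six vt at hh
  push Not at hh
  unfold hf
  rw [if_neg hh.1.1, if_neg hh.1.2.2, if_neg hh.2.2.1, if_neg hh.2.1, if_neg hh.2.2.2,
    if_neg hh.1.2.1]

theorem hf3 (h : H) : D.hf x (D.hf x (D.hf x h)) = h := by
  by_cases hh : D.six x h
  · rcases hh with (rfl | rfl | rfl) | (rfl | rfl | rfl)
    · rw [hf_x k, hf_b k, hf_c k]
    · rw [hf_a k, hf_y k, hf_d k]
    · rw [hf_b k, hf_c k, hf_x k]
    · rw [hf_y k, hf_d k, hf_a k]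
    · rw [hf_c k, hf_x k, hf_b k]
    · rw [hf_d k, hf_a k, hf_y k]
  · have h1 : ¬ D.six x (D.r h) := fun h' => hh (D.six_r.1 h')
    have h2 : ¬ D.six x (D.r (D.r h)) := fun h' => h1 (D.six_r.1 h')
    rw [hf_o k hh, hf_o k h1, hf_o k h2, D.r3]

theorem hf1 (h : H) : D.hf x h ≠ h := by
  have t := D.dst k
  by_cases hh : D.six x h
  · rcases hh with (rfl | rfl | rfl) | (rfl | rfl | rfl)
    · rw [hf_x k]; exact t.xb.symm
    · rw [hf_a k]; exact t.ya
    · rw [hf_b k]; exact t.cb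
    · rw [hf_y k]; exact t.yd.symm
    · rw [hf_c k]; exact t.cx.symm
    · rw [hf_d k]; exact t.da.symm
  · rw [hf_o k hh]
    exact D.r1 h

theorem y_notMem : D.e x ∉ D.K := fun h => k.inn.1 (Or.inr h)

theorem six_mem {u : H} (hu : u ∈ D.K) (hs : D.six x u) : u = D.r (D.e x) := by
  rcases hs with hs | hs
  · exact absurd hs (D.not_vt_of_mem k.inn hu)
  · rcases hs with hs | hs | hs
    · exact absurd (hs ▸ hu) (y_notMem k)
    · exact hs
    · exfalso
      have h1 := D.out u hu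
      rw [hs, D.r3, D.e2] at h1
      exact k.inn.1 (Or.inl h1)

/-- If the second vertex is on the circle then `d` is the outgoing half-arc. -/
theorem leg_y (hc : D.r (D.e x) ∈ D.K) : D.e (D.r (D.r (D.e x))) ∈ D.K := D.out _ hc

theorem a_notC : ¬ D.onC (D.r x) := k.inn.2.1

theorem b_notC : ¬ D.onC (D.r (D.r x)) := k.inn.2.2

end

/-- The incoming half-arcs of the second and the third diagram. -/
def hK (x : H) : Finset H := if D.r (D.e x) ∈ D.K then insert (D.e x) D.K else D.K

section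

set_option linter.unusedSectionVars false

variable {D} {x : H} (k : Ok D x)

include k

theorem mem_hK {h : H} : h ∈ D.hK x ↔ h ∈ D.K ∨ D.r (D.e x) ∈ D.K ∧ h = D.e x := by
  unfold hK
  split_ifs with hc
  · rw [Finset.mem_insert]
    constructor
    · rintro (h1 | h1)
      · exact Or.inr ⟨hc, h1⟩
      · exact Or.inl h1
    · rintro (h1 | h1)
      · exact Or.inr h1
      · exact Or.inl h1.2
  · constructor
    · exact fun h1 => Or.inl h1
    · rintro (h1 | h1)
      · exact h1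
      · exact absurd h1.1 hc

theorem hf_out (h : H) (hh : h ∈ D.hK x) : D.e (D.hf x h) ∈ D.hK x := by
  rw [mem_hK k] at hh ⊢
  rcases hh with hh | ⟨hc, rfl⟩
  · by_cases hs : D.six x h
    · have h1 := six_mem k hh hs
      subst h1
      rw [hf_c k]
      exact Or.inr ⟨hh, rfl⟩
    · rw [hf_o k hs]
      exact Or.inl (D.out h hh)
  · rw [hf_y k]
    exact Or.inl (D.out _ hc)

theorem hf_ke (h : H) (hh : h ∈ D.hK x) : D.e h ∉ D.hK x := by
  rw [mem_hK k] at hh ⊢
  rintro (h1 | h1)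
  · rcases hh with hh | ⟨hc, rfl⟩
    · exact D.ke h hh h1
    · rw [D.e2] at h1
      exact k.inn.1 (Or.inl h1)
  · rcases hh with hh | ⟨hc, rfl⟩
    · have h2 := D.e_inj h1.2
      exact k.inn.1 (Or.inl (h2 ▸ hh))
    · rw [D.e2] at h1
      exact D.e1 x h1.2.symm

theorem notK_a : D.r x ∉ D.hK x ∧ D.e (D.r x) ∉ D.hK x := by
  have t := D.dst k
  refine ⟨fun h => ?_, fun h => ?_⟩
  · rcases (mem_hK k).1 h with h1 | h1
    · exact a_notC k (Or.inl h1)
    · exact t.ya h1.2.symm
  · rcases (mem_hK k).1 h with h1 | h1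
    · exact a_notC k (Or.inr h1)
    · exact t.xa (D.e_inj h1.2).symm

theorem notK_b : D.r (D.r x) ∉ D.hK x ∧ D.e (D.r (D.r x)) ∉ D.hK x := by
  have t := D.dst k
  refine ⟨fun h => ?_, fun h => ?_⟩
  · rcases (mem_hK k).1 h with h1 | h1
    · exact b_notC k (Or.inl h1)
    · exact t.yb h1.2.symm
  · rcases (mem_hK k).1 h with h1 | h1
    · exact b_notC k (Or.inr h1)
    · exact t.xb (D.e_inj h1.2).symm

theorem hf_leg (h : H) (hh : h ∈ D.hK x) :
    D.hf x (D.hf x h) ∉ D.hK x ∧ D.e (D.hf x (D.hf x h)) ∉ D.hK x := by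
  rcases (mem_hK k).1 hh with h0 | ⟨hc, rfl⟩
  · by_cases hs : D.six x h
    · have h1 := six_mem k h0 hs
      subst h1
      rw [hf_c k, hf_x k]
      exact notK_b k
    · have hs' : ¬ D.six x (D.r h) := fun h' => hs (D.six_r.1 h')
      have hs2 : ¬ D.six x (D.r (D.r h)) := fun h' => hs' (D.six_r.1 h')
      rw [hf_o k hs, hf_o k hs']
      refine ⟨fun h1 => ?_, fun h1 => ?_⟩
      · rcases (mem_hK k).1 h1 with h2 | h2
        · exact (D.leg h h0).1 h2
        · exact hs2 (Or.inr (Or.inl h2.2))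
      · rcases (mem_hK k).1 h1 with h2 | h2
        · exact (D.leg h h0).2 h2
        · exact hs2 (Or.inl (Or.inl (D.e_inj h2.2)))
  · rw [hf_y k, hf_d k]
    exact notK_a k

theorem hf_cyc (S : Set H) (h1 : ∃ h ∈ D.hK x, h ∈ S)
    (h2 : ∀ h ∈ D.hK x, h ∈ S → D.e (D.hf x h) ∈ S) : ∀ h ∈ D.hK x, h ∈ S := by
  have hy : D.r (D.e x) ∈ D.K → D.e x ∈ S → D.e (D.r (D.r (D.e x))) ∈ S := by
    intro hc hs
    have := h2 (D.e x) ((mem_hK k).2 (Or.inr ⟨hc, rfl⟩)) hs
    rwa [hf_y k] at this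
  have hcS : D.r (D.e x) ∈ D.K → D.r (D.e x) ∈ S → D.e x ∈ S := by
    intro hc hs
    have := h2 _ ((mem_hK k).2 (Or.inl hc)) hs
    rwa [hf_c k] at this
  have h3 : ∀ h ∈ D.K, h ∈ S := by
    refine D.cyc S ?_ ?_
    · obtain ⟨h, hh, hs⟩ := h1
      rcases (mem_hK k).1 hh with h0 | ⟨hc, rfl⟩
      · exact ⟨h, h0, hs⟩
      · exact ⟨_, D.out _ hc, hy hc hs⟩
    · intro h hh hs
      by_cases h6 : D.six x h
      · have h7 := six_mem k hh h6
        subst h7
        exact hy hh (hcS hh hs)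
      · have := h2 h ((mem_hK k).2 (Or.inl hh)) hs
        rwa [hf_o k h6] at this
  intro h hh
  rcases (mem_hK k).1 hh with h0 | ⟨hc, rfl⟩
  · exact h3 h h0
  · exact hcS hc (h3 _ hc)

theorem hf_conn (S : Set H) (h1 : S.Nonempty) (h2 : ∀ h ∈ S, D.e h ∈ S)
    (h3 : ∀ h ∈ S, D.hf x h ∈ S) : S = Set.univ := by
  have hx : ∀ h ∈ S, D.six x h → x ∈ S := by
    intro h hs h6
    rcases h6 with (rfl | rfl | rfl) | (rfl | rfl | rfl)
    · exact hs
    · have := h3 _ hs
      rw [hf_a k] at this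
      have := h2 _ this
      rwa [D.e2] at this
    · have := h3 _ hs
      rw [hf_b k] at this
      have := h3 _ this
      rwa [hf_c k] at this
    · have := h2 _ hs
      rwa [D.e2] at this
    · have := h3 _ hs
      rwa [hf_c k] at this
    · have := h3 _ hs
      rw [hf_d k] at this
      have := h3 _ this
      rw [hf_a k] at this
      have := h2 _ this
      rwa [D.e2] at this
  refine D.conn S h1 h2 fun h hs => ?_
  by_cases h6 : D.six x h
  · have s1 := hx h hs h6
    have s2 := h3 _ s1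
    rw [hf_x k] at s2
    have s3 := h3 _ s2
    rw [hf_b k] at s3
    have s4 := h2 _ s1
    have s5 := h3 _ s4
    rw [hf_y k] at s5
    have s6 := h3 _ s5
    rw [hf_d k] at s6
    rcases h6 with (rfl | rfl | rfl) | (rfl | rfl | rfl)
    · exact s6
    · exact s2
    · rw [D.r3]; exact s1
    · exact s3
    · exact s5
    · rw [D.r3]; exact s4
  · have := h3 h hs
    rwa [hf_o k h6] at this

end

/-- The second diagram of the relation at the edge of `x`. -/
def mv (x : H) (k : Ok D x) : JD H where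
  e := D.e
  r := perm3 (D.hf x) (hf3 k)
  K := D.hK x
  e2 := D.e2
  e1 := D.e1
  r3 := hf3 k
  r1 := hf1 k
  out := hf_out k
  ke := hf_ke k
  leg := hf_leg k
  cyc := hf_cyc k
  conn := hf_conn k
  ne h := by
    obtain ⟨u, hu⟩ := D.ne h
    exact ⟨u, (mem_hK k).2 (Or.inl hu)⟩

theorem mv_r (x : H) (k : Ok D x) (h : H) : (D.mv x k).r h = D.hf x h := rfl

theorem mv_e (x : H) (k : Ok D x) : (D.mv x k).e = D.e := rfl

theorem mv_K (x : H) (k : Ok D x) : (D.mv x k).K = D.hK x := rfl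

end JD

end Pool.Agent.Jac70
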