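import Mathlib
import Pool.Agent.Jac70.Move

/-!
# A vertex with two exchanged edges next to a vertex fixed edge by edge
-/

set_option autoImplicit false

namespace Pool.Agent.Jac70

variable {H : Type} [DecidableEq H]

/-- `φ` fixes `x` and exchanges the two other half-edges at the vertex of `x`, and it fixes all the
half-edges at the other end of the edge of `x`. -/
structure SW (D : JD H) (φ : Equiv.Perm H) (x : H) : Prop where
  fx : φ x = x
  fa : φ (D.r x) = D.r (D.r x)
  fc : φ (D.r (D.e x)) = D.r (D.e x)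

namespace JD

variable {D : JD H} {φ : Equiv.Perm H} {x : H}

theorem Ok.flip (k : Ok D x) : Ok (D.flip x k.inn) x := by
  have t := D.dst k
  have v0 : D.vt x x := Or.inl rfl
  have v1 : D.vt x (D.r x) := Or.inr (Or.inl rfl)
  have v2 : D.vt x (D.r (D.r x)) := Or.inr (Or.inr rfl)
  have e1 : (D.flip x k.inn).r x = D.r (D.r x) := by rw [D.flip_r, if_pos v0]
  have e2 : (D.flip x k.inn).r (D.r (D.r x)) = D.r x := by rw [D.flip_r, if_pos v2, D.r3]
  refine ⟨⟨?_, ?_, ?_⟩, ?_, ?_⟩
  · exact k.inn.1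
  · rw [e1]; exact k.inn.2.2
  · rw [e1, e2]; exact k.inn.2.1
  · rw [e1]; exact k.yb
  · rw [e1, e2]; exact k.ya

/-- The third diagram of the relation at the edge of `x`. -/
def mx (D : JD H) (x : H) (k : Ok D x) : JD H := (D.flip x k.inn).mv x (Ok.flip k)

theorem flip_six (k : Ok D x) {h : H} : (D.flip x k.inn).six x h ↔ D.six x h := by
  have v0 : D.vt x x := Or.inl rfl
  have v2 : D.vt x (D.r (D.r x)) := Or.inr (Or.inr rfl)
  have t := D.dst k
  have w0 : ¬ D.vt x (D.e x) := by
    rintro (h | h | h)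
    · exact t.yx h
    · exact t.ya h
    · exact t.yb h
  have w1 : ¬ D.vt x (D.r (D.e x)) := fun h => w0 (D.vt_r.1 h)
  have e1 : (D.flip x k.inn).r x = D.r (D.r x) := by rw [D.flip_r, if_pos v0]
  have e2 : (D.flip x k.inn).r (D.r (D.r x)) = D.r x := by rw [D.flip_r, if_pos v2, D.r3]
  have e3 : (D.flip x k.inn).r (D.e x) = D.r (D.e x) := by rw [D.flip_r, if_neg w0]
  have e4 : (D.flip x k.inn).r (D.r (D.e x)) = D.r (D.r (D.e x)) := by rw [D.flip_r, if_neg w1]
  have e5 : (D.flip x k.inn).e = D.e := rfl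
  unfold six vt
  rw [e5, e1, e2, e3, e4, or_comm (a := h = D.r (D.r x))]

theorem mx_spec (k : Ok D x) : (D.mx x k).r x = D.r x ∧ (D.mx x k).r (D.r x) = D.r (D.e x) ∧
    (D.mx x k).r (D.r (D.e x)) = x ∧ (D.mx x k).r (D.e x) = D.r (D.r (D.e x)) ∧
    (D.mx x k).r (D.r (D.r (D.e x))) = D.r (D.r x) ∧ (D.mx x k).r (D.r (D.r x)) = D.e x ∧
    (∀ h, ¬ D.six x h → (D.mx x k).r h = D.r h) ∧ (D.mx x k).K = D.hK x ∧
    (D.mx x k).e = D.e := by
  have v0 : D.vt x x := Or.inl rfl
  have v2 : D.vt x (D.r (D.r x)) := Or.inr (Or.inr rfl)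
  have t := D.dst k
  have w0 : ¬ D.vt x (D.e x) := by
    rintro (h | h | h)
    · exact t.yx h
    · exact t.ya h
    · exact t.yb h
  have w1 : ¬ D.vt x (D.r (D.e x)) := fun h => w0 (D.vt_r.1 h)
  have e1 : (D.flip x k.inn).r x = D.r (D.r x) := by rw [D.flip_r, if_pos v0]
  have e2 : (D.flip x k.inn).r (D.r (D.r x)) = D.r x := by rw [D.flip_r, if_pos v2, D.r3]
  have e3 : (D.flip x k.inn).r (D.e x) = D.r (D.e x) := by rw [D.flip_r, if_neg w0]
  have e4 : (D.flip x k.inn).r (D.r (D.e x)) = D.r (D.r (D.e x)) := by rw [D.flip_r, if_neg w1]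
  have e5 : (D.flip x k.inn).e = D.e := rfl
  have k' := Ok.flip k
  have g1 := hf_x k'
  have g2 := hf_b k'
  have g3 := hf_c k'
  have g4 := hf_y k'
  have g5 := hf_d k'
  have g6 := hf_a k'
  simp only [e5, e1, e2, e3, e4] at g1 g2 g3 g4 g5 g6
  refine ⟨g1, g2, g3, g4, g5, g6, ?_, ?_, rfl⟩
  · intro h hh
    have h1 : ¬ (D.flip x k.inn).six x h := fun h' => hh ((flip_six k).1 h')
    have h2 : ¬ D.vt x h := fun h' => hh (Or.inl h')
    show (D.flip x k.inn).hf x h = D.r h
    rw [hf_o k' h1, D.flip_r, if_neg h2]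
  · show (D.flip x k.inn).hK x = D.hK x
    unfold hK
    rw [e5, e3]
    rfl

theorem rel_mv (k : Ok D x) : D.cl = (D.mv x k).cl - (D.mx x k).cl := by
  apply cl_loc
  obtain ⟨s1, s2, s3, s4, s5, s6, s7, s8, s9⟩ := mx_spec k
  have hl : Loc D (D.mv x k) (D.mx x k) x (D.r x) (D.r (D.r x)) (D.e x) (D.r (D.e x))
      (D.r (D.r (D.e x))) := by
    refine ⟨rfl, k.inn, k.ya, k.yb, ⟨rfl, rfl, D.r3 x, rfl, rfl, D.r3 _⟩,
      ⟨hf_x k, hf_b k, hf_c k, hf_y k, hf_d k, hf_a k⟩, ⟨s1, s2, s3, s4, s5, s6⟩, ?_, rfl, s9⟩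
    intro h h1 h2 h3 h4 h5 h6
    have hs : ¬ D.six x h := by
      rintro ((h' | h' | h') | (h' | h' | h'))
      · exact h1 h'
      · exact h2 h'
      · exact h3 h'
      · exact h4 h'
      · exact h5 h'
      · exact h6 h'
    exact ⟨hf_o k hs, s7 h hs⟩
  by_cases hc : D.r (D.e x) ∈ D.K
  · right
    refine ⟨_, _, _, _, _, _, hl, hc, ?_, ?_⟩
    · rw [mv_K]
      unfold hK
      rw [if_pos hc]
    · rw [s8]
      unfold hK
      rw [if_pos hc]
  · left
    refine ⟨_, _, _, _, _, _, hl, ?_, ?_, ?_⟩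
    · by_contra hi
      obtain ⟨u, hu, h⟩ := D.not_inner_iff.1 hi
      have h6 : D.six x u := by
        right
        rcases h with h | h | h
        · exact Or.inl h.symm
        · right; right
          rw [h, D.r3]
        · right; left
          rw [h, D.r3]
      exact hc (six_mem k hu h6 ▸ hu)
    · rw [mv_K]
      unfold hK
      rw [if_neg hc]
    · rw [s8]
      unfold hK
      rw [if_neg hc]

theorem SW.all (ha : Aut D φ) (s : SW D φ x) : φ (D.r (D.r x)) = D.r x ∧ φ (D.e x) = D.e x ∧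
    φ (D.r (D.r (D.e x))) = D.r (D.r (D.e x)) := by
  have h1 : φ (D.e x) = D.e x := by rw [← ha.e, s.fx]
  refine ⟨?_, h1, ?_⟩
  · rcases ha.r x with h | h
    · rw [s.fx, s.fa] at h
      exact absurd h.symm (D.rr_ne_r x)
    · rw [← h, s.fx]
  · rcases ha.r (D.r (D.e x)) with h | h
    · rw [← h, s.fc]
    · rw [D.r3, s.fc, h1] at h
      exact absurd h (D.r2 _)

theorem key [Fintype H] (ha : Aut D φ) (s : SW D φ x) (k : Ok D x) :
    D.cl = (D.mv x k).cl + sg D D φ • (D.mv x k).cl := by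
  obtain ⟨s1, s2, s3, s4, s5, s6, s7, s8, s9⟩ := mx_spec k
  obtain ⟨fb, fy, fd⟩ := SW.all ha s
  have fx := s.fx
  have fa := s.fa
  have fc := s.fc
  have t := D.dst k
  have six_iff : ∀ h, D.six x (φ h) ↔ D.six x h := by
    intro h
    unfold six vt
    have e1 : φ h = x ↔ h = x := ⟨fun h' => φ.injective (h'.trans fx.symm), fun h' => h' ▸ fx⟩
    have e2 : φ h = D.r x ↔ h = D.r (D.r x) :=
      ⟨fun h' => φ.injective (h'.trans fb.symm), fun h' => h' ▸ fb⟩
    have e3 : φ h = D.r (D.r x) ↔ h = D.r x :=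
      ⟨fun h' => φ.injective (h'.trans fa.symm), fun h' => h' ▸ fa⟩
    have e4 : φ h = D.e x ↔ h = D.e x :=
      ⟨fun h' => φ.injective (h'.trans fy.symm), fun h' => h' ▸ fy⟩
    have e5 : φ h = D.r (D.e x) ↔ h = D.r (D.e x) :=
      ⟨fun h' => φ.injective (h'.trans fc.symm), fun h' => h' ▸ fc⟩
    have e6 : φ h = D.r (D.r (D.e x)) ↔ h = D.r (D.r (D.e x)) :=
      ⟨fun h' => φ.injective (h'.trans fd.symm), fun h' => h' ▸ fd⟩
    rw [e1, e2, e3, e4, e5, e6, or_comm (a := h = D.r (D.r x))]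
  -- the values on the six half-edges
  have val : ∀ h, D.six x h → (D.mx x k).r (φ h) = φ ((D.mv x k).r h) := by
    intro h hh
    rcases hh with (rfl | rfl | rfl) | (rfl | rfl | rfl)
    · rw [fx, s1, mv_r, hf_x k, fb]
    · rw [fa, s6, mv_r, hf_a k, fy]
    · rw [fb, s2, mv_r, hf_b k, fc]
    · rw [fy, s4, mv_r, hf_y k, fd]
    · rw [fc, s3, mv_r, hf_c k, fx]
    · rw [fd, s5, mv_r, hf_d k, fa]
  have ui : UI (D.mv x k) (D.mx x k) φ := by
    refine ⟨?_, ?_, ?_⟩
    · intro h
      rw [s9, mv_e]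
      exact ha.e h
    · intro h
      by_cases hh : D.six x h
      · exact Or.inl (val h hh)
      · have h1 : ¬ D.six x (φ h) := fun h' => hh ((six_iff h).1 h')
        have h2 : ¬ D.six x (D.r h) := fun h' => hh (D.six_r.1 h')
        rw [s7 _ h1, mv_r, mv_r, hf_o k hh, hf_o k h2]
        exact ha.r h
    · intro h
      rw [s8, mv_K, mem_hK k, mem_hK k, ha.K]
      have e4 : φ h = D.e x ↔ h = D.e x :=
        ⟨fun h' => φ.injective (h'.trans fy.symm), fun h' => h' ▸ fy⟩
      rw [e4]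
  have hsg : sg (D.mv x k) (D.mx x k) φ = - sg D D φ := by
    unfold sg
    have h1 : ∀ h : H, (if (D.mx x k).r (φ h) = φ ((D.mv x k).r h) then (1 : ℤ) else -1) =
        (if D.r (φ h) = φ (D.r h) then 1 else -1) * (if D.vt x h then -1 else 1) := by
      intro h
      by_cases hh : D.six x h
      · rw [if_pos (val h hh)]
        rcases hh with hv | hv
        · rw [if_pos hv]
          rcases hv with rfl | rfl | rfl
          · rw [fx, fa, if_neg (D.rr_ne_r h).symm]
            norm_num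
          · rw [fa, fb, D.r3, if_neg t.xa]
            norm_num
          · rw [fb, D.r3, fx, if_neg t.xb.symm]
            norm_num
        · have hnv : ¬ D.vt x h := by
            intro hv'
            rcases hv with rfl | rfl | rfl
            · rcases hv' with h' | h' | h'
              · exact t.yx h'
              · exact t.ya h'
              · exact t.yb h'
            · rcases hv' with h' | h' | h'
              · exact t.cx h'
              · exact t.ca h'
              · exact t.cb h'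
            · rcases hv' with h' | h' | h'
              · exact t.dx h'
              · exact t.da h'
              · exact t.db h'
          rw [if_neg hnv]
          rcases hv with rfl | rfl | rfl
          · rw [fy, fc, if_pos rfl, mul_one]
          · rw [fc, fd, if_pos rfl, mul_one]
          · rw [fd, D.r3, fy, if_pos rfl, mul_one]
      · have h1 : ¬ D.six x (φ h) := fun h' => hh ((six_iff h).1 h')
        have hnv : ¬ D.vt x h := fun h' => hh (Or.inl h')
        rw [s7 _ h1, mv_r, hf_o k hh, if_neg hnv, mul_one]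
    rw [Finset.prod_congr rfl fun h _ => h1 h, Finset.prod_mul_distrib]
    have h2 : (∏ h : H, if D.vt x h then (-1 : ℤ) else 1) = -1 := by
      rw [Finset.prod_ite, Finset.prod_const_one, mul_one, Finset.prod_const]
      have h3 : (Finset.univ.filter fun h => D.vt x h) = {x, D.r x, D.r (D.r x)} := by
        ext h
        simp [vt]
      rw [h3, Finset.card_eq_three.2 ⟨x, D.r x, D.r (D.r x), t.xa, t.xb, t.ab, rfl⟩]
      norm_num
    rw [h2, mul_neg_one]
  have h3 := cl_ui ui
  rw [hsg] at h3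
  rw [rel_mv k, h3, neg_smul, sub_neg_eq_add]

end JD

end Pool.Agent.Jac70
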