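import Mathlib
import Pool.Agent.Jac70.Key

/-!
# The relations at several disjoint edges
-/

set_option autoImplicit false

namespace Pool.Agent.Jac70

variable {H : Type} [DecidableEq H]

/-- The six half-edges at the two ends of the edge of `x`. -/
def io (D : JD H) (x : H) (j : Fin 6) : H :=
  match j with
  | 0 => x
  | 1 => D.r x
  | 2 => D.r (D.r x)
  | 3 => D.e x
  | 4 => D.r (D.e x)
  | 5 => D.r (D.r (D.e x))

/-- The cyclic orders of the second (`false`) and of the third (`true`) diagram. -/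
def Rf (s : Bool) (j : Fin 6) : Fin 6 :=
  if s then (match j with
    | 0 => 1 | 1 => 4 | 2 => 3 | 3 => 5 | 4 => 0 | 5 => 2)
  else (match j with
    | 0 => 2 | 1 => 3 | 2 => 4 | 3 => 5 | 4 => 0 | 5 => 1)

/-- The edges of the elements of `X` are disjoint, with the vertices at their ends. -/
structure Gd (D : JD H) (X : Finset H) : Prop where
  ok : ∀ x ∈ X, Ok D x
  dj : ∀ x ∈ X, ∀ x' ∈ X, ∀ i j, io D x i = io D x' j → x = x'

/-- `D'` is obtained from `D` at the edges of the elements of `X`: the third diagram of the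
relation for `x ∈ S`, the second one otherwise. -/
structure IsSt (D : JD H) (X S : Finset H) (D' : JD H) : Prop where
  e : D'.e = D.e
  six : ∀ x ∈ X, ∀ j, D'.r (io D x j) = io D x (Rf (decide (x ∈ S)) j)
  oth : ∀ h, (∀ x ∈ X, ∀ j, io D x j ≠ h) → D'.r h = D.r h
  K : ∀ h, h ∈ D'.K ↔ h ∈ D.K ∨ ∃ x ∈ X, D.r (D.e x) ∈ D.K ∧ h = D.e x

theorem six_iff_io (D : JD H) (x h : H) : D.six x h ↔ ∃ j, io D x j = h := by
  constructor
  · rintro ((h1 | h1 | h1) | (h1 | h1 | h1))
    · exact ⟨0, h1.symm⟩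
    · exact ⟨1, h1.symm⟩
    · exact ⟨2, h1.symm⟩
    · exact ⟨3, h1.symm⟩
    · exact ⟨4, h1.symm⟩
    · exact ⟨5, h1.symm⟩
  · rintro ⟨j, rfl⟩
    fin_cases j
    · exact Or.inl (Or.inl rfl)
    · exact Or.inl (Or.inr (Or.inl rfl))
    · exact Or.inl (Or.inr (Or.inr rfl))
    · exact Or.inr (Or.inl rfl)
    · exact Or.inr (Or.inr (Or.inl rfl))
    · exact Or.inr (Or.inr (Or.inr rfl))

theorem io_inj {D : JD H} {x : H} (k : Ok D x) {i j : Fin 6} (h : io D x i = io D x j) :
    i = j := by
  have t := D.dst k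
  fin_cases i <;> fin_cases j <;> first
    | rfl
    | (exfalso
       simp only [io] at h
       first
        | exact t.xa h
        | exact t.xa h.symm
        | exact t.xb h
        | exact t.xb h.symm
        | exact t.ab h
        | exact t.ab h.symm
        | exact t.yx h
        | exact t.yx h.symm
        | exact t.ya h
        | exact t.ya h.symm
        | exact t.yb h
        | exact t.yb h.symm
        | exact t.yc h
        | exact t.yc h.symm
        | exact t.yd h
        | exact t.yd h.symm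
        | exact t.cd h
        | exact t.cd h.symm
        | exact t.cx h
        | exact t.cx h.symm
        | exact t.ca h
        | exact t.ca h.symm
        | exact t.cb h
        | exact t.cb h.symm
        | exact t.dx h
        | exact t.dx h.symm
        | exact t.da h
        | exact t.da h.symm
        | exact t.db h
        | exact t.db h.symm)

namespace IsSt

theorem uniq {D : JD H} {X S : Finset H} {D₁ D₂ : JD H} (h₁ : IsSt D X S D₁)
    (h₂ : IsSt D X S D₂) : D₁ = D₂ := by
  refine JD.ext (h₁.e.trans h₂.e.symm) (Equiv.ext fun h => ?_) ?_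
  · by_cases hh : ∀ x ∈ X, ∀ j, io D x j ≠ h
    · rw [h₁.oth h hh, h₂.oth h hh]
    · push Not at hh
      obtain ⟨x, hx, j, rfl⟩ := hh
      rw [h₁.six x hx, h₂.six x hx]
  · ext h
    rw [h₁.K, h₂.K]

theorem empty (D : JD H) (S : Finset H) : IsSt D ∅ S D :=
  ⟨rfl, fun x hx => absurd hx (Finset.notMem_empty x), fun _ _ => rfl, fun h => by simp⟩

variable {D : JD H} {X S : Finset H} {x : H} {D' : JD H}

/-- Before the last step the surroundings of `x` are unchanged. -/
theorem io_eq (hG : Gd D (insert x X)) (hx : x ∉ X) (h : IsSt D X S D') (j : Fin 6) :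
    io D' x j = io D x j := by
  have key : ∀ j, D'.r (io D x j) = D.r (io D x j) := by
    intro j
    apply h.oth
    intro x' hx' i hi
    have := hG.dj x' (Finset.mem_insert_of_mem hx') x (Finset.mem_insert_self x X) i j hi
    exact hx (this ▸ hx')
  have k0 : D'.r x = D.r x := key 0
  have k1 : D'.r (D.r x) = D.r (D.r x) := key 1
  have k3 : D'.r (D.e x) = D.r (D.e x) := key 3
  have k4 : D'.r (D.r (D.e x)) = D.r (D.r (D.e x)) := key 4
  fin_cases j
  · rfl
  · exact k0
  · show D'.r (D'.r x) = D.r (D.r x)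
    rw [k0, k1]
  · show D'.e x = D.e x
    rw [h.e]
  · show D'.r (D'.e x) = D.r (D.e x)
    rw [h.e, k3]
  · show D'.r (D'.r (D'.e x)) = D.r (D.r (D.e x))
    rw [h.e, k3, k4]

theorem ok (hG : Gd D (insert x X)) (hx : x ∉ X) (h : IsSt D X S D') : Ok D' x := by
  have k := hG.ok x (Finset.mem_insert_self x X)
  have e1 : D'.r x = D.r x := io_eq hG hx h 1
  have e2 : D'.r (D'.r x) = D.r (D.r x) := io_eq hG hx h 2
  have hne : ∀ z, D.six x z → ∀ x' ∈ X, z ≠ D.e x' ∧ D.e z ≠ D.e x' := by
    intro z hz x' hx'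
    obtain ⟨i, hi⟩ := (six_iff_io D x z).1 hz
    refine ⟨fun h1 => ?_, fun h1 => ?_⟩
    · have := hG.dj x (Finset.mem_insert_self x X) x' (Finset.mem_insert_of_mem hx') i 3
        (hi.trans h1)
      exact hx (this ▸ hx')
    · have h2 := D.e_inj h1
      have := hG.dj x (Finset.mem_insert_self x X) x' (Finset.mem_insert_of_mem hx') i 0
        (hi.trans h2)
      exact hx (this ▸ hx')
  have hon : ∀ z, D.six x z → ¬ D.onC z → ¬ D'.onC z := by
    intro z hz hn hc
    rcases hc with hc | hc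
    · rcases (h.K z).1 hc with h1 | ⟨x', hx', _, h1⟩
      · exact hn (Or.inl h1)
      · exact (hne z hz x' hx').1 h1
    · rw [h.e] at hc
      rcases (h.K _).1 hc with h1 | ⟨x', hx', _, h1⟩
      · exact hn (Or.inr h1)
      · exact (hne z hz x' hx').2 h1
  refine ⟨⟨?_, ?_, ?_⟩, ?_, ?_⟩
  · exact hon x (Or.inl (Or.inl rfl)) k.inn.1
  · rw [e1]
    exact hon _ (Or.inl (Or.inr (Or.inl rfl))) k.inn.2.1
  · rw [e2]
    exact hon _ (Or.inl (Or.inr (Or.inr rfl))) k.inn.2.2
  · rw [e1, h.e]
    exact k.ya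
  · rw [e2, h.e]
    exact k.yb

theorem mv_io (k : Ok D x) (j : Fin 6) : (D.mv x k).r (io D x j) = io D x (Rf false j) := by
  fin_cases j
  · exact JD.hf_x k
  · exact JD.hf_a k
  · exact JD.hf_b k
  · exact JD.hf_y k
  · exact JD.hf_c k
  · exact JD.hf_d k

theorem mx_io (k : Ok D x) (j : Fin 6) : (D.mx x k).r (io D x j) = io D x (Rf true j) := by
  obtain ⟨s1, s2, s3, s4, s5, s6, _⟩ := JD.mx_spec k
  fin_cases j
  · exact s1
  · exact s2
  · exact s6
  · exact s4
  · exact s3
  · exact s5

/-- One more edge. -/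
theorem step (hG : Gd D (insert x X)) (hx : x ∉ X) (h : IsSt D X S D') (s : Bool) {D₂ : JD H}
    (h1 : ∀ j, D₂.r (io D' x j) = io D' x (Rf s j)) (h2 : D₂.e = D'.e)
    (h3 : ∀ z, ¬ D'.six x z → D₂.r z = D'.r z) (h4 : D₂.K = D'.hK x) {S' : Finset H}
    (h5 : decide (x ∈ S') = s) (h6 : ∀ x' ∈ X, (x' ∈ S' ↔ x' ∈ S)) :
    IsSt D (insert x X) S' D₂ := by
  have k' := ok hG hx h
  have hne : ∀ x' ∈ X, ∀ i, ¬ D'.six x (io D x' i) := by
    intro x' hx' i h7
    obtain ⟨j, hj⟩ := (six_iff_io D' x _).1 h7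
    rw [io_eq hG hx h] at hj
    have := hG.dj x (Finset.mem_insert_self x X) x' (Finset.mem_insert_of_mem hx') j i hj
    exact hx (this ▸ hx')
  refine ⟨h2.trans h.e, ?_, ?_, ?_⟩
  · intro x' hx' j
    rcases Finset.mem_insert.1 hx' with rfl | hx'
    · have := h1 j
      rw [io_eq hG hx h, io_eq hG hx h] at this
      rw [this, h5]
    · rw [h3 _ (hne x' hx' j), h.six x' hx']
      congr 2
      exact decide_eq_decide.2 (h6 x' hx').symm
  · intro z hz
    have h7 : ¬ D'.six x z := by
      intro h8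
      obtain ⟨j, hj⟩ := (six_iff_io D' x _).1 h8
      rw [io_eq hG hx h] at hj
      exact hz x (Finset.mem_insert_self x X) j hj
    rw [h3 z h7]
    exact h.oth z fun x' hx' => hz x' (Finset.mem_insert_of_mem hx')
  · intro z
    have e3 : D'.e x = D.e x := io_eq hG hx h 3
    have e4 : D'.r (D'.e x) = D.r (D.e x) := io_eq hG hx h 4
    have hc : D.r (D.e x) ∈ D'.K ↔ D.r (D.e x) ∈ D.K := by
      rw [h.K]
      constructor
      · rintro (h8 | ⟨x', hx', _, h8⟩)
        · exact h8
        · exfalso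
          have := hG.dj x (Finset.mem_insert_self x X) x' (Finset.mem_insert_of_mem hx') 4 3 h8
          exact hx (this ▸ hx')
      · exact fun h8 => Or.inl h8
    rw [h4, JD.mem_hK k', e4, hc, e3, h.K]
    constructor
    · rintro ((h8 | ⟨x', hx', h8⟩) | h8)
      · exact Or.inl h8
      · exact Or.inr ⟨x', Finset.mem_insert_of_mem hx', h8⟩
      · exact Or.inr ⟨x, Finset.mem_insert_self x X, h8⟩
    · rintro (h8 | ⟨x', hx', h8⟩)
      · exact Or.inl (Or.inl h8)
      · rcases Finset.mem_insert.1 hx' with rfl | hx'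
        · exact Or.inr h8
        · exact Or.inl (Or.inr ⟨x', hx', h8⟩)

end IsSt

theorem Gd.mono {D : JD H} {x : H} {X : Finset H} (hG : Gd D (insert x X)) : Gd D X :=
  ⟨fun x' hx' => hG.ok x' (Finset.mem_insert_of_mem hx'), fun x' hx' x'' hx'' =>
    hG.dj x' (Finset.mem_insert_of_mem hx') x'' (Finset.mem_insert_of_mem hx'')⟩

/-- The diagrams exist, and the relation at one more edge. -/
theorem exists_st {D : JD H} : ∀ X : Finset H, Gd D X → ∀ S, S ⊆ X → ∃ D', IsSt D X S D' := by
  intro X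
  induction X using Finset.induction_on with
  | empty => exact fun _ S _ => ⟨D, IsSt.empty D S⟩
  | insert x X hx ih =>
    intro hG S hS
    obtain ⟨D', h⟩ := ih hG.mono (S.erase x) (by
      intro z hz
      rcases Finset.mem_insert.1 (hS (Finset.mem_of_mem_erase hz)) with h1 | h1
      · exact absurd h1 (Finset.ne_of_mem_erase hz)
      · exact h1)
    have k' := IsSt.ok hG hx h
    have h6 : ∀ x' ∈ X, (x' ∈ S ↔ x' ∈ S.erase x) := by
      intro x' hx'
      rw [Finset.mem_erase]
      exact ⟨fun h1 => ⟨fun h2 => hx (h2 ▸ hx'), h1⟩, fun h1 => h1.2⟩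
    by_cases hxS : x ∈ S
    · obtain ⟨_, _, _, _, _, _, s7, s8, s9⟩ := JD.mx_spec k'
      exact ⟨D'.mx x k', IsSt.step hG hx h true (IsSt.mx_io k') s9 s7 s8 (by simpa using hxS) h6⟩
    · exact ⟨D'.mv x k', IsSt.step hG hx h false (IsSt.mv_io k') rfl
        (fun z hz => JD.hf_o k' hz) rfl (by simpa using hxS) h6⟩

open Classical in
/-- The class of the diagram of the state `S`. -/
noncomputable def stc (D : JD H) (X S : Finset H) : A H :=
  if h : ∃ D', IsSt D X S D' then h.choose.cl else 0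

theorem stc_eq {D : JD H} {X S : Finset H} {D' : JD H} (h : IsSt D X S D') :
    stc D X S = D'.cl := by
  have h' : ∃ D', IsSt D X S D' := ⟨D', h⟩
  unfold stc
  rw [dif_pos h', IsSt.uniq h'.choose_spec h]

theorem stc_step {D : JD H} {x : H} {X S : Finset H} (hG : Gd D (insert x X)) (hx : x ∉ X)
    (hS : S ⊆ X) : stc D X S = stc D (insert x X) S - stc D (insert x X) (insert x S) := by
  obtain ⟨D', h⟩ := exists_st X hG.mono S hS
  have k' := IsSt.ok hG hx h
  have hxS : x ∉ S := fun h1 => hx (hS h1)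
  obtain ⟨_, _, _, _, _, _, s7, s8, s9⟩ := JD.mx_spec k'
  have h1 : IsSt D (insert x X) S (D'.mv x k') := IsSt.step hG hx h false (IsSt.mv_io k') rfl
    (fun z hz => JD.hf_o k' hz) rfl (by simpa using hxS) (fun _ _ => Iff.rfl)
  have h2 : IsSt D (insert x X) (insert x S) (D'.mx x k') :=
    IsSt.step hG hx h true (IsSt.mx_io k') s9 s7 s8 (by simp) (by
      intro x' hx'
      rw [Finset.mem_insert]
      exact ⟨fun h3 => h3.resolve_left fun h4 => hx (h4 ▸ hx'), fun h3 => Or.inr h3⟩)
  rw [stc_eq h, stc_eq h1, stc_eq h2]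
  exact JD.rel_mv k'

/-- The expansion. -/
theorem expand {D : JD H} (X : Finset H) (hG : Gd D X) :
    D.cl = ∑ S ∈ X.powerset, (-1 : ℤ) ^ S.card • stc D X S := by
  have key : ∀ X : Finset H, Gd D X → D.cl = ∑ S ∈ X.powerset, (-1 : ℤ) ^ S.card • stc D X S := by
    intro X
    induction X using Finset.induction_on with
    | empty =>
      intro _
      rw [Finset.powerset_empty, Finset.sum_singleton, stc_eq (IsSt.empty D ∅)]
      simp
    | insert x X hx ih =>
      intro hG
      rw [ih hG.mono, Finset.sum_powerset_insert hx, ← Finset.sum_add_distrib]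
      refine Finset.sum_congr rfl fun S hS => ?_
      have hS' := Finset.mem_powerset.1 hS
      rw [stc_step hG hx hS', Finset.card_insert_of_notMem (fun h1 => hx (hS' h1)), pow_succ,
        smul_sub, mul_smul, neg_one_smul, smul_neg, sub_eq_add_neg]
  exact key X hG

end Pool.Agent.Jac70
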