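import Mathlib
import Pool.Agent.Jac70.Multi

/-!
# Moving a vertex to another edge
-/

set_option autoImplicit false

namespace Pool.Agent.Jac70

variable {H : Type} [DecidableEq H]

namespace JD

theorem onC_e (D : JD H) (t : H) : D.onC (D.e t) ↔ D.onC t := by
  unfold onC
  rw [D.e2, or_comm]

/-- The same vertices with other edges. -/
def withE (D : JD H) (f : Equiv.Perm H) (f2 : ∀ h, f (f h) = h) (f1 : ∀ h, f h ≠ h)
    (hC : ∀ h, D.onC h → f h = D.e h)
    (hc : ∀ S : Set H, S.Nonempty → (∀ h ∈ S, f h ∈ S) → (∀ h ∈ S, D.r h ∈ S) → S = Set.univ) :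
    JD H where
  e := f
  r := D.r
  K := D.K
  e2 := f2
  e1 := f1
  r3 := D.r3
  r1 := D.r1
  out h hh := by
    rw [hC _ (Or.inr (D.out h hh))]
    exact D.out h hh
  ke h hh := by
    rw [hC _ (Or.inl hh)]
    exact D.ke h hh
  leg h hh := by
    refine ⟨(D.leg h hh).1, fun h1 => ?_⟩
    have h2 := hC _ (Or.inl h1)
    rw [f2] at h2
    have h3 : D.e (D.r (D.r h)) = f (D.r (D.r h)) := by
      have h4 := congrArg D.e h2
      rwa [D.e2] at h4
    rw [← h3] at h1
    exact (D.leg h hh).2 h1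
  cyc S h1 h2 := by
    refine D.cyc S h1 fun h hh hs => ?_
    have h3 := h2 h hh hs
    rwa [hC _ (Or.inr (D.out h hh))] at h3
  conn := hc
  ne := D.ne

theorem withE_onC (D : JD H) {f : Equiv.Perm H} {f2 : ∀ h, f (f h) = h} {f1 : ∀ h, f h ≠ h}
    {hC : ∀ h, D.onC h → f h = D.e h}
    {hc : ∀ S : Set H, S.Nonempty → (∀ h ∈ S, f h ∈ S) → (∀ h ∈ S, D.r h ∈ S) → S = Set.univ}
    (t : H) : (D.withE f f2 f1 hC hc).onC t ↔ D.onC t := by
  constructor
  · rintro (h | h)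
    · exact Or.inl h
    · have h1 : f t ∈ D.K := h
      have h2 := hC _ (Or.inl h1)
      rw [f2] at h2
      right
      rw [h2, D.e2]
      exact h1
  · intro h
    rcases h with h1 | h1
    · exact Or.inl h1
    · right
      show f t ∈ D.K
      rw [hC _ (Or.inr h1)]
      exact h1

/-- The edges after the removal of the vertex of `v`; the half-edges `v` and `r v` are left out. -/
def e0 (D : JD H) (v t : H) : H :=
  if t = D.e v then D.e (D.r v) else if t = D.e (D.r v) then D.e v else D.e t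

/-- The edges after the insertion of the vertex of `v` into the edge of `h`. -/
def fh (D : JD H) (v h t : H) : H :=
  if t = v then h else if t = D.r v then D.e0 v h else
    if t = h then v else if t = D.e0 v h then D.r v else D.e0 v t

/-- The vertex of `v` is not on the circle and has no loop. -/
structure NL (D : JD H) (v : H) : Prop where
  inn : D.inner v
  ab : D.e v ≠ D.r v
  ag : D.e v ≠ D.r (D.r v)
  bg : D.e (D.r v) ≠ D.r (D.r v)

variable {D : JD H} {v : H}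

theorem NL.ba (n : NL D v) : D.e (D.r v) ≠ v := by
  intro h
  apply n.ab
  rw [← h, D.e2, h]

theorem e0_ne (n : NL D v) {t : H} (_ : t ≠ v) (_ : t ≠ D.r v) :
    D.e0 v t ≠ v ∧ D.e0 v t ≠ D.r v ∧ D.e0 v t ≠ t := by
  have e1 := D.e1
  have e2 := D.e2
  have ba := n.ba
  have ab := n.ab
  unfold e0
  split_ifs with h3 h4
  · refine ⟨ba, e1 _, ?_⟩
    rw [h3]
    intro h5
    exact D.r1 v (D.e_inj h5)
  · refine ⟨e1 _, ab, ?_⟩
    rw [h4]
    intro h5
    exact D.r1 v (D.e_inj h5).symm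
  · refine ⟨?_, ?_, e1 t⟩
    · intro h5
      apply h3
      rw [← h5, e2]
    · intro h5
      apply h4
      rw [← h5, e2]

theorem e0_e0 {t : H} (h1 : t ≠ v) (h2 : t ≠ D.r v) :
    D.e0 v (D.e0 v t) = t := by
  by_cases h3 : t = D.e v
  · have h4 : D.e0 v t = D.e (D.r v) := if_pos h3
    rw [h4]
    unfold e0
    rw [if_neg, if_pos rfl, h3]
    intro h5
    exact D.r1 v (D.e_inj h5)
  · by_cases h4 : t = D.e (D.r v)
    · have h5 : D.e0 v t = D.e v := by
        unfold e0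
        rw [if_neg h3, if_pos h4]
      rw [h5]
      unfold e0
      rw [if_pos rfl, h4]
    · have h5 : D.e0 v t = D.e t := by
        unfold e0
        rw [if_neg h3, if_neg h4]
      rw [h5]
      unfold e0
      rw [if_neg (fun h => h1 (D.e_inj h)), if_neg (fun h => h2 (D.e_inj h)), D.e2]

theorem fh_v (v h : H) : D.fh v h v = h := if_pos rfl

theorem fh_rv (v h : H) : D.fh v h (D.r v) = D.e0 v h := by
  unfold fh
  rw [if_neg (D.r1 v), if_pos rfl]

theorem fh_h {h : H} (h1 : h ≠ v) (h2 : h ≠ D.r v) : D.fh v h h = v := by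
  unfold fh
  rw [if_neg h1, if_neg h2, if_pos rfl]

theorem fh_e0 (n : NL D v) {h : H} (h1 : h ≠ v) (h2 : h ≠ D.r v) :
    D.fh v h (D.e0 v h) = D.r v := by
  obtain ⟨a1, a2, a3⟩ := e0_ne n h1 h2
  unfold fh
  rw [if_neg a1, if_neg a2, if_neg a3, if_pos rfl]

theorem fh_o {h t : H} (h1 : t ≠ v) (h2 : t ≠ D.r v) (h3 : t ≠ h) (h4 : t ≠ D.e0 v h) :
    D.fh v h t = D.e0 v t := by
  unfold fh
  rw [if_neg h1, if_neg h2, if_neg h3, if_neg h4]

theorem fh_fh (n : NL D v) {h : H} (h1 : h ≠ v) (h2 : h ≠ D.r v) (t : H) :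
    D.fh v h (D.fh v h t) = t := by
  by_cases t1 : t = v
  · rw [t1, fh_v, fh_h h1 h2]
  by_cases t2 : t = D.r v
  · rw [t2, fh_rv, fh_e0 n h1 h2]
  by_cases t3 : t = h
  · rw [t3, fh_h h1 h2, fh_v]
  by_cases t4 : t = D.e0 v h
  · rw [t4, fh_e0 n h1 h2, fh_rv]
  rw [fh_o t1 t2 t3 t4]
  obtain ⟨a1, a2, a3⟩ := e0_ne n t1 t2
  rw [fh_o a1 a2, e0_e0 t1 t2]
  · intro h5
    apply t4
    rw [← h5, e0_e0 t1 t2]
  · intro h5
    apply t3
    have h6 := congrArg (D.e0 v) h5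
    rwa [e0_e0 t1 t2, e0_e0 h1 h2] at h6

theorem fh_ne (n : NL D v) {h : H} (h1 : h ≠ v) (h2 : h ≠ D.r v) (t : H) :
    D.fh v h t ≠ t := by
  obtain ⟨a1, a2, a3⟩ := e0_ne n h1 h2
  by_cases t1 : t = v
  · rw [t1, fh_v]
    exact h1
  by_cases t2 : t = D.r v
  · rw [t2, fh_rv]
    exact a2
  by_cases t3 : t = h
  · rw [t3, fh_h h1 h2]
    exact h1.symm
  by_cases t4 : t = D.e0 v h
  · rw [t4, fh_e0 n h1 h2]
    exact a2.symm
  rw [fh_o t1 t2 t3 t4]
  exact (e0_ne n t1 t2).2.2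

theorem e0_onC (n : NL D v) {h : H} (hi : ¬ D.onC h) : ¬ D.onC (D.e0 v h) := by
  unfold e0
  split_ifs
  · rw [D.onC_e]
    exact n.inn.2.1
  · rw [D.onC_e]
    exact n.inn.1
  · rw [D.onC_e]
    exact hi

theorem fh_onC (n : NL D v) {h : H} (hi : ¬ D.onC h) {t : H} (ht : D.onC t) :
    D.fh v h t = D.e t := by
  rw [fh_o]
  · unfold e0
    rw [if_neg, if_neg]
    · rintro rfl
      rw [D.onC_e] at ht
      exact n.inn.2.1 ht
    · rintro rfl
      rw [D.onC_e] at ht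
      exact n.inn.1 ht
  · rintro rfl
    exact n.inn.1 ht
  · rintro rfl
    exact n.inn.2.1 ht
  · rintro rfl
    exact hi ht
  · rintro rfl
    exact e0_onC n hi ht

/-- The permutation of the half-edges. -/
def fp (n : NL D v) {h : H} (h1 : h ≠ v) (h2 : h ≠ D.r v) : Equiv.Perm H :=
  Function.Involutive.toPerm (D.fh v h) (fh_fh n h1 h2)

theorem fp_apply (n : NL D v) {h : H} (h1 : h ≠ v) (h2 : h ≠ D.r v) (t : H) :
    fp n h1 h2 t = D.fh v h t := rfl

end JD

/-- The vertex of `v` may be moved to the edge of `h`. -/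
structure Mv (D : JD H) (v h : H) : Prop where
  nl : JD.NL D v
  h1 : h ≠ v
  h2 : h ≠ D.r v
  inn : ¬ D.onC h
  conn : ∀ S : Set H, S.Nonempty → (∀ t ∈ S, D.fh v h t ∈ S) → (∀ t ∈ S, D.r t ∈ S) →
    S = Set.univ

/-- The diagram with the vertex of `v` moved to the edge of `h`. -/
def JD.mo {D : JD H} {v h : H} (m : Mv D v h) : JD H :=
  D.withE (JD.fp m.nl m.h1 m.h2) (JD.fh_fh m.nl m.h1 m.h2) (JD.fh_ne m.nl m.h1 m.h2)
    (fun _ ht => JD.fh_onC m.nl m.inn ht) m.conn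

theorem sg_card [Fintype H] {D D' : JD H} {φ : Equiv.Perm H} {s : Finset H}
    (h : ∀ t, ¬ D'.r (φ t) = φ (D.r t) ↔ t ∈ s) : sg D D' φ = (-1) ^ s.card := by
  unfold sg
  rw [Finset.prod_ite, Finset.prod_const_one, one_mul, Finset.prod_const]
  congr 2
  ext t
  rw [Finset.mem_filter]
  exact ⟨fun h1 => (h t).1 h1.2, fun h1 => ⟨Finset.mem_univ _, (h t).2 h1⟩⟩

end Pool.Agent.Jac70
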