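import Mathlib
import Pool.Agent.Jac70.Rew

/-!
# The relations between the diagrams with a moved vertex
-/

set_option autoImplicit false

namespace Pool.Agent.Jac70

variable {H : Type} [DecidableEq H]

namespace JD

variable {D : JD H} {v : H}

theorem mo_r {h : H} (m : Mv D v h) : (mo m).r = D.r := rfl

theorem mo_K {h : H} (m : Mv D v h) : (mo m).K = D.K := rfl

theorem mo_e {h : H} (m : Mv D v h) (t : H) : (mo m).e t = D.fh v h t := rfl

theorem mo_onC {h : H} (m : Mv D v h) (t : H) : (mo m).onC t ↔ D.onC t := withE_onC D t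

theorem mo_inner {h : H} (m : Mv D v h) {t : H} : (mo m).inner t ↔ D.inner t := by
  unfold inner
  rw [mo_onC, mo_onC, mo_onC, mo_r]

theorem mo_self (m : Mv D v (D.e v)) : mo m = D := by
  refine JD.ext (Equiv.ext fun t => ?_) rfl rfl
  rw [mo_e]
  have h0 : D.e0 v (D.e v) = D.e (D.r v) := if_pos rfl
  by_cases t1 : t = v
  · rw [t1, fh_v]
  by_cases t2 : t = D.r v
  · rw [t2, fh_rv, h0]
  by_cases t3 : t = D.e v
  · rw [t3, fh_h m.h1 m.h2, D.e2]
  by_cases t4 : t = D.e0 v (D.e v)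
  · rw [t4, fh_e0 m.nl m.h1 m.h2, h0, D.e2]
  rw [fh_o t1 t2 t3 t4]
  rw [h0] at t4
  unfold e0
  rw [if_neg t3, if_neg t4]

theorem not_mem_of_inner {h : H} (hi : D.inner h) : h ∉ D.K ∧ D.r h ∉ D.K ∧ D.r (D.r h) ∉ D.K :=
  ⟨fun h1 => hi.1 (Or.inl h1), fun h1 => hi.2.1 (Or.inl h1), fun h1 => hi.2.2 (Or.inl h1)⟩

/-- The other side of the edge. -/
theorem cl_other [Fintype H] {h : H} (m : Mv D v h) (m' : Mv D v (D.e0 v h)) :
    (mo m').cl = - (mo m).cl := by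
  have a0 : D.r v ≠ v := D.r1 v
  have a1 : D.r (D.r v) ≠ v := D.r2 v
  have a2 : D.r (D.r v) ≠ D.r v := D.rr_ne_r v
  have a3 : D.r (D.r (D.r v)) = v := D.r3 v
  obtain ⟨k0, k1, k2⟩ := not_mem_of_inner m.nl.inn
  have gv : Equiv.swap v (D.r v) v = D.r v := Equiv.swap_apply_left _ _
  have gr : Equiv.swap v (D.r v) (D.r v) = v := Equiv.swap_apply_right _ _
  have go : ∀ t, t ≠ v → t ≠ D.r v → Equiv.swap v (D.r v) t = t := fun t h1 h2 =>
    Equiv.swap_apply_of_ne_of_ne h1 h2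
  have vt : ∀ t, t ≠ v → t ≠ D.r v → t ≠ D.r (D.r v) → D.r t ≠ v ∧ D.r t ≠ D.r v := by
    intro t t1 t2 t3
    exact ⟨fun h5 => t3 (D.r_inj (h5.trans a3.symm)), fun h5 => t1 (D.r_inj h5)⟩
  have ui : UI (mo m) (mo m') (Equiv.swap v (D.r v)) := by
    refine ⟨?_, ?_, ?_⟩
    · intro t
      rw [mo_e, mo_e]
      by_cases t1 : t = v
      · rw [t1, gv, fh_rv, fh_v, e0_e0 m.h1 m.h2, go h m.h1 m.h2]
      by_cases t2 : t = D.r v
      · rw [t2, gr, fh_rv, fh_v, go _ m'.h1 m'.h2]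
      by_cases t3 : t = h
      · have h4 := fh_e0 m.nl m'.h1 m'.h2
        rw [e0_e0 m.h1 m.h2] at h4
        rw [t3, go h m.h1 m.h2, h4, fh_h m.h1 m.h2, gv]
      by_cases t4 : t = D.e0 v h
      · rw [t4, go _ m'.h1 m'.h2, fh_h m'.h1 m'.h2, fh_e0 m.nl m.h1 m.h2, gr]
      obtain ⟨b1, b2, _⟩ := e0_ne m.nl t1 t2
      rw [go t t1 t2, fh_o t1 t2 t4 (by rw [e0_e0 m.h1 m.h2]; exact t3), fh_o t1 t2 t3 t4,
        go _ b1 b2]
    · intro t
      rw [mo_r, mo_r]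
      by_cases t1 : t = v
      · right
        rw [t1, gv, go _ a1 a2]
      by_cases t2 : t = D.r v
      · right
        rw [t2, gr, a3, gv]
      by_cases t3 : t = D.r (D.r v)
      · right
        rw [t3, a3, gr, go _ a1 a2, a3]
      left
      obtain ⟨b1, b2⟩ := vt t t1 t2 t3
      rw [go t t1 t2, go _ b1 b2]
    · intro t
      rw [mo_K, mo_K]
      by_cases t1 : t = v
      · rw [t1, gv]
        exact ⟨fun h5 => absurd h5 k1, fun h5 => absurd h5 k0⟩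
      by_cases t2 : t = D.r v
      · rw [t2, gr]
        exact ⟨fun h5 => absurd h5 k0, fun h5 => absurd h5 k1⟩
      rw [go t t1 t2]
  have hs : sg (mo m) (mo m') (Equiv.swap v (D.r v)) = -1 := by
    rw [sg_card (s := {v, D.r v, D.r (D.r v)})]
    · rw [Finset.card_eq_three.2 ⟨v, D.r v, D.r (D.r v), a0.symm, a1.symm, a2.symm, rfl⟩]
      norm_num
    · intro t
      rw [mo_r, mo_r]
      simp only [Finset.mem_insert, Finset.mem_singleton]
      by_cases t1 : t = v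
      · rw [t1, gv, gr]
        exact ⟨fun _ => Or.inl rfl, fun _ => a1⟩
      by_cases t2 : t = D.r v
      · rw [t2, gr, go _ a1 a2]
        exact ⟨fun _ => Or.inr (Or.inl rfl), fun _ h5 => a2 h5.symm⟩
      by_cases t3 : t = D.r (D.r v)
      · rw [t3, a3, gv, go _ a1 a2, a3]
        exact ⟨fun _ => Or.inr (Or.inr rfl), fun _ h5 => a0 h5.symm⟩
      obtain ⟨b1, b2⟩ := vt t t1 t2 t3
      rw [go t t1 t2, go _ b1 b2]
      constructor
      · intro h5
        exact absurd rfl h5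
      · rintro (h5 | h5 | h5)
        · exact absurd h5 t1
        · exact absurd h5 t2
        · exact absurd h5 t3
  rw [cl_ui ui, hs, neg_one_smul]

/-- The renaming for the relation IHX. -/
def gg (D : JD H) (v h w : H) : Equiv.Perm H := Equiv.swap h w * Equiv.swap w (D.r v)

section

variable {h w : H}

theorem gg_h (h1 : h ≠ w) (h2 : h ≠ D.r v) : gg D v h w h = w := by
  unfold gg
  rw [Equiv.Perm.mul_apply, Equiv.swap_apply_of_ne_of_ne h1 h2, Equiv.swap_apply_left]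

theorem gg_w (h1 : h ≠ D.r v) (h2 : w ≠ D.r v) : gg D v h w w = D.r v := by
  unfold gg
  rw [Equiv.Perm.mul_apply, Equiv.swap_apply_left, Equiv.swap_apply_of_ne_of_ne h1.symm h2.symm]

theorem gg_rv : gg D v h w (D.r v) = h := by
  unfold gg
  rw [Equiv.Perm.mul_apply, Equiv.swap_apply_right, Equiv.swap_apply_right]

theorem gg_o {t : H} (h1 : t ≠ h) (h2 : t ≠ w) (h3 : t ≠ D.r v) : gg D v h w t = t := by
  unfold gg
  rw [Equiv.Perm.mul_apply, Equiv.swap_apply_of_ne_of_ne h2 h3,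
    Equiv.swap_apply_of_ne_of_ne h1 h2]

theorem gg_e (n : NL D v) (h1 : h ≠ v) (h2 : h ≠ D.r v) (w1 : w ≠ v) (w2 : w ≠ D.r v)
    (hw : h ≠ w) (t : H) : D.fh v w (gg D v h w t) = gg D v h w (D.fh v h t) := by
  have a0 : D.r v ≠ v := D.r1 v
  obtain ⟨b1, b2, b3⟩ := e0_ne n h1 h2
  obtain ⟨c1, c2, c3⟩ := e0_ne n w1 w2
  have hh := e0_e0 (D := D) h1 h2
  have ww := e0_e0 (D := D) w1 w2
  by_cases t1 : t = v
  · rw [t1, gg_o h1.symm w1.symm a0.symm, fh_v, fh_v, gg_h hw h2]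
  by_cases t2 : t = D.r v
  · rw [t2, gg_rv, fh_rv]
    by_cases t3 : h = D.e0 v w
    · rw [t3, fh_e0 n w1 w2, ww, gg_w (by rw [← t3]; exact h2) w2]
    · rw [fh_o h1 h2 hw t3, gg_o b3 _ b2]
      intro h5
      apply t3
      rw [← h5, hh]
  by_cases t3 : t = h
  · rw [t3, gg_h hw h2, fh_h w1 w2, fh_h h1 h2, gg_o h1.symm w1.symm a0.symm]
  by_cases t4 : t = w
  · rw [t4, gg_w h2 w2, fh_rv]
    by_cases t5 : w = D.e0 v h
    · rw [t5, hh, fh_e0 n h1 h2, gg_rv]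
    · rw [fh_o w1 w2 hw.symm t5, gg_o _ c3 c2]
      intro h5
      apply t5
      rw [← h5, ww]
  by_cases t5 : t = D.e0 v h
  · rw [t5, gg_o b3 (by rw [← t5]; exact t4) b2, fh_e0 n h1 h2, gg_rv, fh_o b1 b2
      (by rw [← t5]; exact t4) _, hh]
    intro h5
    apply hw
    rw [← hh, h5, ww]
  by_cases t6 : t = D.e0 v w
  · rw [t6, gg_o (by rw [← t6]; exact t3) c3 c2, fh_e0 n w1 w2, fh_o c1 c2
      (by rw [← t6]; exact t3) (by rw [← t6]; exact t5), ww, gg_w h2 w2]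
  have d1 : D.e0 v t ≠ h := by
    intro h5
    apply t5
    rw [← h5, e0_e0 t1 t2]
  have d2 : D.e0 v t ≠ w := by
    intro h5
    apply t6
    rw [← h5, e0_e0 t1 t2]
  rw [gg_o t3 t4 t2, fh_o t1 t2 t4 t6, fh_o t1 t2 t3 t5, gg_o d1 d2 (e0_ne n t1 t2).2.1]

end

end JD

end Pool.Agent.Jac70
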