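import Mathlib
import Pool.Agent.Jac70.Sli

/-!
# The relation IHX for a moved vertex
-/

set_option autoImplicit false

namespace Pool.Agent.Jac70

variable {H : Type} [DecidableEq H]

namespace JD

variable {D : JD H} {v h : H}

/-- The six half-edges are different. -/
structure Six (D : JD H) (v h : H) : Prop where
  hv : h ≠ v
  hr : h ≠ D.r v
  hs : h ≠ D.r (D.r v)
  av : D.r h ≠ v
  ar : D.r h ≠ D.r v
  as : D.r h ≠ D.r (D.r v)
  bv : D.r (D.r h) ≠ v
  br : D.r (D.r h) ≠ D.r v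
  bs : D.r (D.r h) ≠ D.r (D.r v)

theorem six_of (m : Mv D v h) (ma : Mv D v (D.r h)) (mb : Mv D v (D.r (D.r h))) : Six D v h := by
  have a3 : D.r (D.r (D.r v)) = v := D.r3 v
  have b3 : D.r (D.r (D.r h)) = h := D.r3 h
  refine ⟨m.h1, m.h2, ?_, ma.h1, ma.h2, ?_, mb.h1, mb.h2, ?_⟩
  · intro h5
    apply ma.h1
    rw [h5, a3]
  · intro h5
    apply mb.h1
    rw [h5, a3]
  · intro h5
    have h6 := D.r_inj (D.r_inj h5)
    exact m.h1 h6

theorem mo_ok (m : Mv D v h) (hi : D.inner h) (q : Six D v h) : Ok (mo m) h := by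
  refine ⟨(mo_inner m).2 hi, ?_, ?_⟩
  · rw [mo_e, fh_h m.h1 m.h2, mo_r]
    exact q.av.symm
  · rw [mo_e, fh_h m.h1 m.h2, mo_r]
    exact q.bv.symm

theorem mo_six (m : Mv D v h) {t : H} (t1 : t ≠ h) (t2 : t ≠ D.r h) (t3 : t ≠ D.r (D.r h))
    (t4 : t ≠ v) (t5 : t ≠ D.r v) (t6 : t ≠ D.r (D.r v)) : ¬ (mo m).six h t := by
  rintro ((h5 | h5 | h5) | (h5 | h5 | h5))
  · exact t1 h5
  · exact t2 h5
  · exact t3 h5
  · rw [mo_e, fh_h m.h1 m.h2] at h5
    exact t4 h5
  · rw [mo_e, fh_h m.h1 m.h2] at h5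
    exact t5 h5
  · rw [mo_e, fh_h m.h1 m.h2] at h5
    exact t6 h5

theorem mo_hK (m : Mv D v h) (k : Ok (mo m) h) (t : H) : t ∈ (mo m).hK h ↔ t ∈ D.K := by
  rw [mem_hK k, mo_e, fh_h m.h1 m.h2, mo_r, mo_K]
  constructor
  · rintro (h5 | ⟨h5, _⟩)
    · exact h5
    · exact absurd h5 (not_mem_of_inner m.nl.inn).2.1
  · exact fun h5 => Or.inl h5

theorem gg_K {w : H} (hv : D.r v ∉ D.K) (hh : h ∉ D.K) (hw : w ∉ D.K) (h1 : h ≠ w)
    (h2 : h ≠ D.r v) (h3 : w ≠ D.r v) (t : H) : gg D v h w t ∈ D.K ↔ t ∈ D.K := by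
  by_cases t1 : t = h
  · rw [t1, gg_h h1 h2]
    exact ⟨fun h5 => absurd h5 hw, fun h5 => absurd h5 hh⟩
  by_cases t2 : t = w
  · rw [t2, gg_w h2 h3]
    exact ⟨fun h5 => absurd h5 hv, fun h5 => absurd h5 hw⟩
  by_cases t3 : t = D.r v
  · rw [t3, gg_rv]
    exact ⟨fun h5 => absurd h5 hh, fun h5 => absurd h5 hv⟩
  rw [gg_o t1 t2 t3]

theorem cl_mv [Fintype H] (m : Mv D v h) (ma : Mv D v (D.r h)) (hi : D.inner h)
    (q : Six D v h) (k : Ok (mo m) h) : ((mo m).mv h k).cl = - (mo ma).cl := by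
  have v0 : D.r v ≠ v := D.r1 v
  have v1 : D.r (D.r v) ≠ v := D.r2 v
  have v2 : D.r (D.r v) ≠ D.r v := D.rr_ne_r v
  have v3 : D.r (D.r (D.r v)) = v := D.r3 v
  have h0 : D.r h ≠ h := D.r1 h
  have h1 : D.r (D.r h) ≠ h := D.r2 h
  have h2 : D.r (D.r h) ≠ D.r h := D.rr_ne_r h
  have h3 : D.r (D.r (D.r h)) = h := D.r3 h
  obtain ⟨k0, k1, k2⟩ := not_mem_of_inner m.nl.inn
  obtain ⟨l0, l1, l2⟩ := not_mem_of_inner hi
  have eh : (mo m).e h = v := by rw [mo_e, fh_h m.h1 m.h2]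
  have f1 := hf_x k
  have f2 := hf_b k
  have f3 := hf_c k
  have f4 := hf_y k
  have f5 := hf_d k
  have f6 := hf_a k
  rw [eh] at f2 f3 f4 f5 f6
  simp only [mo_r] at f1 f2 f3 f4 f5 f6
  have fo : ∀ t, t ≠ h → t ≠ D.r h → t ≠ D.r (D.r h) → t ≠ v → t ≠ D.r v → t ≠ D.r (D.r v) →
      (mo m).hf h t = D.r t := fun t t1 t2 t3 t4 t5 t6 => hf_o k (mo_six m t1 t2 t3 t4 t5 t6)
  have ro : ∀ t, t ≠ h → t ≠ D.r h → t ≠ D.r (D.r h) → t ≠ v → t ≠ D.r v → t ≠ D.r (D.r v) →
      D.r t ≠ h ∧ D.r t ≠ D.r h ∧ D.r t ≠ D.r (D.r h) ∧ D.r t ≠ v ∧ D.r t ≠ D.r v ∧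
        D.r t ≠ D.r (D.r v) := by
    intro t t1 t2 t3 t4 t5 t6
    refine ⟨?_, fun h5 => t1 (D.r_inj h5), fun h5 => t2 (D.r_inj h5), ?_,
      fun h5 => t4 (D.r_inj h5), fun h5 => t5 (D.r_inj h5)⟩
    · intro h5
      exact t3 (D.r_inj (h5.trans h3.symm))
    · intro h5
      exact t6 (D.r_inj (h5.trans v3.symm))
  have ui : UI ((mo m).mv h k) (mo ma) (gg D v h (D.r h)) := by
    refine ⟨?_, ?_, ?_⟩
    · intro t
      rw [mv_e, mo_e, mo_e]
      exact gg_e m.nl m.h1 m.h2 ma.h1 ma.h2 h0.symm t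
    · intro t
      rw [mv_r, mv_r, mo_r]
      by_cases t1 : t = h
      · left
        rw [t1, gg_h h0.symm q.hr, f1, gg_o h1 h2 q.br]
      by_cases t2 : t = D.r h
      · right
        rw [t2, gg_w q.hr q.ar, f6, f4, gg_o q.hs.symm q.as.symm v2]
      by_cases t3 : t = D.r (D.r h)
      · left
        rw [t3, gg_o h1 h2 q.br, h3, f2, gg_rv]
      by_cases t4 : t = v
      · right
        rw [t4, gg_o q.hv.symm q.av.symm v0.symm, f4, f5, gg_w q.hr q.ar]
      by_cases t5 : t = D.r v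
      · left
        rw [t5, gg_rv, f3, gg_h h0.symm q.hr]
      by_cases t6 : t = D.r (D.r v)
      · right
        rw [t6, gg_o q.hs.symm q.as.symm v2, v3, f5, f6, gg_o q.hv.symm q.av.symm v0.symm]
      left
      obtain ⟨s1, s2, s3, s4, s5, s6⟩ := ro t t1 t2 t3 t4 t5 t6
      rw [fo t t1 t2 t3 t4 t5 t6, gg_o t1 t2 t5, gg_o s1 s2 s5]
    · intro t
      rw [mv_K, mo_hK m k, mo_K]
      exact gg_K k1 l0 l1 h0.symm q.hr q.ar t
  have hs : sg ((mo m).mv h k) (mo ma) (gg D v h (D.r h)) = -1 := by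
    rw [sg_card (s := {v, D.r (D.r v), D.r h})]
    · rw [Finset.card_eq_three.2 ⟨v, D.r (D.r v), D.r h, v1.symm, q.av.symm, q.as.symm, rfl⟩]
      norm_num
    · intro t
      rw [mv_r, mo_r]
      simp only [Finset.mem_insert, Finset.mem_singleton]
      by_cases t1 : t = h
      · rw [t1, gg_h h0.symm q.hr, f1, gg_o h1 h2 q.br]
        constructor
        · intro h5
          exact absurd rfl h5
        · rintro (h5 | h5 | h5)
          · exact absurd h5 q.hv
          · exact absurd h5 q.hs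
          · exact absurd h5.symm h0
      by_cases t2 : t = D.r h
      · rw [t2, gg_w q.hr q.ar, f6, gg_o q.hv.symm q.av.symm v0.symm]
        exact ⟨fun _ => Or.inr (Or.inr rfl), fun _ => v1⟩
      by_cases t3 : t = D.r (D.r h)
      · rw [t3, gg_o h1 h2 q.br, h3, f2, gg_rv]
        constructor
        · intro h5
          exact absurd rfl h5
        · rintro (h5 | h5 | h5)
          · exact absurd h5 q.bv
          · exact absurd h5 q.bs
          · exact absurd h5 h2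
      by_cases t4 : t = v
      · rw [t4, gg_o q.hv.symm q.av.symm v0.symm, f4, gg_o q.hs.symm q.as.symm v2]
        exact ⟨fun _ => Or.inl rfl, fun _ => v2.symm⟩
      by_cases t5 : t = D.r v
      · rw [t5, gg_rv, f3, gg_h h0.symm q.hr]
        constructor
        · intro h5
          exact absurd rfl h5
        · rintro (h5 | h5 | h5)
          · exact absurd h5 v0
          · exact absurd h5.symm v2
          · exact absurd h5.symm q.ar
      by_cases t6 : t = D.r (D.r v)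
      · rw [t6, gg_o q.hs.symm q.as.symm v2, v3, f5, gg_w q.hr q.ar]
        exact ⟨fun _ => Or.inr (Or.inl rfl), fun _ => v0.symm⟩
      obtain ⟨s1, s2, s3, s4, s5, s6⟩ := ro t t1 t2 t3 t4 t5 t6
      rw [fo t t1 t2 t3 t4 t5 t6, gg_o t1 t2 t5, gg_o s1 s2 s5]
      constructor
      · intro h5
        exact absurd rfl h5
      · rintro (h5 | h5 | h5)
        · exact absurd h5 t4
        · exact absurd h5 t6
        · exact absurd h5 t2
  have := cl_ui ui
  rw [hs, neg_one_smul] at this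
  rw [this, neg_neg]

theorem cl_mx [Fintype H] (m : Mv D v h) (mb : Mv D v (D.r (D.r h))) (hi : D.inner h)
    (q : Six D v h) (k : Ok (mo m) h) : ((mo m).mx h k).cl = (mo mb).cl := by
  have v0 : D.r v ≠ v := D.r1 v
  have v1 : D.r (D.r v) ≠ v := D.r2 v
  have v2 : D.r (D.r v) ≠ D.r v := D.rr_ne_r v
  have v3 : D.r (D.r (D.r v)) = v := D.r3 v
  have h0 : D.r h ≠ h := D.r1 h
  have h1 : D.r (D.r h) ≠ h := D.r2 h
  have h2 : D.r (D.r h) ≠ D.r h := D.rr_ne_r h
  have h3 : D.r (D.r (D.r h)) = h := D.r3 h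
  obtain ⟨k0, k1, k2⟩ := not_mem_of_inner m.nl.inn
  obtain ⟨l0, l1, l2⟩ := not_mem_of_inner hi
  have eh : (mo m).e h = v := by rw [mo_e, fh_h m.h1 m.h2]
  obtain ⟨f1, f6, f3, f4, f5, f2, f7, f8, f9⟩ := mx_spec k
  rw [eh] at f2 f3 f4 f5 f6
  simp only [mo_r] at f1 f2 f3 f4 f5 f6 f7
  have fo : ∀ t, t ≠ h → t ≠ D.r h → t ≠ D.r (D.r h) → t ≠ v → t ≠ D.r v → t ≠ D.r (D.r v) →
      ((mo m).mx h k).r t = D.r t :=
    fun t t1 t2 t3 t4 t5 t6 => f7 t (mo_six m t1 t2 t3 t4 t5 t6)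
  have ro : ∀ t, t ≠ h → t ≠ D.r h → t ≠ D.r (D.r h) → t ≠ v → t ≠ D.r v → t ≠ D.r (D.r v) →
      D.r t ≠ h ∧ D.r t ≠ D.r h ∧ D.r t ≠ D.r (D.r h) ∧ D.r t ≠ v ∧ D.r t ≠ D.r v ∧
        D.r t ≠ D.r (D.r v) := by
    intro t t1 t2 t3 t4 t5 t6
    refine ⟨?_, fun h5 => t1 (D.r_inj h5), fun h5 => t2 (D.r_inj h5), ?_,
      fun h5 => t4 (D.r_inj h5), fun h5 => t5 (D.r_inj h5)⟩
    · intro h5
      exact t3 (D.r_inj (h5.trans h3.symm))
    · intro h5
      exact t6 (D.r_inj (h5.trans v3.symm))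
  have ui : UI ((mo m).mx h k) (mo mb) (gg D v h (D.r (D.r h))) := by
    refine ⟨?_, ?_, ?_⟩
    · intro t
      rw [f9, mo_e, mo_e]
      exact gg_e m.nl m.h1 m.h2 mb.h1 mb.h2 h1.symm t
    · intro t
      rw [mo_r]
      by_cases t1 : t = h
      · right
        rw [t1, gg_h h1.symm q.hr, f1, f6, gg_rv, h3]
      by_cases t2 : t = D.r h
      · right
        rw [t2, gg_o h0 h2.symm q.ar, f6, f3, gg_h h1.symm q.hr]
      by_cases t3 : t = D.r (D.r h)
      · right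
        rw [t3, gg_w q.hr q.br, f2, f4, gg_o q.hs.symm q.bs.symm v2]
      by_cases t4 : t = v
      · right
        rw [t4, gg_o q.hv.symm q.bv.symm v0.symm, f4, f5, gg_w q.hr q.br]
      by_cases t5 : t = D.r v
      · right
        rw [t5, gg_rv, f3, f1, gg_o h0 h2.symm q.ar]
      by_cases t6 : t = D.r (D.r v)
      · right
        rw [t6, gg_o q.hs.symm q.bs.symm v2, v3, f5, f2, gg_o q.hv.symm q.bv.symm v0.symm]
      left
      obtain ⟨s1, s2, s3, s4, s5, s6⟩ := ro t t1 t2 t3 t4 t5 t6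
      rw [fo t t1 t2 t3 t4 t5 t6, gg_o t1 t3 t5, gg_o s1 s3 s5]
    · intro t
      rw [f8, mo_hK m k, mo_K]
      exact gg_K k1 l0 l2 h1.symm q.hr q.br t
  have hs : sg ((mo m).mx h k) (mo mb) (gg D v h (D.r (D.r h))) = 1 := by
    rw [sg_card (s := {h, D.r h, D.r (D.r h), v, D.r v, D.r (D.r v)})]
    · have hc : ({h, D.r h, D.r (D.r h), v, D.r v, D.r (D.r v)} : Finset H).card = 6 := by
        have e1 : ({v, D.r v, D.r (D.r v)} : Finset H).card = 3 :=
          Finset.card_eq_three.2 ⟨v, D.r v, D.r (D.r v), v0.symm, v1.symm, v2.symm, rfl⟩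
        rw [Finset.card_insert_of_notMem, Finset.card_insert_of_notMem,
          Finset.card_insert_of_notMem, e1]
        · simp only [Finset.mem_insert, Finset.mem_singleton]
          rintro (h5 | h5 | h5)
          · exact q.bv h5
          · exact q.br h5
          · exact q.bs h5
        · simp only [Finset.mem_insert, Finset.mem_singleton]
          rintro (h5 | h5 | h5 | h5)
          · exact h2 h5.symm
          · exact q.av h5
          · exact q.ar h5
          · exact q.as h5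
        · simp only [Finset.mem_insert, Finset.mem_singleton]
          rintro (h5 | h5 | h5 | h5 | h5)
          · exact h0 h5.symm
          · exact h1 h5.symm
          · exact q.hv h5
          · exact q.hr h5
          · exact q.hs h5
      rw [hc]
      norm_num
    · intro t
      rw [mo_r]
      simp only [Finset.mem_insert, Finset.mem_singleton]
      by_cases t1 : t = h
      · rw [t1, gg_h h1.symm q.hr, f1, gg_o h0 h2.symm q.ar, h3]
        exact ⟨fun _ => Or.inl rfl, fun _ => h0.symm⟩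
      by_cases t2 : t = D.r h
      · rw [t2, gg_o h0 h2.symm q.ar, f6, gg_rv]
        exact ⟨fun _ => Or.inr (Or.inl rfl), fun _ => h1⟩
      by_cases t3 : t = D.r (D.r h)
      · rw [t3, gg_w q.hr q.br, f2, gg_o q.hv.symm q.bv.symm v0.symm]
        exact ⟨fun _ => Or.inr (Or.inr (Or.inl rfl)), fun _ => v1⟩
      by_cases t4 : t = v
      · rw [t4, gg_o q.hv.symm q.bv.symm v0.symm, f4, gg_o q.hs.symm q.bs.symm v2]
        exact ⟨fun _ => Or.inr (Or.inr (Or.inr (Or.inl rfl))), fun _ => v2.symm⟩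
      by_cases t5 : t = D.r v
      · rw [t5, gg_rv, f3, gg_h h1.symm q.hr]
        exact ⟨fun _ => Or.inr (Or.inr (Or.inr (Or.inr (Or.inl rfl)))), fun _ => h2.symm⟩
      by_cases t6 : t = D.r (D.r v)
      · rw [t6, gg_o q.hs.symm q.bs.symm v2, v3, f5, gg_w q.hr q.br]
        exact ⟨fun _ => Or.inr (Or.inr (Or.inr (Or.inr (Or.inr rfl)))), fun _ => v0.symm⟩
      obtain ⟨s1, s2, s3, s4, s5, s6⟩ := ro t t1 t2 t3 t4 t5 t6
      rw [fo t t1 t2 t3 t4 t5 t6, gg_o t1 t3 t5, gg_o s1 s3 s5]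
      constructor
      · intro h5
        exact absurd rfl h5
      · rintro (h5 | h5 | h5 | h5 | h5 | h5)
        · exact absurd h5 t1
        · exact absurd h5 t2
        · exact absurd h5 t3
        · exact absurd h5 t4
        · exact absurd h5 t5
        · exact absurd h5 t6
  have := cl_ui ui
  rw [hs, one_smul] at this
  exact this.symm

/-- The relation IHX for the three positions around a vertex. -/
theorem cl_around [Fintype H] (m : Mv D v h) (ma : Mv D v (D.r h)) (mb : Mv D v (D.r (D.r h)))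
    (hi : D.inner h) : (mo m).cl + (mo ma).cl + (mo mb).cl = 0 := by
  have q := six_of m ma mb
  have k := mo_ok m hi q
  rw [rel_mv k, cl_mv m ma hi q k, cl_mx m mb hi q k]
  abel

end JD

end Pool.Agent.Jac70
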