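import Mathlib
import Pool.Agent.Jac70.Multi

/-!
# An automorphism acts on the states of the expansion
-/

set_option autoImplicit false

namespace Pool.Agent.Jac70

variable {H : Type} [DecidableEq H]

/-- `φ` preserves the cyclic order at the vertex of `h`. -/
def pr (D : JD H) (φ : Equiv.Perm H) (h : H) : Bool := decide (D.r (φ h) = φ (D.r h))

theorem pr_true {D : JD H} {φ : Equiv.Perm H} {h : H} :
    pr D φ h = true ↔ D.r (φ h) = φ (D.r h) := by
  unfold pr
  exact decide_eq_true_iff

theorem pr_false {D : JD H} {φ : Equiv.Perm H} {h : H} :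
    pr D φ h = false ↔ ¬ D.r (φ h) = φ (D.r h) := by
  unfold pr
  exact decide_eq_false_iff_not

namespace Aut

variable {D : JD H} {φ : Equiv.Perm H}

theorem fr (ha : Aut D φ) (h : H) :
    φ (D.r h) = if pr D φ h then D.r (φ h) else D.r (D.r (φ h)) := by
  by_cases hp : D.r (φ h) = φ (D.r h)
  · rw [if_pos (pr_true.2 hp), hp]
  · rw [if_neg (by rw [pr_true]; exact hp)]
    have h1 := (ha.r h).resolve_left hp
    rcases ha.r (D.r (D.r h)) with h2 | h2
    · rw [D.r3, ← h1] at h2
      exact absurd h2 (D.r2 _)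
    · rw [D.r3, ← h1] at h2
      exact h2.symm

theorem frr (ha : Aut D φ) (h : H) :
    φ (D.r (D.r h)) = if pr D φ h then D.r (D.r (φ h)) else D.r (φ h) := by
  by_cases hp : D.r (φ h) = φ (D.r h)
  · rw [if_pos (pr_true.2 hp)]
    rcases ha.r (D.r h) with h2 | h2
    · rw [← h2, hp]
    · rw [D.r3, ← hp] at h2
      exact absurd h2 (D.r2 _)
  · rw [if_neg (by rw [pr_true]; exact hp)]
    exact ((ha.r h).resolve_left hp).symm

theorem pr_r (ha : Aut D φ) (h : H) : pr D φ (D.r h) = pr D φ h := by
  have h1 := ha.fr h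
  have h2 := ha.frr h
  cases hp : pr D φ h
  · rw [hp] at h1 h2
    rw [pr_false, h1, h2]
    simp only [Bool.false_eq_true, if_false]
    rw [D.r3]
    exact (D.r1 _).symm
  · rw [hp] at h1 h2
    rw [pr_true, h1, h2]
    simp only [if_true]

end Aut

/-- The action of an automorphism on the six half-edges at an edge. -/
def Be (w p q s : Bool) (j : Fin 6) : Fin 6 :=
  match j with
  | 0 => if w then (if s == !p then 0 else 3) else (if q then 3 else 0)
  | 1 => if w then (if p then 5 else 4) else (if p then 2 else 1)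
  | 2 => if w then (if p then 4 else 5) else (if p then 1 else 2)
  | 3 => if w then (if s == !p then 3 else 0) else (if q then 0 else 3)
  | 4 => if w then (if q then 2 else 1) else (if q then 5 else 4)
  | 5 => if w then (if q then 1 else 2) else (if q then 4 else 5)

theorem table : ∀ w p q s : Bool,
    (∀ j, Rf (s == (p == q)) (Be w p q s j) = Be w p q s (Rf s j)) ∨
      (∀ j, Rf (s == (p == q)) (Be w p q s j) ≠ Be w p q s (Rf s j) ∧
        Rf (s == (p == q)) (Be w p q s j) = Be w p q s (Rf s (Rf s j))) := by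
  decide

/-- The permutation of the chosen edges, in terms of their representatives. -/
def sm (D : JD H) (φ : Equiv.Perm H) (X : Finset H) (x : H) : H :=
  if φ x ∈ X then φ x else D.e (φ x)

/-- The next state. -/
def nx (D : JD H) (φ : Equiv.Perm H) (X S : Finset H) : Finset H :=
  (X.filter fun x => (decide (x ∈ S) == (pr D φ x == pr D φ (D.e x))) = true).image (sm D φ X)

/-- The edges whose two halves are exchanged before `φ` is applied. -/
def ys (D : JD H) (φ : Equiv.Perm H) (X S : Finset H) : Finset H :=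
  X.filter fun x => (if φ x ∈ X then !pr D φ (D.e x) else (decide (x ∈ S) == pr D φ x)) = true

/-- The exchange of the two halves of the edges of `Y`. -/
def us (D : JD H) (Y : Finset H) (h : H) : H := if h ∈ Y ∨ D.e h ∈ Y then D.e h else h

theorem us_us (D : JD H) (Y : Finset H) (h : H) : us D Y (us D Y h) = h := by
  unfold us
  by_cases hh : h ∈ Y ∨ D.e h ∈ Y
  · rw [if_pos hh, D.e2, if_pos hh.symm]
  · rw [if_neg hh, if_neg hh]

theorem us_e (D : JD H) (Y : Finset H) (h : H) : us D Y (D.e h) = D.e (us D Y h) := by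
  unfold us
  by_cases hh : h ∈ Y ∨ D.e h ∈ Y
  · rw [if_pos hh, if_pos (by rw [D.e2]; exact hh.symm)]
  · rw [if_neg hh, if_neg (by rw [D.e2]; exact fun h1 => hh h1.symm)]

/-- The isomorphism between the diagrams of two consecutive states. -/
def ph (D : JD H) (φ : Equiv.Perm H) (Y : Finset H) : Equiv.Perm H :=
  (Function.Involutive.toPerm (us D Y) (us_us D Y)).trans φ

theorem ph_apply (D : JD H) (φ : Equiv.Perm H) (Y : Finset H) (h : H) :
    ph D φ Y h = φ (us D Y h) := rfl

/-- The chosen edges are permuted. -/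
structure St (D : JD H) (φ : Equiv.Perm H) (X : Finset H) : Prop where
  au : Aut D φ
  gd : Gd D X
  cl : ∀ x ∈ X, φ x ∈ X ∨ D.e (φ x) ∈ X

namespace St

variable {D : JD H} {φ : Equiv.Perm H} {X : Finset H}

theorem notMem (hs : St D φ X) {x : H} (hx : x ∈ X) : D.e x ∉ X := by
  intro h
  have := hs.gd.dj x hx (D.e x) h 3 0 rfl
  exact D.e1 x this.symm

theorem sm_mem (hs : St D φ X) {x : H} (hx : x ∈ X) : sm D φ X x ∈ X := by
  unfold sm
  by_cases h : φ x ∈ X
  · rwa [if_pos h]
  · rw [if_neg h]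
    exact (hs.cl x hx).resolve_left h

theorem sm_inj (hs : St D φ X) {x x' : H} (hx : x ∈ X) (hx' : x' ∈ X)
    (h : sm D φ X x = sm D φ X x') : x = x' := by
  unfold sm at h
  by_cases h1 : φ x ∈ X <;> by_cases h2 : φ x' ∈ X
  · rw [if_pos h1, if_pos h2] at h
    exact φ.injective h
  · rw [if_pos h1, if_neg h2, hs.au.e] at h
    have := φ.injective h
    exact absurd (this ▸ hx) (hs.notMem hx')
  · rw [if_neg h1, if_pos h2, hs.au.e] at h
    have := φ.injective h
    exact absurd (this ▸ hx') (hs.notMem hx)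
  · rw [if_neg h1, if_neg h2] at h
    exact φ.injective (D.e_inj h)

theorem io_ph (hs : St D φ X) (S : Finset H) {x : H} (hx : x ∈ X) (j : Fin 6) :
    ph D φ (ys D φ X S) (io D x j) = io D (sm D φ X x)
      (Be (!decide (φ x ∈ X)) (!pr D φ x) (!pr D φ (D.e x)) (decide (x ∈ S)) j) := by
  have k := hs.gd.ok x hx
  have t := D.dst k
  -- the exchange
  have hY : x ∈ ys D φ X S ∨ D.e x ∈ ys D φ X S ↔
      (if φ x ∈ X then !pr D φ (D.e x) else (decide (x ∈ S) == pr D φ x)) = true := by
    unfold ys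
    rw [Finset.mem_filter, Finset.mem_filter]
    constructor
    · rintro (h | h)
      · exact h.2
      · exact absurd h.1 (hs.notMem hx)
    · exact fun h => Or.inl ⟨hx, h⟩
  have u0 : us D (ys D φ X S) x =
      if (if φ x ∈ X then !pr D φ (D.e x) else (decide (x ∈ S) == pr D φ x)) = true
        then D.e x else x := by
    unfold us
    exact if_congr hY rfl rfl
  have u3 : us D (ys D φ X S) (D.e x) =
      if (if φ x ∈ X then !pr D φ (D.e x) else (decide (x ∈ S) == pr D φ x)) = true
        then x else D.e x := by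
    rw [us_e, u0]
    split_ifs <;> simp [D.e2]
  have un : ∀ i, i ≠ 0 → i ≠ 3 → us D (ys D φ X S) (io D x i) = io D x i := by
    intro i h0 h3
    unfold us
    rw [if_neg]
    rintro (h | h)
    · have h1 := (Finset.mem_filter.1 h).1
      have h2 := hs.gd.dj x hx _ h1 i 0 rfl
      exact h0 (io_inj k (j := 0) h2.symm)
    · have h1 := (Finset.mem_filter.1 h).1
      have h2 := hs.gd.dj x hx _ h1 i 3 (by
        show io D x i = D.e (D.e (io D x i))
        rw [D.e2])
      have h4 : io D x i = io D x 3 := by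
        show io D x i = D.e x
        conv_rhs => rw [h2]
        rw [D.e2]
      exact h3 (io_inj k h4)
  have f1 := hs.au.fr x
  have f2 := hs.au.frr x
  have f3 : φ (D.e x) = D.e (φ x) := (hs.au.e x).symm
  have f4 := hs.au.fr (D.e x)
  have f5 := hs.au.frr (D.e x)
  rw [f3] at f4 f5
  rw [ph_apply]
  by_cases h : φ x ∈ X
  · have hsm : sm D φ X x = φ x := if_pos h
    rw [hsm]
    simp only [h, if_true] at u0 u3
    fin_cases j
    · show φ (us D (ys D φ X S) x) = _
      rw [u0]
      cases hq : pr D φ (D.e x) <;> simp [Be, h, io, f3]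
    · show φ (us D (ys D φ X S) (io D x 1)) = _
      rw [un 1 (by decide) (by decide)]
      show φ (D.r x) = _
      rw [f1]
      cases hp : pr D φ x <;> simp [Be, h, io]
    · show φ (us D (ys D φ X S) (io D x 2)) = _
      rw [un 2 (by decide) (by decide)]
      show φ (D.r (D.r x)) = _
      rw [f2]
      cases hp : pr D φ x <;> simp [Be, h, io]
    · show φ (us D (ys D φ X S) (D.e x)) = _
      rw [u3]
      cases hq : pr D φ (D.e x) <;> simp [Be, h, io, f3]
    · show φ (us D (ys D φ X S) (io D x 4)) = _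
      rw [un 4 (by decide) (by decide)]
      show φ (D.r (D.e x)) = _
      rw [f4]
      cases hq : pr D φ (D.e x) <;> simp [Be, h, io]
    · show φ (us D (ys D φ X S) (io D x 5)) = _
      rw [un 5 (by decide) (by decide)]
      show φ (D.r (D.r (D.e x))) = _
      rw [f5]
      cases hq : pr D φ (D.e x) <;> simp [Be, h, io]
  · have hsm : sm D φ X x = D.e (φ x) := if_neg h
    rw [hsm]
    simp only [h, if_false] at u0 u3
    fin_cases j
    · show φ (us D (ys D φ X S) x) = _
      rw [u0]
      cases hp : pr D φ x <;> cases hb : decide (x ∈ S) <;> simp [Be, h, io, f3, D.e2]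
    · show φ (us D (ys D φ X S) (io D x 1)) = _
      rw [un 1 (by decide) (by decide)]
      show φ (D.r x) = _
      rw [f1]
      cases hp : pr D φ x <;> simp [Be, h, io, D.e2]
    · show φ (us D (ys D φ X S) (io D x 2)) = _
      rw [un 2 (by decide) (by decide)]
      show φ (D.r (D.r x)) = _
      rw [f2]
      cases hp : pr D φ x <;> simp [Be, h, io, D.e2]
    · show φ (us D (ys D φ X S) (D.e x)) = _
      rw [u3]
      cases hp : pr D φ x <;> cases hb : decide (x ∈ S) <;> simp [Be, h, io, f3, D.e2]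
    · show φ (us D (ys D φ X S) (io D x 4)) = _
      rw [un 4 (by decide) (by decide)]
      show φ (D.r (D.e x)) = _
      rw [f4]
      cases hq : pr D φ (D.e x) <;> simp [Be, h, io]
    · show φ (us D (ys D φ X S) (io D x 5)) = _
      rw [un 5 (by decide) (by decide)]
      show φ (D.r (D.r (D.e x))) = _
      rw [f5]
      cases hq : pr D φ (D.e x) <;> simp [Be, h, io]

theorem mem_nx (hs : St D φ X) (S : Finset H) {x : H} (hx : x ∈ X) :
    sm D φ X x ∈ nx D φ X S ↔
      (decide (x ∈ S) == (pr D φ x == pr D φ (D.e x))) = true := by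
  unfold nx
  rw [Finset.mem_image]
  constructor
  · rintro ⟨x', hx', h⟩
    obtain ⟨h1, h2⟩ := Finset.mem_filter.1 hx'
    rwa [← hs.sm_inj h1 hx h]
  · intro h
    exact ⟨x, Finset.mem_filter.2 ⟨hx, h⟩, rfl⟩

theorem nx_subset (hs : St D φ X) (S : Finset H) : nx D φ X S ⊆ X := by
  intro z hz
  obtain ⟨x, hx, rfl⟩ := Finset.mem_image.1 hz
  exact hs.sm_mem (Finset.mem_filter.1 hx).1

/-- The complement of the six half-edges. -/
def Out (D : JD H) (X : Finset H) (h : H) : Prop := ∀ x ∈ X, ∀ j, io D x j ≠ h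

theorem out_r (h : H) (hh : Out D X h) : Out D X (D.r h) := by
  intro x hx j hj
  have h1 : D.six x (D.r h) := (six_iff_io D x _).2 ⟨j, hj⟩
  obtain ⟨i, hi⟩ := (six_iff_io D x _).1 (D.six_r.1 h1)
  exact hh x hx i hi

theorem out_us (h : H) (hh : Out D X h) (S : Finset H) : us D (ys D φ X S) h = h := by
  unfold us
  rw [if_neg]
  rintro (h1 | h1)
  · exact hh h (Finset.mem_filter.1 h1).1 0 rfl
  · exact hh (D.e h) (Finset.mem_filter.1 h1).1 3 (D.e2 h)

theorem Be_surj : ∀ w p q s : Bool, ∀ i, ∃ j, Be w p q s j = i := by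
  decide

theorem sm_surj (hs : St D φ X) {z : H} (hz : z ∈ X) : ∃ x ∈ X, sm D φ X x = z := by
  have h1 : X.image (sm D φ X) ⊆ X := by
    intro v hv
    obtain ⟨u, hu, rfl⟩ := Finset.mem_image.1 hv
    exact hs.sm_mem hu
  have h2 : (X.image (sm D φ X)).card = X.card :=
    Finset.card_image_of_injOn fun u hu v hv huv => hs.sm_inj hu hv huv
  have h3 : X.image (sm D φ X) = X := Finset.eq_of_subset_of_card_le h1 h2.ge
  rw [← h3] at hz
  obtain ⟨u, hu, huz⟩ := Finset.mem_image.1 hz
  exact ⟨u, hu, huz⟩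

theorem out_ph (hs : St D φ X) (h : H) (hh : Out D X h) : Out D X (φ h) := by
  intro z hz i hi
  obtain ⟨x, hx, rfl⟩ := hs.sm_surj hz
  obtain ⟨j, hj⟩ := Be_surj (!decide (φ x ∈ X)) (!pr D φ x) (!pr D φ (D.e x))
    (decide (x ∈ (∅ : Finset H))) i
  have h1 := hs.io_ph ∅ hx j
  rw [hj, hi, ph_apply] at h1
  have h2 := φ.injective h1
  -- the exchange keeps the six half-edges
  have h3 : us D (ys D φ X ∅) h = io D x j := by rw [← h2, us_us]
  rw [out_us h hh ∅] at h3
  exact hh x hx j h3.symm

/-- The new incoming half-arc. -/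
theorem leg_ph (hs : St D φ X) (S : Finset H) {x : H} (hx : x ∈ X)
    (hc : D.r (D.e x) ∈ D.K) : ph D φ (ys D φ X S) (D.e x) = D.e (sm D φ X x) ∧
      D.r (D.e (sm D φ X x)) ∈ D.K := by
  have hq : pr D φ (D.e x) = true := by
    rw [← hs.au.pr_r]
    -- the cyclic order at a vertex of the circle is preserved
    rw [pr_true]
    rcases hs.au.r (D.r (D.e x)) with h | h
    · exact h
    · exfalso
      have h1 : φ (D.r (D.e x)) ∈ D.K := (hs.au.K _).2 hc
      have h2 := D.out _ h1
      rw [h, D.r3, hs.au.e] at h2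
      rw [hs.au.K, D.e2] at h2
      exact (hs.gd.ok x hx).inn.1 (Or.inl h2)
  have h1 : D.r (φ (D.e x)) = φ (D.r (D.e x)) := pr_true.1 hq
  have h2 : φ (D.r (D.e x)) ∈ D.K := (hs.au.K _).2 hc
  have h3 : φ x ∈ X := by
    rcases hs.cl x hx with h | h
    · exact h
    · exfalso
      rw [hs.au.e] at h
      apply (hs.gd.ok _ h).inn.2.1
      left
      rw [h1]
      exact h2
  have h4 : sm D φ X x = φ x := if_pos h3
  have h5 := hs.io_ph S hx 3
  rw [hq, h4] at h5
  rw [h4]
  constructor
  · have h6 : Be (!decide (φ x ∈ X)) (!pr D φ x) (!true) (decide (x ∈ S)) 3 = 3 := by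
      simp [Be, h3]
    rw [h6] at h5
    exact h5
  · rw [hs.au.e, h1]
    exact h2

theorem ui (hs : St D φ X) {S : Finset H} {D₁ D₂ : JD H} (h₁ : IsSt D X S D₁)
    (h₂ : IsSt D X (nx D φ X S) D₂) : UI D₁ D₂ (ph D φ (ys D φ X S)) := by
  refine ⟨?_, ?_, ?_⟩
  · intro h
    rw [h₁.e, h₂.e, ph_apply, ph_apply, us_e, hs.au.e]
  · intro h
    by_cases hh : Out D X h
    · rw [ph_apply, out_us h hh, h₁.oth h hh, h₁.oth _ (out_r h hh), ph_apply, ph_apply,
        out_us _ (out_r h hh), out_us _ (out_r _ (out_r h hh)), h₂.oth _ (hs.out_ph h hh)]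
      exact hs.au.r h
    · unfold Out at hh
      push Not at hh
      obtain ⟨x, hx, j, rfl⟩ := hh
      rw [hs.io_ph S hx, h₂.six _ (hs.sm_mem hx), h₁.six x hx, hs.io_ph S hx, h₁.six x hx,
        hs.io_ph S hx]
      have h3 : decide (sm D φ X x ∈ nx D φ X S) =
          (decide (x ∈ S) == ((!pr D φ x) == (!pr D φ (D.e x)))) := by
        rw [Bool.eq_iff_iff, decide_eq_true_iff, hs.mem_nx S hx]
        cases pr D φ x <;> cases pr D φ (D.e x) <;> simp
      rw [h3]
      rcases table (!decide (φ x ∈ X)) (!pr D φ x) (!pr D φ (D.e x)) (decide (x ∈ S)) with h4 | h4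
      · left
        rw [h4]
      · right
        rw [(h4 j).2]
  · have hK : ∀ h, h ∈ D₂.K ↔ h ∈ D₁.K := fun h => by rw [h₁.K, h₂.K]
    have hKe : D₂.K = D₁.K := Finset.ext hK
    have h1 : D₁.K.image (ph D φ (ys D φ X S)) ⊆ D₁.K := by
      intro v hv
      obtain ⟨u, hu, rfl⟩ := Finset.mem_image.1 hv
      rw [h₁.K]
      rcases (h₁.K u).1 hu with h | ⟨x, hx, hc, rfl⟩
      · left
        have : us D (ys D φ X S) u = u := by
          unfold us
          rw [if_neg]
          rintro (h2 | h2)
          · exact (hs.gd.ok u (Finset.mem_filter.1 h2).1).inn.1 (Or.inl h)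
          · apply (hs.gd.ok _ (Finset.mem_filter.1 h2).1).inn.1
            right
            rw [D.e2]
            exact h
        rw [ph_apply, this, hs.au.K]
        exact h
      · right
        obtain ⟨h3, h4⟩ := hs.leg_ph S hx hc
        exact ⟨_, hs.sm_mem hx, h4, h3⟩
    have h2 : (D₁.K.image (ph D φ (ys D φ X S))).card = D₁.K.card :=
      Finset.card_image_of_injective _ (ph D φ (ys D φ X S)).injective
    have h3 : D₁.K.image (ph D φ (ys D φ X S)) = D₁.K := Finset.eq_of_subset_of_card_le h1 h2.ge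
    intro h
    rw [hKe]
    constructor
    · intro h4
      rw [← h3] at h4
      obtain ⟨u, hu, hu'⟩ := Finset.mem_image.1 h4
      rwa [← (ph D φ (ys D φ X S)).injective hu']
    · intro h4
      exact h1 (Finset.mem_image_of_mem _ h4)

end St

end Pool.Agent.Jac70
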