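import Mathlib
import Pool.Agent.Jac70.Equi

/-!
# The signs of the isomorphisms between the states
-/

set_option autoImplicit false

namespace Pool.Agent.Jac70

variable {H : Type} [DecidableEq H]

/-- The union of the sets of the six half-edges. -/
def zz (D : JD H) (X : Finset H) : Finset H := X.biUnion fun x => Finset.univ.image (io D x)

theorem mem_zz {D : JD H} {X : Finset H} {h : H} : h ∈ zz D X ↔ ∃ x ∈ X, ∃ j, io D x j = h := by
  unfold zz
  rw [Finset.mem_biUnion]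
  constructor
  · rintro ⟨x, hx, h1⟩
    obtain ⟨j, _, hj⟩ := Finset.mem_image.1 h1
    exact ⟨x, hx, j, hj⟩
  · rintro ⟨x, hx, j, hj⟩
    exact ⟨x, hx, Finset.mem_image.2 ⟨j, Finset.mem_univ _, hj⟩⟩

theorem prod_zz {D : JD H} {X : Finset H} (hG : Gd D X) (f : H → ℤ) :
    ∏ h ∈ zz D X, f h = ∏ x ∈ X, ∏ j : Fin 6, f (io D x j) := by
  unfold zz
  rw [Finset.prod_biUnion]
  · refine Finset.prod_congr rfl fun x hx => ?_
    rw [Finset.prod_image]
    intro i _ j _ hij
    exact io_inj (hG.ok x hx) hij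
  · intro x hx x' hx' hne
    show Disjoint (Finset.univ.image (io D x)) (Finset.univ.image (io D x'))
    rw [Finset.disjoint_left]
    intro h h1 h2
    obtain ⟨i, _, hi⟩ := Finset.mem_image.1 h1
    obtain ⟨j, _, hj⟩ := Finset.mem_image.1 h2
    exact hne (hG.dj x hx x' hx' i j (hi.trans hj.symm))

namespace St

variable {D : JD H} {φ : Equiv.Perm H} {X : Finset H}

theorem six_one (hs : St D φ X) {S : Finset H} {D₁ D₂ : JD H} (h₁ : IsSt D X S D₁)
    (h₂ : IsSt D X (nx D φ X S) D₂) {x : H} (hx : x ∈ X) :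
    ∏ j : Fin 6, (if D₂.r (ph D φ (ys D φ X S) (io D x j)) =
      ph D φ (ys D φ X S) (D₁.r (io D x j)) then (1 : ℤ) else -1) = 1 := by
  have hk := hs.gd.ok _ (hs.sm_mem hx)
  have h3 : decide (sm D φ X x ∈ nx D φ X S) =
      (decide (x ∈ S) == ((!pr D φ x) == (!pr D φ (D.e x)))) := by
    rw [Bool.eq_iff_iff, decide_eq_true_iff, hs.mem_nx S hx]
    cases pr D φ x <;> cases pr D φ (D.e x) <;> simp
  have key : ∀ j : Fin 6, (D₂.r (ph D φ (ys D φ X S) (io D x j)) =
      ph D φ (ys D φ X S) (D₁.r (io D x j))) ↔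
      Rf (decide (x ∈ S) == ((!pr D φ x) == (!pr D φ (D.e x))))
        (Be (!decide (φ x ∈ X)) (!pr D φ x) (!pr D φ (D.e x)) (decide (x ∈ S)) j) =
      Be (!decide (φ x ∈ X)) (!pr D φ x) (!pr D φ (D.e x)) (decide (x ∈ S))
        (Rf (decide (x ∈ S)) j) := by
    intro j
    rw [hs.io_ph S hx, h₂.six _ (hs.sm_mem hx), h₁.six x hx, hs.io_ph S hx, h3]
    exact ⟨fun h => io_inj hk h, fun h => by rw [h]⟩
  rcases table (!decide (φ x ∈ X)) (!pr D φ x) (!pr D φ (D.e x)) (decide (x ∈ S)) with h4 | h4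
  · refine Finset.prod_eq_one fun j _ => ?_
    rw [if_pos ((key j).2 (h4 j))]
  · rw [Finset.prod_congr rfl (g := fun _ => (-1 : ℤ))]
    · simp
    · intro j _
      rw [if_neg]
      intro h5
      exact (h4 j).1 ((key j).1 h5)

theorem six_two (hs : St D φ X) (x : H) :
    ∏ j : Fin 6, (if D.r (φ (io D x j)) = φ (D.r (io D x j)) then (1 : ℤ) else -1) =
      if pr D φ x = pr D φ (D.e x) then 1 else -1 := by
  have key : ∀ h, (if D.r (φ h) = φ (D.r h) then (1 : ℤ) else -1) =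
      if pr D φ h = true then 1 else -1 := fun h => by simp only [pr_true]
  simp only [key]
  rw [Fin.prod_univ_six]
  have i0 : io D x 0 = x := rfl
  have i1 : io D x 1 = D.r x := rfl
  have i2 : io D x 2 = D.r (D.r x) := rfl
  have i3 : io D x 3 = D.e x := rfl
  have i4 : io D x 4 = D.r (D.e x) := rfl
  have i5 : io D x 5 = D.r (D.r (D.e x)) := rfl
  rw [i0, i1, i2, i3, i4, i5, hs.au.pr_r, hs.au.pr_r, hs.au.pr_r, hs.au.pr_r, hs.au.pr_r,
    hs.au.pr_r]
  cases pr D φ x <;> cases pr D φ (D.e x) <;> simp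

theorem sg_eq [Fintype H] (hs : St D φ X) {S : Finset H} {D₁ D₂ : JD H} (h₁ : IsSt D X S D₁)
    (h₂ : IsSt D X (nx D φ X S) D₂) : sg D₁ D₂ (ph D φ (ys D φ X S)) =
      sg D D φ * ∏ x ∈ X, if pr D φ x = pr D φ (D.e x) then (1 : ℤ) else -1 := by
  unfold sg
  rw [← Finset.prod_mul_prod_compl (zz D X), ← Finset.prod_mul_prod_compl (zz D X) (fun h =>
    if D.r (φ h) = φ (D.r h) then (1 : ℤ) else -1), prod_zz hs.gd, prod_zz hs.gd]
  rw [Finset.prod_eq_one fun x hx => hs.six_one h₁ h₂ hx,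
    Finset.prod_congr rfl fun x _ => hs.six_two x, one_mul]
  have h3 : (∏ x ∈ X, if pr D φ x = pr D φ (D.e x) then (1 : ℤ) else -1) *
      (∏ x ∈ X, if pr D φ x = pr D φ (D.e x) then (1 : ℤ) else -1) = 1 := by
    rw [← Finset.prod_mul_distrib]
    refine Finset.prod_eq_one fun x _ => ?_
    split_ifs <;> norm_num
  rw [mul_comm (∏ x ∈ X, _) (∏ h ∈ (zz D X)ᶜ, _), mul_assoc, h3, mul_one]
  refine Finset.prod_congr rfl fun h hh => ?_
  have ho : Out D X h := by
    intro x hx j hj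
    exact (Finset.mem_compl.1 hh) (mem_zz.2 ⟨x, hx, j, hj⟩)
  rw [ph_apply, out_us h ho, h₁.oth h ho, ph_apply, out_us _ (out_r h ho),
    h₂.oth _ (hs.out_ph h ho)]

theorem pow_card {S : Finset H} (hS : S ⊆ X) :
    (-1 : ℤ) ^ S.card = ∏ x ∈ X, if x ∈ S then (-1 : ℤ) else 1 := by
  rw [Finset.prod_ite, Finset.prod_const_one, mul_one, Finset.prod_const]
  congr 2
  rw [Finset.filter_mem_eq_inter, Finset.inter_eq_right.2 hS]

theorem sign (hs : St D φ X) {S : Finset H} (hS : S ⊆ X) :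
    (-1 : ℤ) ^ (nx D φ X S).card * ∏ x ∈ X, (if pr D φ x = pr D φ (D.e x) then (1 : ℤ) else -1) =
      (-1 : ℤ) ^ S.card := by
  have h1 : (nx D φ X S).card = (X.filter fun x =>
      (decide (x ∈ S) == (pr D φ x == pr D φ (D.e x))) = true).card := by
    unfold nx
    rw [Finset.card_image_of_injOn]
    intro u hu v hv huv
    exact hs.sm_inj (Finset.mem_filter.1 hu).1 (Finset.mem_filter.1 hv).1 huv
  rw [h1, pow_card (Finset.filter_subset _ X), pow_card hS, ← Finset.prod_mul_distrib]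
  refine Finset.prod_congr rfl fun x hx => ?_
  simp only [Finset.mem_filter]
  by_cases hxS : x ∈ S
  · cases pr D φ x <;> cases pr D φ (D.e x) <;> simp [hx, hxS]
  · cases pr D φ x <;> cases pr D φ (D.e x) <;> simp [hx, hxS]

/-- The terms of the expansion. -/
theorem term [Fintype H] (hs : St D φ X) {S : Finset H} (hS : S ⊆ X) :
    (-1 : ℤ) ^ (nx D φ X S).card • stc D X (nx D φ X S) =
      sg D D φ • ((-1 : ℤ) ^ S.card • stc D X S) := by
  obtain ⟨D₁, h₁⟩ := exists_st X hs.gd S hS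
  obtain ⟨D₂, h₂⟩ := exists_st X hs.gd _ (hs.nx_subset S)
  rw [stc_eq h₁, stc_eq h₂, JD.cl_ui (hs.ui h₁ h₂), hs.sg_eq h₁ h₂, ← hs.sign hS, smul_smul,
    smul_smul]
  congr 1
  ring

end St

end Pool.Agent.Jac70
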