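import Mathlib
import Pool.Agent.Jac70.Sum

/-!
# Orbits of an automorphism on the states
-/

set_option autoImplicit false

namespace Pool.Agent.Jac70

/-- A product over a set with a periodic map is a product over the orbits. -/
theorem orbit_prod {α M : Type} [DecidableEq α] [CommMonoid M] (T : α → α) (N : ℕ) (hN : 0 < N)
    (f : α → M) (n : ℕ) : ∀ s : Finset α, s.card = n → (∀ a ∈ s, T a ∈ s) →
      (∀ a ∈ s, T^[N] a = a) →
      (∀ a ∈ s, ∏ j ∈ Finset.range (Function.minimalPeriod T a), f (T^[j] a) = 1) →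
      ∏ a ∈ s, f a = 1 := by
  induction n using Nat.strong_induction_on with
  | _ n ih =>
    intro s hn hT hp hf
    rcases s.eq_empty_or_nonempty with rfl | ⟨a, ha⟩
    · exact Finset.prod_empty
    · have hT' : ∀ j, T^[j] a ∈ s := by
        intro j
        induction j with
        | zero => exact ha
        | succ j ihj =>
          rw [Function.iterate_succ_apply']
          exact hT _ ihj
      have hl : 0 < Function.minimalPeriod T a :=
        Function.minimalPeriod_pos_of_mem_periodicPts ⟨N, hN, hp a ha⟩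
      let O : Finset α := (Finset.range (Function.minimalPeriod T a)).image fun j => T^[j] a
      have hO : O ⊆ s := by
        intro b hb
        obtain ⟨j, _, rfl⟩ := Finset.mem_image.1 hb
        exact hT' j
      have hOj : ∀ j, T^[j] a ∈ O := by
        intro j
        refine Finset.mem_image.2 ⟨j % Function.minimalPeriod T a, ?_, ?_⟩
        · exact Finset.mem_range.2 (Nat.mod_lt _ hl)
        · exact Function.iterate_mod_minimalPeriod_eq
      have haO : a ∈ O := hOj 0
      rw [← Finset.prod_sdiff hO]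
      have h1 : ∏ b ∈ O, f b = 1 := by
        rw [Finset.prod_image]
        · exact hf a ha
        · intro i hi j hj hij
          exact Function.iterate_injOn_Iio_minimalPeriod (by simpa using hi) (by simpa using hj) hij
      rw [h1, mul_one]
      refine ih _ ?_ (s \ O) rfl ?_ ?_ ?_
      · rw [← hn]
        apply Finset.card_lt_card
        refine ⟨Finset.sdiff_subset, fun h => ?_⟩
        exact (Finset.mem_sdiff.1 (h ha)).2 haO
      · intro b hb
        obtain ⟨hb1, hb2⟩ := Finset.mem_sdiff.1 hb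
        refine Finset.mem_sdiff.2 ⟨hT b hb1, fun hb3 => hb2 ?_⟩
        obtain ⟨j, _, hj⟩ := Finset.mem_image.1 hb3
        have h2 : b = T^[N - 1 + j] a := by
          rw [Function.iterate_add_apply]
          rw [hj, ← Function.iterate_succ_apply, Nat.succ_eq_add_one, Nat.sub_add_cancel hN,
            hp b hb1]
        rw [h2]
        exact hOj _
      · exact fun b hb => hp b (Finset.mem_sdiff.1 hb).1
      · exact fun b hb => hf b (Finset.mem_sdiff.1 hb).1

/-- A sum whose terms change the sign along the orbits of a map of order a power of two. -/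
theorem orbit_sum {α M : Type} [DecidableEq α] [AddCommGroup M] (T : α → α) (k : ℕ) (s : Finset α)
    (f : α → M) (hT : ∀ a ∈ s, T a ∈ s) (hp : ∀ a ∈ s, T^[2 ^ k] a = a)
    (hf : ∀ a ∈ s, f (T a) = - f a) (h0 : ∀ a ∈ s, T a = a → f a = 0) : ∑ a ∈ s, f a = 0 := by
  have hT' : ∀ a ∈ s, ∀ j, T^[j] a ∈ s := by
    intro a ha j
    induction j with
    | zero => exact ha
    | succ j ihj =>
      rw [Function.iterate_succ_apply']
      exact hT _ ihj
  have hj : ∀ a ∈ s, ∀ j, f (T^[j] a) = (-1 : ℤ) ^ j • f a := by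
    intro a ha j
    induction j with
    | zero => simp
    | succ j ihj =>
      rw [Function.iterate_succ_apply', hf _ (hT' a ha j), ihj, pow_succ, mul_neg_one, neg_smul]
  have h1 := orbit_prod T (2 ^ k) (by positivity) (fun a => Multiplicative.ofAdd (f a)) _ s rfl
    hT hp (by
      intro a ha
      rw [← ofAdd_sum, ofAdd_eq_one, Finset.sum_congr rfl fun j _ => hj a ha j,
        ← Finset.sum_smul]
      have hdvd : Function.minimalPeriod T a ∣ 2 ^ k :=
        Function.IsPeriodicPt.minimalPeriod_dvd (hp a ha)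
      obtain ⟨i, hi, hi2⟩ := (Nat.dvd_prime_pow Nat.prime_two).1 hdvd
      rw [hi2]
      rcases Nat.eq_zero_or_pos i with rfl | hi0
      · rw [pow_zero] at hi2
        have h3 : T a = a := by
          have := Function.iterate_minimalPeriod (f := T) (x := a)
          rwa [hi2] at this
        rw [h0 a ha h3, smul_zero]
      · have h4 : ∑ j ∈ Finset.range (2 ^ i), (-1 : ℤ) ^ j = 0 := by
          rw [neg_one_geom_sum, if_pos]
          exact (Nat.even_pow.2 ⟨even_two, hi0.ne'⟩)
        rw [h4, zero_smul])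
  rw [← ofAdd_sum, ofAdd_eq_one] at h1
  exact h1

variable {H : Type} [DecidableEq H]

namespace Aut

variable {D : JD H} {φ ψ : Equiv.Perm H}

theorem mul (hψ : Aut D ψ) (hφ : Aut D φ) : Aut D (ψ * φ) := by
  refine ⟨?_, ?_, ?_⟩
  · intro h
    rw [Equiv.Perm.mul_apply, Equiv.Perm.mul_apply, hψ.e, hφ.e]
  · intro h
    rw [Equiv.Perm.mul_apply, Equiv.Perm.mul_apply, Equiv.Perm.mul_apply]
    have h1 := hφ.fr h
    have h2 := hφ.frr h
    cases hp : pr D φ h
    · rw [hp] at h1 h2
      simp only [Bool.false_eq_true, if_false] at h1 h2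
      rw [h1, h2]
      exact (hψ.r _).symm
    · rw [hp] at h1 h2
      simp only [if_true] at h1 h2
      rw [h1, h2]
      exact hψ.r _
  · intro h
    rw [Equiv.Perm.mul_apply, hψ.K, hφ.K]

theorem one : Aut D 1 := ⟨fun _ => rfl, fun _ => Or.inl rfl, fun _ => Iff.rfl⟩

theorem pow (hφ : Aut D φ) : ∀ n : ℕ, Aut D (φ ^ n)
  | 0 => by
    rw [pow_zero]
    exact one
  | n + 1 => by
    rw [pow_succ']
    exact hφ.mul (hφ.pow n)

theorem pr_mul (hψ : Aut D ψ) (hφ : Aut D φ) (h : H) :
    pr D (ψ * φ) h = (pr D φ h == pr D ψ (φ h)) := by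
  rw [Bool.eq_iff_iff, pr_true, Equiv.Perm.mul_apply, Equiv.Perm.mul_apply]
  have h1 := hφ.fr h
  have h2 := hψ.frr (φ h)
  cases hp : pr D φ h
  · rw [hp] at h1
    simp only [Bool.false_eq_true, if_false] at h1
    rw [h1, h2]
    cases hq : pr D ψ (φ h)
    · simp
    · simp only [if_true]
      constructor
      · intro h3
        exact absurd h3.symm (D.rr_ne_r _)
      · intro h3
        simp at h3
  · rw [hp] at h1
    simp only [if_true] at h1
    rw [h1, ← pr_true]
    simp

theorem pr_one (h : H) : pr D 1 h = true := pr_true.2 rfl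

theorem pr_succ (hφ : Aut D φ) (n : ℕ) (h : H) :
    pr D (φ ^ (n + 1)) h = (pr D (φ ^ n) h == pr D φ ((φ ^ n) h)) := by
  rw [pow_succ', hφ.pr_mul (hφ.pow n)]

end Aut

namespace St

variable {D : JD H} {φ : Equiv.Perm H} {X : Finset H}

theorem it_mem (hs : St D φ X) {x : H} (hx : x ∈ X) (n : ℕ) : (sm D φ X)^[n] x ∈ X := by
  induction n with
  | zero => exact hx
  | succ n ih =>
    rw [Function.iterate_succ_apply']
    exact hs.sm_mem ih

theorem it_eq (hs : St D φ X) (x : H) (n : ℕ) :
    (sm D φ X)^[n] x = (φ ^ n) x ∨ (sm D φ X)^[n] x = D.e ((φ ^ n) x) := by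
  induction n with
  | zero => exact Or.inl rfl
  | succ n ih =>
    rw [Function.iterate_succ_apply', pow_succ', Equiv.Perm.mul_apply]
    have h1 : ∀ z, sm D φ X z = φ z ∨ sm D φ X z = D.e (φ z) := by
      intro z
      unfold sm
      split_ifs
      · exact Or.inl rfl
      · exact Or.inr rfl
    rcases ih with ih | ih
    · rw [ih]
      exact h1 _
    · rw [ih]
      rcases h1 (D.e ((φ ^ n) x)) with h2 | h2
      · right
        rw [h2, hs.au.e]
      · left
        rw [h2, ← hs.au.e, D.e2]

theorem nx_it (hs : St D φ X) (S : Finset H) (n : ℕ) : ∀ x ∈ X,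
    ((sm D φ X)^[n] x ∈ (nx D φ X)^[n] S ↔
      (decide (x ∈ S) == (pr D (φ ^ n) x == pr D (φ ^ n) (D.e x))) = true) := by
  induction n with
  | zero =>
    intro x _
    rw [pow_zero, Aut.pr_one, Aut.pr_one]
    simp
  | succ n ih =>
    intro x hx
    rw [Function.iterate_succ_apply', Function.iterate_succ_apply', hs.mem_nx _ (hs.it_mem hx n)]
    have h1 : decide ((sm D φ X)^[n] x ∈ (nx D φ X)^[n] S) =
        (decide (x ∈ S) == (pr D (φ ^ n) x == pr D (φ ^ n) (D.e x))) := by
      rw [Bool.eq_iff_iff, decide_eq_true_iff]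
      exact ih x hx
    have h2 : (pr D φ ((sm D φ X)^[n] x) == pr D φ (D.e ((sm D φ X)^[n] x))) =
        (pr D φ ((φ ^ n) x) == pr D φ ((φ ^ n) (D.e x))) := by
      rw [← (hs.au.pow n).e]
      rcases hs.it_eq x n with h | h
      · rw [h]
      · rw [h, D.e2]
        exact Bool.beq_comm
    rw [h1, h2, hs.au.pr_succ, hs.au.pr_succ]
    cases decide (x ∈ S) <;> cases pr D (φ ^ n) x <;> cases pr D (φ ^ n) (D.e x) <;>
      cases pr D φ ((φ ^ n) x) <;> cases pr D φ ((φ ^ n) (D.e x)) <;> simp

theorem nx_it_subset (hs : St D φ X) {S : Finset H} (hS : S ⊆ X) (n : ℕ) :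
    (nx D φ X)^[n] S ⊆ X := by
  induction n with
  | zero => exact hS
  | succ n ih =>
    rw [Function.iterate_succ_apply']
    exact hs.nx_subset _

theorem nx_period (hs : St D φ X) {N : ℕ} (hN : φ ^ N = 1) {S : Finset H} (hS : S ⊆ X) :
    (nx D φ X)^[N] S = S := by
  have h1 : ∀ x ∈ X, (sm D φ X)^[N] x = x := by
    intro x hx
    rcases hs.it_eq x N with h | h
    · rw [h, hN]
      rfl
    · exfalso
      rw [hN] at h
      exact hs.notMem hx (h ▸ hs.it_mem hx N)
  ext z
  constructor
  · intro hz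
    have hzX := hs.nx_it_subset hS N hz
    have h2 := hs.nx_it S N z hzX
    rw [h1 z hzX, hN, Aut.pr_one, Aut.pr_one] at h2
    have h3 := h2.1 hz
    simpa using h3
  · intro hz
    have hzX := hS hz
    have h2 := hs.nx_it S N z hzX
    rw [h1 z hzX, hN, Aut.pr_one, Aut.pr_one] at h2
    apply h2.2
    simpa using hz

/-- A criterion for the absence of fixed states. -/
theorem nx_ne (hs : St D φ X) {S : Finset H} {x : H} (hx : x ∈ X) {n : ℕ}
    (h1 : (φ ^ n) x = x ∨ (φ ^ n) x = D.e x)
    (h2 : pr D (φ ^ n) x ≠ pr D (φ ^ n) (D.e x)) : nx D φ X S ≠ S := by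
  intro hS
  have h3 : ∀ m, (nx D φ X)^[m] S = S := fun m => Function.iterate_fixed hS m
  have h4 := hs.nx_it S n x hx
  rw [h3 n] at h4
  have h5 : (sm D φ X)^[n] x = x := by
    rcases hs.it_eq x n with h | h
    · rcases h1 with h1 | h1
      · rw [h, h1]
      · exfalso
        rw [h1] at h
        exact hs.notMem hx (h ▸ hs.it_mem hx n)
    · rcases h1 with h1 | h1
      · exfalso
        rw [h1] at h
        exact hs.notMem hx (h ▸ hs.it_mem hx n)
      · rw [h, h1, D.e2]
  rw [h5] at h4
  cases hp : pr D (φ ^ n) x <;> cases hq : pr D (φ ^ n) (D.e x) <;> rw [hp, hq] at h2 h4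
  · exact h2 rfl
  · by_cases hxS : x ∈ S <;> simp [hxS] at h4
  · by_cases hxS : x ∈ S <;> simp [hxS] at h4
  · exact h2 rfl

/-- If there is a sign, then only the fixed states matter. -/
theorem cl_zero [Fintype H] (hs : St D φ X) {k : ℕ} (hk : φ ^ (2 ^ k) = 1)
    (hsg : sg D D φ = -1) (h0 : ∀ S ⊆ X, nx D φ X S = S → stc D X S = 0) : D.cl = 0 := by
  rw [expand X hs.gd]
  refine orbit_sum (nx D φ X) k _ (fun S => (-1 : ℤ) ^ S.card • stc D X S) ?_ ?_ ?_ ?_
  · intro S _
    exact Finset.mem_powerset.2 (hs.nx_subset S)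
  · intro S hS
    exact hs.nx_period hk (Finset.mem_powerset.1 hS)
  · intro S hS
    rw [hs.term (Finset.mem_powerset.1 hS), hsg, neg_one_smul]
  · intro S hS h1
    rw [h0 S (Finset.mem_powerset.1 hS) h1, smul_zero]

end St

end Pool.Agent.Jac70
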