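import Mathlib
import Pool.Agent.Jac70.Ihx
import Pool.Agent.Jac70.Orb

/-!
# A diagram with a part attached by one edge is zero
-/

set_option autoImplicit false

namespace Pool.Agent.Jac70

variable {H : Type} [DecidableEq H]

open Classical in
/-- The class of the diagram with the moved vertex. -/
noncomputable def mc (D : JD H) (v h : H) : A H := if m : Mv D v h then (JD.mo m).cl else 0

theorem mc_eq {D : JD H} {v h : H} (m : Mv D v h) : mc D v h = (JD.mo m).cl := by
  unfold mc
  rw [dif_pos m]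

theorem minPeriod_r (D : JD H) (h : H) : Function.minimalPeriod (D.r : H → H) h = 3 := by
  have : Fact (Nat.Prime 3) := ⟨by norm_num⟩
  exact Function.minimalPeriod_eq_prime (D.r3 h) (D.r1 h)

/-- The sliding lemma. -/
theorem slide [Fintype H] {D : JD H} {v : H} {V : Finset H} (hr : ∀ h ∈ V, D.r h ∈ V)
    (hm : ∀ h ∈ V, Mv D v h) (hi : ∀ h ∈ V, D.inner h) :
    ∑ h ∈ V.filter (fun h => ¬ D.e0 v h ∈ V), mc D v h = 0 := by
  have h1 : ∑ h ∈ V, mc D v h = 0 := by
    have h2 := orbit_prod (D.r : H → H) 3 (by norm_num)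
      (fun h => Multiplicative.ofAdd (mc D v h)) _ V rfl hr (fun h _ => D.r3 h) (by
        intro h hh
        rw [minPeriod_r, ← ofAdd_sum, ofAdd_eq_one, Finset.sum_range_succ, Finset.sum_range_succ,
          Finset.sum_range_succ, Finset.sum_range_zero, zero_add]
        show mc D v h + mc D v (D.r h) + mc D v (D.r (D.r h)) = 0
        have ma := hm _ (hr h hh)
        have mb := hm _ (hr _ (hr h hh))
        rw [mc_eq (hm h hh), mc_eq ma, mc_eq mb]
        exact JD.cl_around (hm h hh) ma mb (hi h hh))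
    rw [← ofAdd_sum, ofAdd_eq_one] at h2
    exact h2
  have h3 : ∑ h ∈ V.filter (fun h => D.e0 v h ∈ V), mc D v h = 0 := by
    refine Finset.sum_involution (fun h _ => D.e0 v h) ?_ ?_ ?_ ?_
    · intro h hh
      obtain ⟨h4, h5⟩ := Finset.mem_filter.1 hh
      rw [mc_eq (hm h h4), mc_eq (hm _ h5), JD.cl_other (hm h h4) (hm _ h5)]
      exact add_neg_cancel _
    · intro h hh _
      obtain ⟨h4, h5⟩ := Finset.mem_filter.1 hh
      exact (JD.e0_ne (hm h h4).nl (hm h h4).h1 (hm h h4).h2).2.2
    · intro h hh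
      obtain ⟨h4, h5⟩ := Finset.mem_filter.1 hh
      refine Finset.mem_filter.2 ⟨h5, ?_⟩
      rw [JD.e0_e0 (hm h h4).h1 (hm h h4).h2]
      exact h4
    · intro h hh
      obtain ⟨h4, h5⟩ := Finset.mem_filter.1 hh
      exact JD.e0_e0 (hm h h4).h1 (hm h h4).h2
  rw [← Finset.sum_filter_add_sum_filter_not V (fun h => D.e0 v h ∈ V), h3, zero_add] at h1
  exact h1

/-- The vertices of `V` are not on the circle and only the edge of `z` leaves `V`. -/
structure Leg (D : JD H) (V : Finset H) (z : H) : Prop where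
  cl : ∀ h ∈ V, D.r h ∈ V
  nK : ∀ h ∈ V, h ∉ D.K
  zV : z ∈ V
  ez : D.e z ∉ V
  oth : ∀ h ∈ V, h ≠ z → D.e h ∈ V

namespace Leg

variable {D : JD H} {V : Finset H} {z : H}

theorem inner (l : Leg D V z) {h : H} (hh : h ∈ V) : D.inner h := by
  by_contra hi
  obtain ⟨u, hu, h1⟩ := D.not_inner_iff.1 hi
  have h2 : u ∈ V := by
    rcases h1 with h1 | h1 | h1
    · rw [← h1]
      exact hh
    · have := l.cl _ (l.cl _ hh)
      rw [h1, D.r3] at this
      exact this
    · have := l.cl _ hh
      rw [h1, D.r3] at this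
      exact this
  exact l.nK u h2 hu

theorem not_mem_r (l : Leg D V z) {t : H} (ht : t ∉ V) : D.r t ∉ V := by
  intro h
  apply ht
  have := l.cl _ (l.cl _ h)
  rwa [D.r3] at this

theorem ne_K (l : Leg D V z) : ∃ u ∈ D.K, u ∉ V := by
  obtain ⟨u, hu⟩ := D.ne z
  exact ⟨u, hu, fun h => l.nK u h hu⟩

/-- The other end of the edge of `z` is not on the circle. -/
theorem nl (l : Leg D V z) (hi : D.inner (D.e z)) : JD.NL D (D.e z) := by
  refine ⟨hi, ?_, ?_, ?_⟩
  · rw [D.e2]
    intro h
    exact l.not_mem_r l.ez (h ▸ l.zV)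
  · rw [D.e2]
    intro h
    exact l.not_mem_r (l.not_mem_r l.ez) (h ▸ l.zV)
  · intro h
    -- the union of `V` and the vertex would be everything
    have h1 := D.conn {t | t ∈ V ∨ t = D.e z ∨ t = D.r (D.e z) ∨ t = D.r (D.r (D.e z))}
      ⟨z, Or.inl l.zV⟩ (by
        rintro t (ht | rfl | rfl | rfl)
        · by_cases htz : t = z
          · rw [htz]
            exact Or.inr (Or.inl rfl)
          · exact Or.inl (l.oth t ht htz)
        · rw [D.e2]
          exact Or.inl l.zV
        · rw [h]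
          exact Or.inr (Or.inr (Or.inr rfl))
        · rw [← h, D.e2]
          exact Or.inr (Or.inr (Or.inl rfl))) (by
        rintro t (ht | rfl | rfl | rfl)
        · exact Or.inl (l.cl t ht)
        · exact Or.inr (Or.inr (Or.inl rfl))
        · exact Or.inr (Or.inr (Or.inr rfl))
        · rw [D.r3]
          exact Or.inr (Or.inl rfl))
    obtain ⟨u, hu, huV⟩ := l.ne_K
    have h2 : u ∈ {t | t ∈ V ∨ t = D.e z ∨ t = D.r (D.e z) ∨ t = D.r (D.r (D.e z))} := by
      rw [h1]
      exact Set.mem_univ u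
    obtain ⟨k0, k1, k2⟩ := JD.not_mem_of_inner hi
    rcases h2 with h2 | h2 | h2 | h2
    · exact huV h2
    · exact k0 (h2 ▸ hu)
    · exact k1 (h2 ▸ hu)
    · exact k2 (h2 ▸ hu)

theorem e_rv (l : Leg D V z) : D.e (D.r (D.e z)) ∉ V := by
  intro h
  by_cases h1 : D.e (D.r (D.e z)) = z
  · have h2 := congrArg D.e h1
    rw [D.e2] at h2
    exact D.r1 _ h2
  · have h2 := l.oth _ h h1
    rw [D.e2] at h2
    exact l.not_mem_r l.ez h2

theorem mv (l : Leg D V z) (hi : D.inner (D.e z)) {h : H} (hh : h ∈ V) : Mv D (D.e z) h := by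
  have n := l.nl hi
  have hne1 : h ≠ D.e z := fun h1 => l.ez (h1 ▸ hh)
  have hne2 : h ≠ D.r (D.e z) := fun h1 => l.not_mem_r l.ez (h1 ▸ hh)
  have e0z : D.e0 (D.e z) z = D.e (D.r (D.e z)) := by
    unfold JD.e0
    rw [D.e2, if_pos rfl]
  have hee := JD.e0_e0 (D := D) hne1 hne2
  have aux : ∀ S : Set H, D.e z ∈ S → (∀ t ∈ S, D.fh (D.e z) h t ∈ S) →
      (∀ t ∈ S, D.r t ∈ S) → S = Set.univ := by
    intro S hv hf hr
    have h1 : h ∈ S := by
      have := hf _ hv
      rwa [JD.fh_v] at this
    have h2 : D.e0 (D.e z) h ∈ S := by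
      have := hf _ (hr _ hv)
      rwa [JD.fh_rv] at this
    by_cases hz : z ∈ S
    · have h3 : D.e (D.r (D.e z)) ∈ S := by
        by_cases h4 : z = h
        · rw [← h4, e0z] at h2
          exact h2
        by_cases h5 : z = D.e0 (D.e z) h
        · have h6 : D.e (D.r (D.e z)) = h := by
            have h7 := congrArg (D.e0 (D.e z)) h5
            rw [hee, e0z] at h7
            exact h7
          rw [h6]
          exact h1
        have h6 := hf _ hz
        rw [JD.fh_o (fun h7 => D.e1 z h7.symm) (fun h7 => l.not_mem_r l.ez (h7 ▸ l.zV)) h4 h5,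
          e0z] at h6
        exact h6
      refine D.conn S ⟨_, hv⟩ ?_ hr
      intro t ht
      by_cases t1 : t = D.e z
      · rw [t1, D.e2]
        exact hz
      by_cases t2 : t = D.r (D.e z)
      · rw [t2]
        exact h3
      by_cases t3 : t = z
      · rw [t3]
        exact hv
      by_cases t4 : t = D.e (D.r (D.e z))
      · rw [t4, D.e2]
        exact hr _ hv
      have h7 : D.e0 (D.e z) t = D.e t := by
        unfold JD.e0
        rw [D.e2, if_neg t3, if_neg t4]
      rw [← h7]
      by_cases t5 : t = h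
      · rw [t5]
        exact h2
      by_cases t6 : t = D.e0 (D.e z) h
      · rw [t6, hee]
        exact h1
      have h8 := hf t ht
      rwa [JD.fh_o t1 t2 t5 t6] at h8
    · exfalso
      have h3 := D.conn {t | t ∈ S ∧ t ∈ V} ⟨h, h1, hh⟩ (by
        rintro t ⟨ht, htV⟩
        have t3 : t ≠ z := fun h4 => hz (h4 ▸ ht)
        have t4 : t ≠ D.e (D.r (D.e z)) := fun h4 => l.e_rv (h4 ▸ htV)
        have t1 : t ≠ D.e z := fun h4 => l.ez (h4 ▸ htV)
        have t2 : t ≠ D.r (D.e z) := fun h4 => l.not_mem_r l.ez (h4 ▸ htV)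
        refine ⟨?_, l.oth t htV t3⟩
        have h7 : D.e0 (D.e z) t = D.e t := by
          unfold JD.e0
          rw [D.e2, if_neg t3, if_neg t4]
        rw [← h7]
        by_cases t5 : t = h
        · rw [t5]
          exact h2
        by_cases t6 : t = D.e0 (D.e z) h
        · rw [t6, hee]
          exact h1
        have h8 := hf t ht
        rwa [JD.fh_o t1 t2 t5 t6] at h8) (by
        rintro t ⟨ht, htV⟩
        exact ⟨hr t ht, l.cl t htV⟩)
      have h4 : D.e z ∈ {t | t ∈ S ∧ t ∈ V} := by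
        rw [h3]
        exact Set.mem_univ _
      exact l.ez h4.2
  refine ⟨n, hne1, hne2, (l.inner hh).1, ?_⟩
  intro S hS hf hr
  by_cases hv : D.e z ∈ S
  · exact aux S hv hf hr
  · exfalso
    have h1 := aux Sᶜ hv (by
      intro t ht ht2
      have := hf _ ht2
      rw [JD.fh_fh n hne1 hne2] at this
      exact ht this) (by
      intro t ht ht2
      have := hr _ (hr _ ht2)
      rw [D.r3] at this
      exact ht this)
    obtain ⟨t, ht⟩ := hS
    have h2 : t ∈ Sᶜ := by
      rw [h1]
      exact Set.mem_univ t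
    exact h2 ht

/-- A part attached by one edge to a vertex outside the circle. -/
theorem zero_inner [Fintype H] (l : Leg D V z) (hi : D.inner (D.e z)) : D.cl = 0 := by
  have h1 := slide (v := D.e z) l.cl (fun h hh => l.mv hi hh) (fun h hh => l.inner hh)
  have h2 : V.filter (fun h => ¬ D.e0 (D.e z) h ∈ V) = {z} := by
    ext h
    rw [Finset.mem_filter, Finset.mem_singleton]
    constructor
    · rintro ⟨h3, h4⟩
      by_contra h5
      apply h4
      have h6 : D.e0 (D.e z) h = D.e h := by
        unfold JD.e0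
        rw [D.e2, if_neg h5,
          if_neg (fun h7 : h = D.e (D.r (D.e z)) => l.e_rv (h7 ▸ h3))]
      rw [h6]
      exact l.oth h h3 h5
    · rintro rfl
      refine ⟨l.zV, ?_⟩
      unfold JD.e0
      rw [D.e2, if_pos rfl]
      exact l.e_rv
  rw [h2, Finset.sum_singleton] at h1
  have m := l.mv hi l.zV
  rw [mc_eq m] at h1
  have m' : Mv D (D.e z) (D.e (D.e z)) := by rwa [D.e2]
  have h3 : JD.mo m = JD.mo m' := by
    have key : ∀ (w : H) (mw : Mv D (D.e z) w), w = z → JD.mo m = JD.mo mw := by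
      rintro w mw rfl
      rfl
    exact key _ m' (D.e2 z)
  rw [h3, JD.mo_self m'] at h1
  exact h1

end Leg

end Pool.Agent.Jac70
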