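import Mathlib
import Pool.Agent.Jac70.Brid

/-!
# A diagram with a part attached by one edge is zero, second part
-/

set_option autoImplicit false

namespace Pool.Agent.Jac70

variable {H : Type} [DecidableEq H]

/-- A loop next to the circle. -/
theorem tadpole {D : JD H} {z : H} (k : Ok D z) (hl : D.e (D.r z) = D.r (D.r z)) :
    D.cl = 0 := by
  have t := D.dst k
  have gx : ∀ w, w ≠ D.r z → w ≠ D.r (D.r z) → Equiv.swap (D.r z) (D.r (D.r z)) w = w :=
    fun w h1 h2 => Equiv.swap_apply_of_ne_of_ne h1 h2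
  have ga : Equiv.swap (D.r z) (D.r (D.r z)) (D.r z) = D.r (D.r z) := Equiv.swap_apply_left _ _
  have gb : Equiv.swap (D.r z) (D.r (D.r z)) (D.r (D.r z)) = D.r z := Equiv.swap_apply_right _ _
  have hl2 : D.e (D.r (D.r z)) = D.r z := by rw [← hl, D.e2]
  obtain ⟨f1, f6, f3, f4, f5, f2, f7, f8, f9⟩ := JD.mx_spec k
  have h : Iso (D.mv z k) (D.mx z k) := by
    refine ⟨Equiv.swap (D.r z) (D.r (D.r z)), ?_, ?_, ?_⟩
    · intro w
      rw [f9, JD.mv_e]
      by_cases h1 : w = D.r z
      · rw [h1, ga, hl, hl2, gb]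
      by_cases h2 : w = D.r (D.r z)
      · rw [h2, gb, hl, hl2, ga]
      rw [gx w h1 h2, gx]
      · intro h3
        apply h2
        rw [← hl, ← h3, D.e2]
      · intro h3
        apply h1
        rw [← hl2, ← h3, D.e2]
    · intro w
      rw [JD.mv_r]
      by_cases hs : D.six z w
      · rcases hs with (rfl | rfl | rfl) | (rfl | rfl | rfl)
        · rw [gx _ t.xa t.xb, f1, JD.hf_x k, gb]
        · rw [ga, f2, JD.hf_a k, gx _ t.ya t.yb]
        · rw [gb, f6, JD.hf_b k, gx _ t.ca t.cb]
        · rw [gx _ t.ya t.yb, f4, JD.hf_y k, gx _ t.da t.db]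
        · rw [gx _ t.ca t.cb, f3, JD.hf_c k, gx _ t.xa t.xb]
        · rw [gx _ t.da t.db, f5, JD.hf_d k, ga]
      · have h1 : ¬ D.six z (D.r w) := fun h' => hs (D.six_r.1 h')
        rw [gx w (fun h2 => hs (Or.inl (Or.inr (Or.inl h2))))
          (fun h2 => hs (Or.inl (Or.inr (Or.inr h2)))), f7 w hs, JD.hf_o k hs,
          gx _ (fun h2 => h1 (Or.inl (Or.inr (Or.inl h2))))
          (fun h2 => h1 (Or.inl (Or.inr (Or.inr h2))))]
    · intro w
      rw [f8, JD.mv_K]
      by_cases h1 : w = D.r z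
      · rw [h1, ga]
        exact ⟨fun h => absurd h (JD.notK_b k).1, fun h => absurd h (JD.notK_a k).1⟩
      by_cases h2 : w = D.r (D.r z)
      · rw [h2, gb]
        exact ⟨fun h => absurd h (JD.notK_a k).1, fun h => absurd h (JD.notK_b k).1⟩
      rw [gx w h1 h2]
  rw [JD.rel_mv k, JD.cl_iso h, sub_self]

namespace Leg

variable {D : JD H} {V : Finset H} {z : H}

theorem circle (l : Leg D V z) (hi : ¬ D.inner (D.e z)) :
    D.r (D.e z) ∈ D.K ∧ ¬ D.onC (D.e z) := by
  have hz := l.inner l.zV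
  obtain ⟨u, hu, h1⟩ := D.not_inner_iff.1 hi
  rcases h1 with h1 | h1 | h1
  · exact absurd (Or.inr (h1 ▸ hu)) hz.1
  · exfalso
    have h2 := D.out u hu
    rw [← h1, D.e2] at h2
    exact hz.1 (Or.inl h2)
  · refine ⟨by rw [h1, D.r3]; exact hu, ?_⟩
    rw [h1]
    rintro (h2 | h2)
    · exact (D.leg u hu).1 h2
    · exact (D.leg u hu).2 h2

/-- A part attached by one edge to the circle. -/
theorem zero_circle [Fintype H] (l : Leg D V z) (hi : ¬ D.inner (D.e z)) : D.cl = 0 := by
  have hz := l.inner l.zV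
  have aV : D.r z ∈ V := l.cl _ l.zV
  have bV : D.r (D.r z) ∈ V := l.cl _ aV
  have k : Ok D z := ⟨hz, fun h => l.ez (h ▸ aV), fun h => l.ez (h ▸ bV)⟩
  by_cases hl : D.e (D.r z) = D.r (D.r z)
  · exact tadpole k hl
  by_contra hD
  -- no part is attached by one edge to a vertex outside the circle
  have hno : ∀ (W : Finset H) (w : H), Leg D W w → ¬ D.inner (D.e w) := fun W w lw hw =>
    hD (lw.zero_inner hw)
  have n : JD.NL D z := ⟨hz, k.ya, k.yb, hl⟩
  obtain ⟨hc, hy⟩ := l.circle hi
  obtain ⟨V₂, hV₂⟩ : ∃ V₂, V₂ = V.filter fun t => ¬ D.vt z t := ⟨_, rfl⟩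
  have mem : ∀ t, t ∈ V₂ ↔ t ∈ V ∧ t ≠ z ∧ t ≠ D.r z ∧ t ≠ D.r (D.r z) := by
    intro t
    rw [hV₂, Finset.mem_filter]
    unfold JD.vt
    push Not
    rfl
  have h1V : D.e (D.r z) ∈ V₂ := by
    refine (mem _).2 ⟨l.oth _ aV (D.r1 z), ?_, D.e1 _, hl⟩
    intro h
    apply k.ya
    rw [← h, D.e2, h]
  have h2V : D.e (D.r (D.r z)) ∈ V₂ := by
    refine (mem _).2 ⟨l.oth _ bV (D.r2 z), ?_, ?_, D.e1 _⟩
    · intro h
      apply k.yb
      rw [← h, D.e2, h]
    · intro h
      apply hl
      rw [← h, D.e2, h]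
  have r2 : ∀ h ∈ V₂, D.r h ∈ V₂ := by
    intro h hh
    obtain ⟨h1, h2, h3, h4⟩ := (mem h).1 hh
    refine (mem _).2 ⟨l.cl h h1, ?_, fun h5 => h2 (D.r_inj h5), fun h5 => h3 (D.r_inj h5)⟩
    intro h5
    exact h4 (D.r_inj (h5.trans (D.r3 z).symm))
  have e2 : ∀ h ∈ V₂, h ≠ D.e (D.r z) → h ≠ D.e (D.r (D.r z)) → D.e h ∈ V₂ := by
    intro h hh h5 h6
    obtain ⟨h1, h2, h3, h4⟩ := (mem h).1 hh
    refine (mem _).2 ⟨l.oth h h1 h2, ?_, ?_, ?_⟩
    · intro h7
      apply l.ez
      rw [← h7, D.e2]
      exact h1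
    · intro h7
      apply h5
      rw [← h7, D.e2]
    · intro h7
      apply h6
      rw [← h7, D.e2]
  have e0o : ∀ t ∈ V₂, t ≠ D.e (D.r z) → D.e0 z t = D.e t := by
    intro t ht h1
    unfold JD.e0
    rw [if_neg, if_neg h1]
    rintro rfl
    exact l.ez ((mem _).1 ht).1
  -- the vertex of `z` may be moved to all edges of the rest
  have hm : ∀ h ∈ V₂, Mv D z h := by
    intro h hh
    obtain ⟨hV, hne1, hne2, hne3⟩ := (mem h).1 hh
    have hee := JD.e0_e0 (D := D) hne1 hne2
    have e0y : D.e0 z (D.e z) = D.e (D.r z) := if_pos rfl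
    have e0a : D.e0 z (D.e (D.r z)) = D.e z := by
      unfold JD.e0
      rw [if_neg, if_pos rfl]
      intro h5
      exact D.r1 z (D.e_inj h5)
    have aux : ∀ S : Set H, z ∈ S → (∀ t ∈ S, D.fh z h t ∈ S) →
        (∀ t ∈ S, D.r t ∈ S) → S = Set.univ := by
      intro S hv hf hr
      have h1 : h ∈ S := by
        have := hf _ hv
        rwa [JD.fh_v] at this
      have h2 : D.e0 z h ∈ S := by
        have := hf _ (hr _ hv)
        rwa [JD.fh_rv] at this
      have hstep : ∀ t ∈ S, t ≠ z → t ≠ D.r z → D.e0 z t ∈ S := by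
        intro t ht t1 t2
        by_cases t5 : t = h
        · rw [t5]
          exact h2
        by_cases t6 : t = D.e0 z h
        · rw [t6, hee]
          exact h1
        have h8 := hf t ht
        rwa [JD.fh_o t1 t2 t5 t6] at h8
      by_cases hy' : D.e z ∈ S
      · have h3 : D.e (D.r z) ∈ S := by
          have := hstep _ hy' (D.e1 z) k.ya
          rwa [e0y] at this
        refine D.conn S ⟨_, hv⟩ ?_ hr
        intro t ht
        by_cases t1 : t = z
        · rw [t1]
          exact hy'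
        by_cases t2 : t = D.r z
        · rw [t2]
          exact h3
        by_cases t3 : t = D.e z
        · rw [t3, D.e2]
          exact hv
        by_cases t4 : t = D.e (D.r z)
        · rw [t4, D.e2]
          exact hr _ hv
        have h7 : D.e0 z t = D.e t := by
          unfold JD.e0
          rw [if_neg t3, if_neg t4]
        rw [← h7]
        exact hstep t ht t1 t2
      · exfalso
        have h3 : D.e (D.r z) ∉ S := by
          intro h4
          apply hy'
          have := hstep _ h4 ((mem _).1 h1V).2.1 ((mem _).1 h1V).2.2.1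
          rwa [e0a] at this
        classical
        obtain ⟨W, hW⟩ : ∃ W, W = V₂.filter fun t => t ∈ S := ⟨_, rfl⟩
        have memW : ∀ t, t ∈ W ↔ t ∈ V₂ ∧ t ∈ S := by
          intro t
          rw [hW, Finset.mem_filter]
        have hWr : ∀ t ∈ W, D.r t ∈ W := by
          intro t ht
          obtain ⟨t1, t2⟩ := (memW t).1 ht
          exact (memW _).2 ⟨r2 t t1, hr t t2⟩
        have hWe : ∀ t ∈ W, t ≠ D.e (D.r (D.r z)) → D.e t ∈ W := by
          intro t ht h5
          obtain ⟨t1, t2⟩ := (memW t).1 ht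
          have h6 : t ≠ D.e (D.r z) := fun h7 => h3 (h7 ▸ t2)
          refine (memW _).2 ⟨e2 t t1 h6 h5, ?_⟩
          rw [← e0o t t1 h6]
          exact hstep t t2 ((mem _).1 t1).2.1 ((mem _).1 t1).2.2.1
        by_cases h5 : D.e (D.r (D.r z)) ∈ W
        · have lW : Leg D W (D.e (D.r (D.r z))) := by
            refine ⟨hWr, ?_, h5, ?_, hWe⟩
            · intro t ht
              exact l.nK t ((mem _).1 ((memW _).1 ht).1).1
            · rw [D.e2]
              intro h6
              exact ((mem _).1 ((memW _).1 h6).1).2.2.2 rfl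
          apply hno W _ lW
          rw [D.e2]
          exact l.inner bV
        · have h6 := D.conn (W : Set H) ⟨h, Finset.mem_coe.2 ((memW _).2 ⟨hh, h1⟩)⟩ (by
            intro t ht
            exact Finset.mem_coe.2 (hWe t (Finset.mem_coe.1 ht) fun h7 => h5 (h7 ▸ ht))) (by
            intro t ht
            exact Finset.mem_coe.2 (hWr t (Finset.mem_coe.1 ht)))
          have h7 : z ∈ (W : Set H) := by
            rw [h6]
            exact Set.mem_univ _
          exact ((mem _).1 ((memW _).1 (Finset.mem_coe.1 h7)).1).2.1 rfl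
    refine ⟨n, hne1, hne2, (l.inner hV).1, ?_⟩
    intro S hS hf hr
    by_cases hv : z ∈ S
    · exact aux S hv hf hr
    · exfalso
      have h1 := aux Sᶜ hv (by
        intro t ht ht2
        have := hf _ ht2
        rw [JD.fh_fh n hne1 hne2] at this
        exact ht this) (by
        intro t ht ht2
        have := hr _ (hr _ ht2)
        rw [D.r3] at this
        exact ht this)
      obtain ⟨t, ht⟩ := hS
      have h2 : t ∈ Sᶜ := by
        rw [h1]
        exact Set.mem_univ t
      exact h2 ht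
  have hsum := slide (v := z) r2 hm fun h hh => l.inner ((mem h).1 hh).1
  have e0h1 : D.e0 z (D.e (D.r z)) = D.e z := by
    unfold JD.e0
    rw [if_neg, if_pos rfl]
    intro h5
    exact D.r1 z (D.e_inj h5)
  have e0h2 : D.e0 z (D.e (D.r (D.r z))) = D.r (D.r z) := by
    rw [e0o _ h2V (fun h5 => D.rr_ne_r z (D.e_inj h5)), D.e2]
  have hfil : V₂.filter (fun h => ¬ D.e0 z h ∈ V₂) = {D.e (D.r z), D.e (D.r (D.r z))} := by
    ext h
    rw [Finset.mem_filter, Finset.mem_insert, Finset.mem_singleton]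
    constructor
    · rintro ⟨h3, h4⟩
      by_contra h5
      push Not at h5
      apply h4
      rw [e0o h h3 h5.1]
      exact e2 h h3 h5.1 h5.2
    · rintro (rfl | rfl)
      · refine ⟨h1V, ?_⟩
        rw [e0h1]
        exact fun h5 => l.ez ((mem _).1 h5).1
      · refine ⟨h2V, ?_⟩
        rw [e0h2]
        exact fun h5 => ((mem _).1 h5).2.2.2 rfl
  rw [hfil, Finset.sum_pair (fun h5 => D.rr_ne_r z (D.e_inj h5).symm)] at hsum
  -- the first term is the given diagram
  have my : Mv D z (D.e z) := by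
    refine ⟨n, D.e1 z, k.ya, hy, ?_⟩
    intro S hS hf hr
    refine D.conn S hS ?_ hr
    intro t ht
    have h1 := hf t ht
    have h2 : D.fh z (D.e z) t = D.e t := by
      have h0 : D.e0 z (D.e z) = D.e (D.r z) := if_pos rfl
      by_cases t1 : t = z
      · rw [t1, JD.fh_v]
      by_cases t2 : t = D.r z
      · rw [t2, JD.fh_rv, h0]
      by_cases t3 : t = D.e z
      · rw [t3, JD.fh_h (D.e1 z) k.ya, D.e2]
      by_cases t4 : t = D.e0 z (D.e z)
      · rw [t4, JD.fh_e0 n (D.e1 z) k.ya, h0, D.e2]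
      rw [JD.fh_o t1 t2 t3 t4]
      rw [h0] at t4
      unfold JD.e0
      rw [if_neg t3, if_neg t4]
    rwa [h2] at h1
  have t1 : mc D z (D.e (D.r z)) = - D.cl := by
    have m1 := hm _ h1V
    have e0y : D.e0 z (D.e z) = D.e (D.r z) := if_pos rfl
    have m1' : Mv D z (D.e0 z (D.e z)) := by rw [e0y]; exact m1
    have h3 : JD.mo m1' = JD.mo m1 := by
      have key : ∀ (w : H) (mw : Mv D z w), w = D.e (D.r z) → JD.mo mw = JD.mo m1 := by
        rintro w mw rfl
        rfl
      exact key _ m1' e0y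
    rw [mc_eq m1, ← h3, JD.cl_other my m1', JD.mo_self my]
  -- the second term has a loop
  have t2 : mc D z (D.e (D.r (D.r z))) = 0 := by
    have m2 := hm _ h2V
    rw [mc_eq m2]
    have g1 : (JD.mo m2).e z = D.e (D.r (D.r z)) := by rw [JD.mo_e, JD.fh_v]
    have g2 : (JD.mo m2).e (D.r z) = D.r (D.r z) := by rw [JD.mo_e, JD.fh_rv, e0h2]
    have g3 : (JD.mo m2).e (D.r (D.r z)) = D.r z := by
      have h5 := congrArg (JD.mo m2).e g2
      rw [JD.e2] at h5
      exact h5.symm
    have l2 : Leg (JD.mo m2) {z, D.r z, D.r (D.r z)} z := by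
      refine ⟨?_, ?_, Finset.mem_insert_self _ _, ?_, ?_⟩
      · intro h hh
        rw [JD.mo_r]
        simp only [Finset.mem_insert, Finset.mem_singleton] at hh ⊢
        rcases hh with rfl | rfl | rfl
        · exact Or.inr (Or.inl rfl)
        · exact Or.inr (Or.inr rfl)
        · exact Or.inl (D.r3 z)
      · intro h hh
        rw [JD.mo_K]
        simp only [Finset.mem_insert, Finset.mem_singleton] at hh
        obtain ⟨k0, k1, k2⟩ := JD.not_mem_of_inner hz
        rcases hh with rfl | rfl | rfl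
        · exact k0
        · exact k1
        · exact k2
      · rw [g1]
        simp only [Finset.mem_insert, Finset.mem_singleton]
        obtain ⟨_, b1, b2, b3⟩ := (mem _).1 h2V
        rintro (h5 | h5 | h5)
        · exact b1 h5
        · exact b2 h5
        · exact b3 h5
      · intro h hh hne
        simp only [Finset.mem_insert, Finset.mem_singleton] at hh ⊢
        rcases hh with rfl | rfl | rfl
        · exact absurd rfl hne
        · exact Or.inr (Or.inr g2)
        · exact Or.inr (Or.inl g3)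
    refine l2.zero_inner ?_
    rw [g1, JD.mo_inner]
    exact l.inner ((mem _).1 h2V).1
  rw [t1, t2, add_zero, neg_eq_zero] at hsum
  exact hD hsum

/-- A diagram with a part attached by one edge is zero. -/
theorem zero [Fintype H] (l : Leg D V z) : D.cl = 0 := by
  by_cases hi : D.inner (D.e z)
  · exact l.zero_inner hi
  · exact l.zero_circle hi

end Leg

end Pool.Agent.Jac70
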