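import Mathlib
import Pool.Agent.Jac70.Defs

/-!
# Places of an automorphism
-/

set_option autoImplicit false

namespace Pool.Agent.Jac70

variable {H : Type} [DecidableEq H]

/-- The edge of `x` is a place of `φ`: at the vertex of `x`, `φ` fixes `x` and exchanges the two
other half-edges, and it fixes the half-edges at the other end of the edge of `x`. -/
def Place (D : JD H) (φ : Equiv.Perm H) (x : H) : Prop :=
  φ x = x ∧ φ (D.r x) = D.r (D.r x) ∧ φ (D.r (D.e x)) = D.r (D.e x)

/-- `T` is the second diagram of the relation IHX or STU at the edge of `x`. -/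
def Second (D T : JD H) (x : H) : Prop :=
  ∃ U a b y c d, Loc D T U x a b y c d ∧
    (D.inner y ∧ T.K = D.K ∧ U.K = D.K ∨ c ∈ D.K ∧ T.K = insert y D.K ∧ U.K = insert y D.K)

end Pool.Agent.Jac70
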