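import Mathlib
import Pool.Agent.Jac70.Orb

/-!
# The half-edges at which a power of the automorphism exchanges the two other half-edges
-/

set_option autoImplicit false

namespace Pool.Agent.Jac70

variable {H : Type} [DecidableEq H]

open Classical in
/-- The half-edges fixed by a power of the automorphism which exchanges the two other half-edges
at the vertex. -/
noncomputable def bd [Fintype H] (D : JD H) (φ : Equiv.Perm H) : Finset H :=
  Finset.univ.filter fun h => ∃ n : ℕ, (φ ^ n) h = h ∧ pr D (φ ^ n) h = false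

theorem mem_bd [Fintype H] {D : JD H} {φ : Equiv.Perm H} {h : H} :
    h ∈ bd D φ ↔ ∃ n : ℕ, (φ ^ n) h = h ∧ pr D (φ ^ n) h = false := by
  classical
  unfold bd
  rw [Finset.mem_filter]
  exact ⟨fun h => h.2, fun h => ⟨Finset.mem_univ _, h⟩⟩

namespace Aut

variable {D : JD H} {φ τ : Equiv.Perm H}

theorem prod_pr (ha : Aut D φ) (h : H) (n : ℕ) :
    ∏ j ∈ Finset.range n, (if pr D φ ((φ : H → H)^[j] h) = true then (1 : ℤ) else -1) =
      if pr D (φ ^ n) h = true then 1 else -1 := by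
  induction n with
  | zero => rw [pow_zero, pr_one, Finset.prod_range_zero, if_pos rfl]
  | succ n ih =>
    rw [Finset.prod_range_succ, ih, ha.pr_succ, Equiv.Perm.iterate_eq_pow]
    cases pr D (φ ^ n) h <;> cases pr D φ ((φ ^ n) h) <;> simp

/-- If the sign is `-1`, then there is such a half-edge. -/
theorem exists_bd [Fintype H] (ha : Aut D φ) {N : ℕ} (hN : 0 < N) (hφ : φ ^ N = 1)
    (hsg : sg D D φ = -1) : ∃ (n : ℕ) (h : H), (φ ^ n) h = h ∧ pr D (φ ^ n) h = false := by
  by_contra hc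
  push Not at hc
  have h1 : sg D D φ = 1 := by
    unfold sg
    have key : ∀ h, (if D.r (φ h) = φ (D.r h) then (1 : ℤ) else -1) =
        if pr D φ h = true then 1 else -1 := fun h => by simp only [pr_true]
    simp only [key]
    refine orbit_prod (φ : H → H) N hN (fun h => if pr D φ h = true then (1 : ℤ) else -1) _ _ rfl
      (fun _ _ => Finset.mem_univ _) ?_ ?_
    · intro a _
      rw [Equiv.Perm.iterate_eq_pow, hφ]
      rfl
    · intro a _
      rw [ha.prod_pr]
      have h2 : (φ ^ (Function.minimalPeriod (φ : H → H) a)) a = a := by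
        rw [← Equiv.Perm.iterate_eq_pow]
        exact Function.iterate_minimalPeriod
      have h3 := hc _ a h2
      rw [if_pos]
      simpa using h3
  rw [h1] at hsg
  norm_num at hsg

/-- The half-edge `h` is fixed and the two others at the vertex are exchanged. -/
theorem sw_ne (ha : Aut D τ) {h : H} (h1 : τ h = h) (h2 : pr D τ h = false) :
    τ (D.r h) = D.r (D.r h) ∧ τ (D.r (D.r h)) = D.r h := by
  have h3 := ha.fr h
  have h4 := ha.frr h
  rw [h2, h1] at h3 h4
  simp only [Bool.false_eq_true, if_false] at h3 h4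
  exact ⟨h3, h4⟩

theorem sw_uniq (ha : Aut D τ) {u v : H} (h1 : τ u = u) (h2 : pr D τ u = false)
    (hv : D.vt u v) (h3 : τ v = v) : v = u := by
  obtain ⟨h4, h5⟩ := ha.sw_ne h1 h2
  rcases hv with hv | hv | hv
  · exact hv
  · rw [hv, h4] at h3
    exact absurd h3 (D.rr_ne_r _)
  · rw [hv, h5] at h3
    exact absurd h3.symm (D.rr_ne_r _)

theorem sw_ok (ha : Aut D τ) {h : H} (h1 : τ h = h) (h2 : pr D τ h = false) : Ok D h := by
  obtain ⟨h4, h5⟩ := ha.sw_ne h1 h2
  have h6 : τ (D.e h) = D.e h := by rw [← ha.e, h1]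
  refine ⟨?_, ?_, ?_⟩
  · by_contra hi
    obtain ⟨u, hu, h7⟩ := D.not_inner_iff.1 hi
    have h8 : τ u ∈ D.K := (ha.K u).2 hu
    rcases h7 with rfl | rfl | rfl
    · have h9 : τ (D.e (D.r h)) ∈ D.K := (ha.K _).2 (D.out h hu)
      rw [← ha.e, h4] at h9
      exact (D.leg h hu).2 h9
    · rw [D.r3] at h5
      have h9 : τ u = D.r (D.r u) := by
        rw [D.r3] at h4
        exact h4.symm ▸ h5
      rw [h9] at h8
      exact (D.leg u hu).1 h8
    · rw [D.r3] at h4
      rw [h4] at h8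
      exact D.out_notMem hu h8
  · intro h7
    rw [h7, h4] at h6
    exact D.rr_ne_r _ h6
  · intro h7
    rw [h7, h5] at h6
    exact D.rr_ne_r _ h6.symm

omit [DecidableEq H] in
theorem pow_fix {h : H} {m n : ℕ} (h1 : (φ ^ m) h = h) (h2 : (φ ^ (n + m)) h = h) :
    (φ ^ n) h = h := by
  rw [pow_add, Equiv.Perm.mul_apply, h1] at h2
  exact h2

/-- Conjugation by `φ`. -/
theorem sw_pow (ha : Aut D φ) {t : ℕ} {h : H} (h1 : (φ ^ t) h = h) (i : ℕ) :
    (φ ^ t) ((φ ^ i) h) = (φ ^ i) h ∧ pr D (φ ^ t) ((φ ^ i) h) = pr D (φ ^ t) h := by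
  have h2 : φ ^ t * φ ^ i = φ ^ i * φ ^ t := by rw [← pow_add, ← pow_add, add_comm]
  constructor
  · rw [← Equiv.Perm.mul_apply, h2, Equiv.Perm.mul_apply, h1]
  · have h3 := (ha.pow t).pr_mul (ha.pow i) h
    have h4 := (ha.pow i).pr_mul (ha.pow t) h
    rw [h2, h4, h1] at h3
    cases hp : pr D (φ ^ t) ((φ ^ i) h) <;> cases hq : pr D (φ ^ t) h <;>
      cases hr : pr D (φ ^ i) h <;> rw [hp, hq, hr] at h3 <;> simp at h3 ⊢

end Aut

theorem vt_common {D : JD H} {u u' v : H} (h1 : D.vt u v) (h2 : D.vt u' v) : D.vt u u' := by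
  have key : ∀ a b, D.vt a b → D.vt b a := by
    rintro a b (h | h | h)
    · exact Or.inl h.symm
    · right; right
      rw [h, D.r3]
    · right; left
      rw [h, D.r3]
  have key2 : ∀ a b c, D.vt a b → D.vt b c → D.vt a c := by
    rintro a b c h (rfl | rfl | rfl)
    · exact h
    · exact D.vt_r.2 h
    · exact D.vt_r.2 (D.vt_r.2 h)
  exact key2 _ _ _ h1 (key _ _ h2)

theorem io_vt (D : JD H) (x : H) (j : Fin 6) : ∃ u, (u = x ∨ u = D.e x) ∧ D.vt u (io D x j) := by
  fin_cases j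
  · exact ⟨x, Or.inl rfl, Or.inl rfl⟩
  · exact ⟨x, Or.inl rfl, Or.inr (Or.inl rfl)⟩
  · exact ⟨x, Or.inl rfl, Or.inr (Or.inr rfl)⟩
  · exact ⟨D.e x, Or.inr rfl, Or.inl rfl⟩
  · exact ⟨D.e x, Or.inr rfl, Or.inr (Or.inl rfl)⟩
  · exact ⟨D.e x, Or.inr rfl, Or.inr (Or.inr rfl)⟩

end Pool.Agent.Jac70
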