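import Mathlib
import Pool.Agent.Jac70.Bd

/-!
# Fixed states when both ends of the edges are exchanged
-/

set_option autoImplicit false

namespace Pool.Agent.Jac70

variable {H : Type} [DecidableEq H]

/-- The chosen edges form one orbit of length `t` and at both of their ends the two other
half-edges are exchanged by `φ ^ t`. -/
structure St2 (D : JD H) (φ : Equiv.Perm H) (X : Finset H) (t : ℕ) : Prop where
  st : St D φ X
  mem : ∀ x ∈ X, φ x ∈ X
  fix : ∀ x ∈ X, (φ ^ t) x = x
  sx : ∀ x ∈ X, pr D (φ ^ t) x = false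
  sy : ∀ x ∈ X, pr D (φ ^ t) (D.e x) = false
  min : ∀ x ∈ X, ∀ n, 0 < n → n < t → (φ ^ n) x ≠ x

namespace St2

variable {D : JD H} {φ : Equiv.Perm H} {X : Finset H} {t : ℕ}

theorem par (h : St2 D φ X t) {x : H} (hx : x ∈ X) (n : ℕ) :
    (φ ^ n) x = x → pr D (φ ^ n) x = pr D (φ ^ n) (D.e x) := by
  induction n using Nat.strong_induction_on with
  | _ n ih =>
    intro h1
    rcases Nat.eq_zero_or_pos n with rfl | hn
    · rw [pow_zero, Aut.pr_one, Aut.pr_one]
    · rcases lt_or_ge n t with h2 | h2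
      · exact absurd h1 (h.min x hx n hn h2)
      · have ht : 0 < t := by
          rcases Nat.eq_zero_or_pos t with rfl | ht
          · have h3 := h.sx x hx
            rw [pow_zero, Aut.pr_one] at h3
            exact absurd h3 (by decide)
          · exact ht
        obtain ⟨m, rfl⟩ := Nat.exists_eq_add_of_le h2
        have h3 : (φ ^ m) x = x := by
          rw [add_comm] at h1
          exact Aut.pow_fix (h.fix x hx) h1
        have h4 := ih m (by omega) h3
        have h5 : (φ ^ t) (D.e x) = D.e x := by rw [← (h.st.au.pow t).e, h.fix x hx]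
        rw [add_comm, pow_add, (h.st.au.pow m).pr_mul (h.st.au.pow t),
          (h.st.au.pow m).pr_mul (h.st.au.pow t), h.fix x hx, h5, h.sx x hx, h.sy x hx, h4]

theorem sm_eq (h : St2 D φ X t) {x : H} (hx : x ∈ X) : sm D φ X x = φ x := if_pos (h.mem x hx)

theorem pow_mem (h : St2 D φ X t) {x : H} (hx : x ∈ X) (n : ℕ) : (φ ^ n) x ∈ X := by
  induction n with
  | zero => exact hx
  | succ n ih =>
    rw [pow_succ', Equiv.Perm.mul_apply]
    exact h.mem _ ih

theorem mem' (h : St2 D φ X t) {w : H} (hw : φ w ∈ X) : w ∈ X := by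
  obtain ⟨x, hx, h1⟩ := h.st.sm_surj hw
  rw [h.sm_eq hx] at h1
  exact φ.injective h1 ▸ hx

/-- The powers of the isomorphism away from the chosen edges. -/
theorem pow_out (h : St2 D φ X t) (S : Finset H) {w : H} (h1 : w ∉ X) (h2 : D.e w ∉ X) (n : ℕ) :
    ((ph D φ (ys D φ X S)) ^ n) w = (φ ^ n) w ∧ (φ ^ n) w ∉ X ∧ D.e ((φ ^ n) w) ∉ X := by
  induction n with
  | zero => exact ⟨rfl, h1, h2⟩
  | succ n ih =>
    obtain ⟨i1, i2, i3⟩ := ih
    rw [pow_succ', pow_succ', Equiv.Perm.mul_apply, Equiv.Perm.mul_apply, i1]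
    refine ⟨?_, fun h3 => i2 (h.mem' h3), fun h3 => ?_⟩
    · rw [ph_apply]
      unfold us
      rw [if_neg]
      rintro (h3 | h3)
      · exact i2 (Finset.mem_filter.1 h3).1
      · exact i3 (Finset.mem_filter.1 h3).1
    · rw [h.st.au.e] at h3
      exact i3 (h.mem' h3)

/-- The powers of the isomorphism at the chosen edges. -/
theorem pow_in (h : St2 D φ X t) (S : Finset H) {x : H} (hx : x ∈ X) (n : ℕ) :
    ((ph D φ (ys D φ X S)) ^ n) x =
      if pr D (φ ^ n) (D.e x) = true then (φ ^ n) x else D.e ((φ ^ n) x) := by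
  have key : ∀ z ∈ X, ph D φ (ys D φ X S) z =
      if pr D φ (D.e z) = true then φ z else D.e (φ z) := by
    intro z hz
    have h1 := h.st.io_ph S hz 0
    have h2 : io D z 0 = z := rfl
    rw [h2, h.sm_eq hz] at h1
    rw [h1]
    cases pr D φ (D.e z) <;> simp [Be, h.mem z hz, io]
  have key2 : ∀ z, ph D φ (ys D φ X S) (D.e z) = D.e (ph D φ (ys D φ X S) z) := by
    intro z
    rw [ph_apply, ph_apply, us_e, h.st.au.e]
  induction n with
  | zero =>
    rw [pow_zero, pow_zero, Aut.pr_one]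
    simp
  | succ n ih =>
    have h3 : (φ ^ n) (D.e x) = D.e ((φ ^ n) x) := ((h.st.au.pow n).e x).symm
    have h4 := key _ (h.pow_mem hx n)
    rw [pow_succ', Equiv.Perm.mul_apply, ih, h.st.au.pr_succ, h3, pow_succ',
      Equiv.Perm.mul_apply]
    cases hp : pr D (φ ^ n) (D.e x) <;> cases hq : pr D φ (D.e ((φ ^ n) x)) <;> rw [hq] at h4
    · simp [key2, h4, D.e2]
    · simp [key2, h4]
    · simp [h4]
    · simp [h4]

/-- The six half-edges. -/
theorem pow_io (h : St2 D φ X t) (S : Finset H) {x : H} (hx : x ∈ X) (j : Fin 6) (n : ℕ) :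
    ∃ i, ((ph D φ (ys D φ X S)) ^ n) (io D x j) = io D ((φ ^ n) x) i := by
  induction n with
  | zero => exact ⟨j, rfl⟩
  | succ n ih =>
    obtain ⟨i, hi⟩ := ih
    have h1 := h.st.io_ph S (h.pow_mem hx n) i
    rw [h.sm_eq (h.pow_mem hx n)] at h1
    exact ⟨_, by rw [pow_succ', Equiv.Perm.mul_apply, hi, h1, pow_succ', Equiv.Perm.mul_apply]⟩

/-- If a half-edge among the six ones is fixed, then all of them are fixed. -/
theorem pow_all (h : St2 D φ X t) (S : Finset H) {x : H} (hx : x ∈ X) {j : Fin 6} {n : ℕ}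
    (h1 : ((ph D φ (ys D φ X S)) ^ n) (io D x j) = io D x j) (i : Fin 6) :
    ((ph D φ (ys D φ X S)) ^ n) (io D x i) = io D x i := by
  have k := h.st.gd.ok x hx
  have hx1 : (φ ^ n) x = x := by
    obtain ⟨i, hi⟩ := h.pow_io S hx j n
    rw [h1] at hi
    exact (h.st.gd.dj x hx _ (h.pow_mem hx n) _ _ hi).symm
  have hy1 : (φ ^ n) (D.e x) = D.e x := by rw [← (h.st.au.pow n).e, hx1]
  have hpar := h.par hx n hx1
  have f1 := (h.st.au.pow n).fr x
  have f2 := (h.st.au.pow n).frr x
  have f4 := (h.st.au.pow n).fr (D.e x)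
  have f5 := (h.st.au.pow n).frr (D.e x)
  have g0 := h.pow_in S hx n
  rw [hx1] at f1 f2 g0
  rw [hy1] at f4 f5
  have g3 : ((ph D φ (ys D φ X S)) ^ n) (D.e x) =
      D.e (((ph D φ (ys D φ X S)) ^ n) x) := by
    clear g0 f1 f2 f4 f5 h1
    have key2 : ∀ z, ph D φ (ys D φ X S) (D.e z) = D.e (ph D φ (ys D φ X S) z) := by
      intro z
      rw [ph_apply, ph_apply, us_e, h.st.au.e]
    have : ∀ m z, ((ph D φ (ys D φ X S)) ^ m) (D.e z) =
        D.e (((ph D φ (ys D φ X S)) ^ m) z) := by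
      intro m
      induction m with
      | zero => exact fun _ => rfl
      | succ m ih =>
        intro z
        rw [pow_succ', Equiv.Perm.mul_apply, ih, key2, Equiv.Perm.mul_apply]
    exact this n x
  have hne : ∀ i, i ≠ 0 → i ≠ 3 → ((ph D φ (ys D φ X S)) ^ n) (io D x i) =
      (φ ^ n) (io D x i) := by
    intro i h0 h3
    refine (h.pow_out S ?_ ?_ n).1
    · intro h4
      have h2 := h.st.gd.dj x hx _ h4 i 0 rfl
      exact h0 (io_inj k (j := 0) h2.symm)
    · intro h4
      have h2 := h.st.gd.dj x hx _ h4 i 3 (by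
        show io D x i = D.e (D.e (io D x i))
        rw [D.e2])
      have h4 : io D x i = io D x 3 := by
        show io D x i = D.e x
        conv_rhs => rw [h2]
        rw [D.e2]
      exact h3 (io_inj k h4)
  cases hp : pr D (φ ^ n) x with
  | false =>
    exfalso
    rw [hp] at hpar f1 f2
    rw [← hpar] at f4 f5 g0
    simp only [Bool.false_eq_true, if_false] at f1 f2 f4 f5 g0
    fin_cases j
    · have h2 : ((ph D φ (ys D φ X S)) ^ n) x = x := h1
      rw [g0] at h2
      exact D.e1 x h2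
    · have h2 := h1
      rw [hne _ (by decide) (by decide)] at h2
      have h3 : (φ ^ n) (D.r x) = D.r x := h2
      rw [f1] at h3
      exact D.rr_ne_r x h3
    · have h2 := h1
      rw [hne _ (by decide) (by decide)] at h2
      have h3 : (φ ^ n) (D.r (D.r x)) = D.r (D.r x) := h2
      rw [f2] at h3
      exact D.rr_ne_r x h3.symm
    · have h2 : ((ph D φ (ys D φ X S)) ^ n) (D.e x) = D.e x := h1
      rw [g3, g0, D.e2] at h2
      exact D.e1 x h2.symm
    · have h2 := h1
      rw [hne _ (by decide) (by decide)] at h2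
      have h3 : (φ ^ n) (D.r (D.e x)) = D.r (D.e x) := h2
      rw [f4] at h3
      exact D.rr_ne_r _ h3
    · have h2 := h1
      rw [hne _ (by decide) (by decide)] at h2
      have h3 : (φ ^ n) (D.r (D.r (D.e x))) = D.r (D.r (D.e x)) := h2
      rw [f5] at h3
      exact D.rr_ne_r _ h3.symm
  | true =>
    rw [hp] at hpar f1 f2
    rw [← hpar] at f4 f5 g0
    simp only [if_true] at f1 f2 f4 f5 g0
    fin_cases i
    · exact g0
    · exact (hne 1 (by decide) (by decide)).trans f1
    · exact (hne 2 (by decide) (by decide)).trans f2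
    · rw [g0] at g3
      exact g3
    · exact (hne 4 (by decide) (by decide)).trans f4
    · exact (hne 5 (by decide) (by decide)).trans f5

/-- The set of the exchanged vertices becomes smaller. -/
theorem bd_lt [Fintype H] (h : St2 D φ X t) (hX : X.Nonempty) {S : Finset H} {D₁ : JD H}
    (h₁ : IsSt D X S D₁) : (bd D₁ (ph D φ (ys D φ X S))).card < (bd D φ).card := by
  apply Finset.card_lt_card
  have hsub : ∀ z ∈ bd D₁ (ph D φ (ys D φ X S)), z ∈ bd D φ ∧ z ∉ zz D X := by
    intro z hz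
    obtain ⟨n, hn1, hn2⟩ := mem_bd.1 hz
    by_cases hz2 : z ∈ zz D X
    · exfalso
      obtain ⟨x, hx, j, rfl⟩ := mem_zz.1 hz2
      have h3 := h.pow_all S hx hn1
      rw [pr_false] at hn2
      apply hn2
      rw [hn1, h₁.six x hx, h3]
    · refine ⟨?_, hz2⟩
      have ho : St.Out D X z := fun x hx j hj => hz2 (mem_zz.2 ⟨x, hx, j, hj⟩)
      have hE : ∀ w, St.Out D X w → w ∉ X ∧ D.e w ∉ X := by
        intro w hw
        exact ⟨fun h3 => hw w h3 0 rfl, fun h3 => hw _ h3 3 (D.e2 w)⟩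
      have hpo : ∀ w, St.Out D X w → ((ph D φ (ys D φ X S)) ^ n) w = (φ ^ n) w := fun w hw =>
        (h.pow_out S (hE w hw).1 (hE w hw).2 n).1
      have h3 : (φ ^ n) z = z := by rw [← hpo z ho, hn1]
      refine mem_bd.2 ⟨n, h3, ?_⟩
      rw [pr_false] at hn2 ⊢
      rw [hn1, h₁.oth z ho, hpo _ (St.out_r z ho)] at hn2
      rw [h3]
      exact hn2
  obtain ⟨x, hx⟩ := hX
  refine ⟨fun z hz => (hsub z hz).1, fun hc => ?_⟩
  have h1 : x ∈ bd D φ := mem_bd.2 ⟨t, h.fix x hx, h.sx x hx⟩
  exact (hsub x (hc h1)).2 (mem_zz.2 ⟨x, hx, 0, rfl⟩)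

theorem sg_fix [Fintype H] (h : St2 D φ X t) (hsg : sg D D φ = -1) {S : Finset H} (hS : S ⊆ X)
    (hn : nx D φ X S = S) {D₁ : JD H} (h₁ : IsSt D X S D₁) :
    Aut D₁ (ph D φ (ys D φ X S)) ∧ sg D₁ D₁ (ph D φ (ys D φ X S)) = -1 := by
  have h₂ : IsSt D X (nx D φ X S) D₁ := by rw [hn]; exact h₁
  have h3 := h.st.ui h₁ h₂
  have h4 := h.st.sg_eq h₁ h₂
  have h5 := h.st.sign hS
  rw [hn] at h5
  refine ⟨⟨h3.e, h3.r, h3.K⟩, ?_⟩
  rw [h4, hsg]
  have h6 : (-1 : ℤ) ^ S.card * (-1 : ℤ) ^ S.card = 1 := by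
    rw [← mul_pow]
    norm_num
  have h7 : (∏ x ∈ X, if pr D φ x = pr D φ (D.e x) then (1 : ℤ) else -1) = 1 := by
    have h8 := congrArg (fun z => (-1 : ℤ) ^ S.card * z) h5
    rw [h6, ← mul_assoc, h6, one_mul] at h8
    exact h8
  rw [h7, mul_one]

/-- The order of the new automorphism is a power of two, too. -/
theorem ord (h : St2 D φ X t) (S : Finset H) {N : ℕ} (hN : φ ^ N = 1) :
    (ph D φ (ys D φ X S)) ^ (N * 2) = 1 := by
  have key : ∀ z, ((ph D φ (ys D φ X S)) ^ N) z = z ∨ ((ph D φ (ys D φ X S)) ^ N) z = D.e z := by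
    intro z
    by_cases h1 : z ∈ X
    · rw [h.pow_in S h1 N, hN]
      split_ifs
      · exact Or.inl rfl
      · exact Or.inr rfl
    · by_cases h2 : D.e z ∈ X
      · have h3 := h.pow_in S h2 N
        have key2 : ∀ z, ph D φ (ys D φ X S) (D.e z) = D.e (ph D φ (ys D φ X S) z) := by
          intro z
          rw [ph_apply, ph_apply, us_e, h.st.au.e]
        have h4 : ∀ m z, ((ph D φ (ys D φ X S)) ^ m) (D.e z) =
            D.e (((ph D φ (ys D φ X S)) ^ m) z) := by
          intro m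
          induction m with
          | zero => exact fun _ => rfl
          | succ m ih =>
            intro z
            rw [pow_succ', Equiv.Perm.mul_apply, ih, key2, Equiv.Perm.mul_apply]
        rw [h4, hN] at h3
        have h5 : ((1 : Equiv.Perm H)) (D.e z) = D.e z := rfl
        rw [h5] at h3
        split_ifs at h3
        · left
          exact D.e_inj h3
        · right
          exact D.e_inj h3
      · left
        rw [(h.pow_out S h1 h2 N).1, hN]
        rfl
  have key2 : ∀ z, ph D φ (ys D φ X S) (D.e z) = D.e (ph D φ (ys D φ X S) z) := by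
    intro z
    rw [ph_apply, ph_apply, us_e, h.st.au.e]
  have h4 : ∀ m z, ((ph D φ (ys D φ X S)) ^ m) (D.e z) =
      D.e (((ph D φ (ys D φ X S)) ^ m) z) := by
    intro m
    induction m with
    | zero => exact fun _ => rfl
    | succ m ih =>
      intro z
      rw [pow_succ', Equiv.Perm.mul_apply, ih, key2, Equiv.Perm.mul_apply]
  ext z
  rw [pow_mul, pow_two, Equiv.Perm.mul_apply, Equiv.Perm.one_apply]
  rcases key z with h1 | h1
  · rw [h1, h1]
  · rw [h1, h4, h1, D.e2]

end St2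

end Pool.Agent.Jac70
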