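import Mathlib
import Pool.Agent.Jac70.Two

/-!
# A diagram with an odd automorphism is zero
-/

set_option autoImplicit false

namespace Pool.Agent.Jac70

variable {H : Type} [DecidableEq H]

theorem vt_symm {D : JD H} {a b : H} (h : D.vt a b) : D.vt b a := by
  rcases h with h | h | h
  · exact Or.inl h.symm
  · right; right
    rw [h, D.r3]
  · right; left
    rw [h, D.r3]

theorem gd_of {D : JD H} {X : Finset H} {τ : Equiv.Perm H} (ha : Aut D τ)
    (h1 : ∀ x ∈ X, τ x = x ∧ pr D τ x = false) (h2 : ∀ x ∈ X, ∀ x' ∈ X, x ≠ D.e x')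
    (h3 : ∀ x ∈ X, ∀ x' ∈ X, D.vt (D.e x) (D.e x') → x = x') : Gd D X := by
  refine ⟨fun x hx => ha.sw_ok (h1 x hx).1 (h1 x hx).2, ?_⟩
  intro x hx x' hx' i j hij
  have he : ∀ z ∈ X, τ (D.e z) = D.e z := fun z hz => by rw [← ha.e, (h1 z hz).1]
  obtain ⟨u, hu, hv⟩ := io_vt D x i
  obtain ⟨u', hu', hv'⟩ := io_vt D x' j
  rw [← hij] at hv'
  have hc := vt_common hv hv'
  rcases hu with rfl | rfl <;> rcases hu' with rfl | rfl
  · exact (ha.sw_uniq (h1 _ hx).1 (h1 _ hx).2 hc (h1 _ hx').1).symm
  · exact absurd (ha.sw_uniq (h1 _ hx).1 (h1 _ hx).2 hc (he _ hx')).symm (h2 _ hx _ hx')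
  · exact absurd (ha.sw_uniq (h1 _ hx').1 (h1 _ hx').2 (vt_symm hc) (he _ hx)).symm
      (h2 _ hx' _ hx)
  · exact h3 _ hx _ hx' hc

/-- Two half-edges of one vertex in the same orbit. -/
theorem vt_fix {D : JD H} {θ : Equiv.Perm H} (ha : Aut D θ) {k : ℕ} (hk : θ ^ (2 ^ k) = 1)
    {u : H} (hu : D.vt u (θ u)) : θ u = u ∨ ∃ z, θ z = z ∧ pr D θ z = false := by
  have f1 := ha.fr u
  have f2 := ha.frr u
  have h3 : θ (θ (θ u)) = u → θ u = u := by
    intro h3
    have p3 : Function.IsPeriodicPt (θ : H → H) 3 u := h3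
    have p2 : Function.IsPeriodicPt (θ : H → H) (2 ^ k) u := by
      show (θ : H → H)^[2 ^ k] u = u
      rw [Equiv.Perm.iterate_eq_pow, hk]
      rfl
    have p1 := p3.gcd p2
    have hg : Nat.gcd 3 (2 ^ k) = 1 := Nat.Coprime.pow_right k (by norm_num)
    rw [hg] at p1
    exact p1
  rcases hu with hu | hu | hu
  · exact Or.inl hu
  · cases hp : pr D θ u with
    | false =>
      right
      refine ⟨D.r (D.r u), ?_, by rw [ha.pr_r, ha.pr_r]; exact hp⟩
      rw [hp] at f2
      simp only [Bool.false_eq_true, if_false] at f2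
      rw [f2, hu]
    | true =>
      left
      rw [hp] at f1 f2
      simp only [if_true] at f1 f2
      rw [hu] at f1 f2
      rw [D.r3] at f2
      apply h3
      rw [hu, f1, f2]
  · cases hp : pr D θ u with
    | false =>
      right
      refine ⟨D.r u, ?_, by rw [ha.pr_r]; exact hp⟩
      rw [hp] at f1
      simp only [Bool.false_eq_true, if_false] at f1
      rw [f1, hu, D.r3]
    | true =>
      left
      rw [hp] at f1 f2
      simp only [if_true] at f1 f2
      rw [hu, D.r3] at f1 f2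
      apply h3
      rw [hu, f2, f1]

theorem gen [Fintype H] (N : ℕ) : ∀ (D : JD H) (φ : Equiv.Perm H) (k : ℕ), Aut D φ →
    φ ^ (2 ^ k) = 1 → sg D D φ = -1 → (bd D φ).card = N → D.cl = 0 := by
  classical
  induction N using Nat.strong_induction_on with
  | _ N ih =>
    intro D φ k ha hk hsg hN
    have hex : ∃ n : ℕ, ∃ h : H, (φ ^ n) h = h ∧ pr D (φ ^ n) h = false :=
      ha.exists_bd (by positivity) hk hsg
    obtain ⟨t, ht⟩ : ∃ t, t = Nat.find hex := ⟨_, rfl⟩
    obtain ⟨h, h1, h2⟩ : ∃ h : H, (φ ^ t) h = h ∧ pr D (φ ^ t) h = false := by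
      rw [ht]
      exact Nat.find_spec hex
    have hmin : ∀ s, s < t → ∀ z, (φ ^ s) z = z → pr D (φ ^ s) z ≠ false := by
      intro s hs z hz hz2
      rw [ht] at hs
      exact Nat.find_min hex hs ⟨z, hz, hz2⟩
    have ht0 : 0 < t := by
      rcases Nat.eq_zero_or_pos t with h3 | h3
      · rw [h3, pow_zero, Aut.pr_one] at h2
        exact absurd h2 (by decide)
      · exact h3
    have hno : ∀ x, (φ ^ t) x = x → pr D (φ ^ t) x = false → ∀ s, 0 < s → s < t →
        (φ ^ s) x ≠ x := by
      intro x hx1 hx2 s hs1 hs2 hx3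
      obtain ⟨m, hm⟩ := Nat.exists_eq_add_of_lt hs2
      have hm' : t = (m + 1) + s := by omega
      have hx4 : (φ ^ (m + 1)) x = x := Aut.pow_fix hx3 (by rw [← hm']; exact hx1)
      have h5 := hmin s hs2 x hx3
      have h6 := hmin (m + 1) (by omega) x hx4
      rw [hm', pow_add, (ha.pow _).pr_mul (ha.pow _), hx3] at hx2
      cases hp : pr D (φ ^ s) x
      · exact h5 hp
      · cases hq : pr D (φ ^ (m + 1)) x
        · exact h6 hq
        · rw [hp, hq] at hx2
          exact absurd hx2 (by decide)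
    have hpow : ∀ i, (φ ^ t) ((φ ^ i) h) = (φ ^ i) h ∧ pr D (φ ^ t) ((φ ^ i) h) = false :=
      fun i => ⟨(ha.sw_pow h1 i).1, (ha.sw_pow h1 i).2.trans h2⟩
    by_cases hB : ∃ m, (φ ^ m) h = D.e h
    · -- the edge is reversed by a power
      obtain ⟨m, hm, hmt⟩ : ∃ m, (φ ^ m) h = D.e h ∧ m < t := by
        obtain ⟨m, hm⟩ := hB
        refine ⟨m % t, ?_, Nat.mod_lt _ ht0⟩
        have h3 : ∀ q, (φ ^ (t * q)) h = h := by
          intro q
          induction q with
          | zero => rfl
          | succ q ihq => rw [Nat.mul_succ, pow_add, Equiv.Perm.mul_apply, h1, ihq]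
        rw [← hm]
        conv_rhs => rw [← Nat.mod_add_div m t, pow_add, Equiv.Perm.mul_apply, h3]
      have hm0 : 0 < m := by
        rcases Nat.eq_zero_or_pos m with h3 | h3
        · rw [h3] at hm
          exact absurd hm.symm (D.e1 h)
        · exact h3
      have hme : (φ ^ m) (D.e h) = h := by rw [← (ha.pow m).e, hm, D.e2]
      have h2m : (φ ^ (m + m)) h = h := by rw [pow_add, Equiv.Perm.mul_apply, hm, hme]
      have htm : t = m + m := by
        rcases lt_trichotomy (m + m) t with h3 | h3 | h3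
        · exact absurd h2m (hno h h1 h2 _ (by omega) h3)
        · exact h3.symm
        · exfalso
          obtain ⟨a, ha'⟩ := Nat.exists_eq_add_of_lt h3
          have h4 : (φ ^ (a + 1)) h = h :=
            Aut.pow_fix h1 (by rw [show a + 1 + t = m + m by omega]; exact h2m)
          exact hno h h1 h2 (a + 1) (by omega) (by omega) h4
      obtain ⟨X, hX⟩ : ∃ X, X = (Finset.range m).image fun i => (φ ^ i) h := ⟨_, rfl⟩
      have hmem : ∀ x, x ∈ X ↔ ∃ i, i < m ∧ (φ ^ i) h = x := by
        intro x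
        rw [hX, Finset.mem_image]
        simp only [Finset.mem_range]
      have hsw : ∀ x ∈ X, (φ ^ t) x = x ∧ pr D (φ ^ t) x = false := by
        intro x hx
        obtain ⟨i, _, rfl⟩ := (hmem x).1 hx
        exact hpow i
      have hsy : ∀ x ∈ X, (φ ^ t) (D.e x) = D.e x ∧ pr D (φ ^ t) (D.e x) = false := by
        intro x hx
        obtain ⟨i, _, rfl⟩ := (hmem x).1 hx
        have h3 : D.e ((φ ^ i) h) = (φ ^ (i + m)) h := by
          rw [(ha.pow i).e, ← hm, ← Equiv.Perm.mul_apply, ← pow_add]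
        rw [h3]
        exact hpow _
      have hG : Gd D X := by
        refine gd_of (ha.pow t) hsw ?_ ?_
        · intro x hx x' hx' hxx
          obtain ⟨i, hi, rfl⟩ := (hmem x).1 hx
          obtain ⟨j, hj, rfl⟩ := (hmem x').1 hx'
          rw [(ha.pow j).e, ← hm, ← Equiv.Perm.mul_apply, ← pow_add] at hxx
          obtain ⟨a, ha'⟩ := Nat.exists_eq_add_of_lt (show i < j + m by omega)
          have h3 : (φ ^ (a + 1)) ((φ ^ i) h) = (φ ^ i) h := by
            rw [← Equiv.Perm.mul_apply, ← pow_add, show a + 1 + i = j + m by omega]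
            exact hxx.symm
          exact hno _ (hpow i).1 (hpow i).2 (a + 1) (by omega) (by omega) h3
        · intro x hx x' hx' hv
          exact (D.e_inj ((ha.pow t).sw_uniq (hsy x hx).1 (hsy x hx).2 hv (hsy x' hx').1)).symm
      have hh : h ∈ X := (hmem h).2 ⟨0, hm0, rfl⟩
      have hst : St D φ X := by
        refine ⟨ha, hG, ?_⟩
        intro x hx
        obtain ⟨i, hi, rfl⟩ := (hmem x).1 hx
        rw [← Equiv.Perm.mul_apply, ← pow_succ']
        rcases Nat.lt_or_ge (i + 1) m with h3 | h3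
        · exact Or.inl ((hmem _).2 ⟨i + 1, h3, rfl⟩)
        · right
          rw [show i + 1 = m by omega, hm, D.e2]
          exact hh
      refine hst.cl_zero hk hsg fun S _ hS => ?_
      exfalso
      refine hst.nx_ne hh (n := m) (Or.inr hm) ?_ hS
      intro h3
      rw [htm, pow_add, (ha.pow m).pr_mul (ha.pow m), hm, h3] at h2
      simp at h2
    · -- the edge is not reversed
      push Not at hB
      obtain ⟨X, hX⟩ : ∃ X, X = (Finset.range t).image fun i => (φ ^ i) h := ⟨_, rfl⟩
      have hmem : ∀ x, x ∈ X ↔ ∃ i, i < t ∧ (φ ^ i) h = x := by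
        intro x
        rw [hX, Finset.mem_image]
        simp only [Finset.mem_range]
      have hsw : ∀ x ∈ X, (φ ^ t) x = x ∧ pr D (φ ^ t) x = false := by
        intro x hx
        obtain ⟨i, _, rfl⟩ := (hmem x).1 hx
        exact hpow i
      have hsy : ∀ x ∈ X, (φ ^ t) (D.e x) = D.e x ∧
          pr D (φ ^ t) (D.e x) = pr D (φ ^ t) (D.e h) := by
        intro x hx
        obtain ⟨i, _, rfl⟩ := (hmem x).1 hx
        have h3 : (φ ^ t) (D.e h) = D.e h := by rw [← (ha.pow t).e, h1]
        rw [(ha.pow i).e]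
        exact ha.sw_pow h3 i
      have hne : ∀ x ∈ X, ∀ x' ∈ X, x ≠ D.e x' := by
        intro x hx x' hx' hxx
        obtain ⟨i, hi, rfl⟩ := (hmem x).1 hx
        obtain ⟨j, hj, rfl⟩ := (hmem x').1 hx'
        -- go around the orbit
        have h3 : (φ ^ (t - j)) ((φ ^ j) h) = h := by
          rw [← Equiv.Perm.mul_apply, ← pow_add, Nat.sub_add_cancel hj.le, h1]
        have h4 := congrArg (φ ^ (t - j)) hxx
        rw [← (ha.pow (t - j)).e, h3, ← Equiv.Perm.mul_apply, ← pow_add] at h4
        exact hB _ h4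
      have hvt : ∀ x ∈ X, ∀ x' ∈ X, D.vt (D.e x) (D.e x') → x = x' := by
        have aux : ∀ i j, i ≤ j → j < t → D.vt (D.e ((φ ^ i) h)) (D.e ((φ ^ j) h)) →
            (φ ^ i) h = (φ ^ j) h := by
          intro i j hij hj hv
          obtain ⟨s, rfl⟩ := Nat.exists_eq_add_of_le hij
          have h3 : (φ ^ s) (D.e ((φ ^ i) h)) = D.e ((φ ^ (i + s)) h) := by
            have h4 : (φ ^ (i + s)) h = (φ ^ s) ((φ ^ i) h) := by
              rw [← Equiv.Perm.mul_apply, ← pow_add, add_comm]
            rw [← (ha.pow s).e, h4]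
          rw [← h3] at hv
          have hk' : (φ ^ s) ^ (2 ^ k) = 1 := by rw [← pow_mul, mul_comm, pow_mul, hk, one_pow]
          rcases vt_fix (ha.pow s) hk' hv with h4 | ⟨z, hz1, hz2⟩
          · rw [h3] at h4
            exact (D.e_inj h4).symm
          · exact absurd hz2 (hmin s (by omega) z hz1)
        intro x hx x' hx' hv
        obtain ⟨i, hi, rfl⟩ := (hmem x).1 hx
        obtain ⟨j, hj, rfl⟩ := (hmem x').1 hx'
        rcases le_total i j with hij | hij
        · exact aux i j hij hj hv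
        · exact (aux j i hij hi (vt_symm hv)).symm
      have hG : Gd D X := gd_of (ha.pow t) hsw hne hvt
      have hh : h ∈ X := (hmem h).2 ⟨0, ht0, rfl⟩
      have hcl : ∀ x ∈ X, φ x ∈ X := by
        intro x hx
        obtain ⟨i, hi, rfl⟩ := (hmem x).1 hx
        rw [← Equiv.Perm.mul_apply, ← pow_succ']
        rcases Nat.lt_or_ge (i + 1) t with h3 | h3
        · exact (hmem _).2 ⟨i + 1, h3, rfl⟩
        · rw [show i + 1 = t by omega, h1]
          exact hh
      have hst : St D φ X := ⟨ha, hG, fun x hx => Or.inl (hcl x hx)⟩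
      refine hst.cl_zero hk hsg fun S hS hSn => ?_
      cases hq : pr D (φ ^ t) (D.e h) with
      | true =>
        exfalso
        refine hst.nx_ne hh (n := t) (Or.inl h1) ?_ hSn
        rw [h2, hq]
        decide
      | false =>
        have h2' : St2 D φ X t := by
          refine ⟨hst, hcl, fun x hx => (hsw x hx).1, fun x hx => (hsw x hx).2,
            fun x hx => (hsy x hx).2.trans hq, ?_⟩
          intro x hx n hn0 hnt
          exact hno x (hsw x hx).1 (hsw x hx).2 n hn0 hnt
        obtain ⟨D₁, h₁⟩ := exists_st X hG S hS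
        rw [stc_eq h₁]
        obtain ⟨a1, a2⟩ := h2'.sg_fix hsg hS hSn h₁
        refine ih _ ?_ D₁ _ (k + 1) a1 ?_ a2 rfl
        · rw [← hN]
          exact h2'.bd_lt ⟨h, hh⟩ h₁
        · rw [pow_succ]
          exact h2'.ord S hk

end Pool.Agent.Jac70
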