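import Mathlib
import Pool.Agent.Jac70.Gen

/-!
# Automorphisms which fix the circle; halves
-/

set_option autoImplicit false

namespace Pool.Agent.Jac70

variable {H : Type} [DecidableEq H]

/-- An automorphism of finite order which reverses an odd number of vertices. -/
theorem odd_zero [Fintype H] {D : JD H} {φ : Equiv.Perm H} (ha : Aut D φ)
    (ho : Odd (rev D φ).card) : D.cl = 0 := by
  have hsg : sg D D φ = -1 := by
    rw [JD.sg_eq_neg_one, ho.neg_one_pow]
  -- an odd power of `φ` has order a power of two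
  obtain ⟨k, m, hm, hkm⟩ := Nat.exists_eq_two_pow_mul_odd (orderOf_pos φ).ne'
  have hpow : (φ ^ m) ^ (2 ^ k) = 1 := by
    rw [← pow_mul, mul_comm, ← hkm, pow_orderOf_eq_one]
  have hmul : ∀ ψ : Equiv.Perm H, Aut D ψ → sg D D (φ * ψ) = sg D D φ * sg D D ψ := by
    intro ψ hψ
    unfold sg
    have key : ∀ θ : Equiv.Perm H, ∀ h, (if D.r (θ h) = θ (D.r h) then (1 : ℤ) else -1) =
        if pr D θ h = true then 1 else -1 := fun θ h => by simp only [pr_true]
    simp only [key]
    rw [← Equiv.prod_comp ψ (fun h => if pr D φ h = true then (1 : ℤ) else -1),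
      ← Finset.prod_mul_distrib]
    refine Finset.prod_congr rfl fun h _ => ?_
    rw [ha.pr_mul hψ]
    cases pr D ψ h <;> cases pr D φ (ψ h) <;> simp
  have hsgm : ∀ n, sg D D (φ ^ n) = (-1) ^ n := by
    intro n
    induction n with
    | zero =>
      rw [pow_zero, pow_zero]
      unfold sg
      exact Finset.prod_eq_one fun h _ => if_pos rfl
    | succ n ih => rw [pow_succ', hmul _ (ha.pow n), ih, hsg, pow_succ']
  exact gen _ D (φ ^ m) k (ha.pow m) hpow (by rw [hsgm, hm.neg_one_pow]) rfl

/-- An automorphism which fixes the circle has a vertex fixed edge by edge next to a vertex where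
two edges are exchanged. -/
theorem exists_sw {D : JD H} {φ : Equiv.Perm H} (ha : Aut D φ) (hK : ∀ h ∈ D.K, φ h = h)
    (h1 : φ ≠ 1) : ∃ x, SW D φ x ∧ Ok D x := by
  by_contra hc
  push Not at hc
  apply h1
  have hne : ∃ h, φ h ≠ h := by
    by_contra hn
    push Not at hn
    exact h1 (Equiv.ext hn)
  obtain ⟨h0, _⟩ := hne
  obtain ⟨u, hu⟩ := D.ne h0
  have hS : {h | φ h = h ∧ φ (D.r h) = D.r h ∧ φ (D.r (D.r h)) = D.r (D.r h)} = Set.univ := by
    apply D.conn
    · refine ⟨u, hK u hu, ?_, ?_⟩
      · have h2 := hK _ (D.out u hu)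
        rw [← ha.e] at h2
        exact D.e_inj h2
      · have h2 := hK _ (D.out u hu)
        rw [← ha.e] at h2
        have h3 := D.e_inj h2
        have h4 := ha.frr u
        rw [hK u hu] at h4
        cases hp : pr D φ u with
        | true =>
          rw [hp, if_pos rfl] at h4
          exact h4
        | false =>
          rw [hp] at h4
          simp only [Bool.false_eq_true, if_false] at h4
          have h5 := φ.injective (h4.trans h3.symm)
          exact absurd h5 (D.rr_ne_r u)
    · intro y hy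
      by_contra hn
      have fx : φ (D.e y) = D.e y := by rw [← ha.e, hy.1]
      cases hp : pr D φ (D.e y) with
      | true =>
        apply hn
        have h2 := ha.fr (D.e y)
        have h3 := ha.frr (D.e y)
        rw [hp, if_pos rfl, fx] at h2 h3
        exact ⟨fx, h2, h3⟩
      | false =>
        refine hc (D.e y) ⟨fx, (ha.sw_ne fx hp).1, ?_⟩ (ha.sw_ok fx hp)
        rw [D.e2]
        exact hy.2.1
    · intro y hy
      refine ⟨hy.2.1, hy.2.2, ?_⟩
      rw [D.r3]
      exact hy.1
  refine Equiv.ext fun h => ?_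
  have h2 : h ∈ {h | φ h = h ∧ φ (D.r h) = D.r h ∧ φ (D.r (D.r h)) = D.r (D.r h)} := by
    rw [hS]
    exact Set.mem_univ h
  exact h2.1

/-- The class of a diagram with such an automorphism is twice another class. -/
theorem two_dvd [Fintype H] {D : JD H} {φ : Equiv.Perm H} (ha : Aut D φ)
    (hK : ∀ h ∈ D.K, φ h = h) (h1 : φ ≠ 1) : ∃ a : A H, D.cl = 2 • a := by
  obtain ⟨x, hs, k⟩ := exists_sw ha hK h1
  have h2 := JD.key ha hs k
  rw [JD.sg_eq_neg_one] at h2
  rcases Nat.even_or_odd (rev D φ).card with h3 | h3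
  · refine ⟨(D.mv x k).cl, ?_⟩
    rw [h3.neg_one_pow, one_smul] at h2
    rw [h2, two_nsmul]
  · refine ⟨0, ?_⟩
    rw [h3.neg_one_pow, neg_one_smul, add_neg_cancel] at h2
    rw [h2, smul_zero]

end Pool.Agent.Jac70
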