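import Mathlib
import Pool.Agent.Jac70.Fix
import Pool.Agent.Jac70.Defs2

/-!
# The halves at two disjoint places are equal
-/

set_option autoImplicit false

namespace Pool.Agent.Jac70

variable {H : Type} [DecidableEq H]

theorem stc_one {D : JD H} {x : H} (k : Ok D x) : stc D {x} ∅ = (D.mv x k).cl := by
  have hG : Gd D (insert x ∅) := by
    refine ⟨?_, ?_⟩
    · intro z hz
      rw [insert_empty_eq, Finset.mem_singleton] at hz
      rw [hz]
      exact k
    · intro z hz z' hz' _ _ _
      rw [insert_empty_eq, Finset.mem_singleton] at hz hz'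
      rw [hz, hz']
  have h : IsSt D (insert x ∅) ∅ (D.mv x k) :=
    IsSt.step hG (Finset.notMem_empty x) (IsSt.empty D ∅) false (IsSt.mv_io k) rfl
      (fun z hz => JD.hf_o k hz) rfl (by simp) (fun _ _ => Iff.rfl)
  exact stc_eq h

theorem SW.pr {D : JD H} {φ : Equiv.Perm H} {x : H} (ha : Aut D φ) (s : SW D φ x) :
    pr D φ x = false ∧ pr D φ (D.e x) = true := by
  obtain ⟨_, h2, _⟩ := JD.SW.all ha s
  constructor
  · rw [pr_false, s.fx, s.fa]
    exact (D.rr_ne_r x).symm
  · rw [pr_true, h2, s.fc]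

theorem half_eq [Fintype H] {D : JD H} {φ : Equiv.Perm H} (ha : Aut D φ)
    (hev : Even (rev D φ).card) {x x' : H} (s : SW D φ x) (s' : SW D φ x') (k : Ok D x)
    (k' : Ok D x') (hd : ∀ i j, io D x i ≠ io D x' j) : (D.mv x k).cl = (D.mv x' k').cl := by
  have hne : x ≠ x' := hd 0 0
  have hG : Gd D {x, x'} := by
    refine ⟨?_, ?_⟩
    · intro z hz
      rw [Finset.mem_insert, Finset.mem_singleton] at hz
      rcases hz with rfl | rfl
      · exact k
      · exact k'
    · intro z hz z' hz' i j hij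
      rw [Finset.mem_insert, Finset.mem_singleton] at hz hz'
      rcases hz with rfl | rfl <;> rcases hz' with rfl | rfl
      · rfl
      · exact absurd hij (hd i j)
      · exact absurd hij.symm (hd j i)
      · rfl
  have hG' : Gd D {x', x} := by rwa [Finset.pair_comm]
  have hst : St D φ {x, x'} := by
    refine ⟨ha, hG, ?_⟩
    intro z hz
    rw [Finset.mem_insert, Finset.mem_singleton] at hz
    left
    rcases hz with rfl | rfl
    · rw [s.fx]
      exact Finset.mem_insert_self _ _
    · rw [s'.fx]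
      exact Finset.mem_insert_of_mem (Finset.mem_singleton_self _)
  have m1 : x ∈ ({x, x'} : Finset H) := Finset.mem_insert_self _ _
  have m2 : x' ∈ ({x, x'} : Finset H) := Finset.mem_insert_of_mem (Finset.mem_singleton_self _)
  have e1 := stc_step (D := D) (x := x') (X := {x}) (S := ∅) hG'
    (by rw [Finset.mem_singleton]; exact hne.symm) (Finset.empty_subset _)
  have e2 := stc_step (D := D) (x := x) (X := {x'}) (S := ∅) hG
    (by rw [Finset.mem_singleton]; exact hne) (Finset.empty_subset _)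
  have sx : sm D φ {x, x'} x = x := by
    unfold sm
    rw [s.fx, if_pos m1]
  have sx' : sm D φ {x, x'} x' = x' := by
    unfold sm
    rw [s'.fx, if_pos m2]
  have hn : nx D φ {x, x'} {x} = {x'} := by
    have h1 := hst.mem_nx {x} m1
    have h2 := hst.mem_nx {x} m2
    rw [sx, (SW.pr ha s).1, (SW.pr ha s).2] at h1
    rw [sx', (SW.pr ha s').1, (SW.pr ha s').2] at h2
    have h3 : x ∉ nx D φ {x, x'} {x} := by
      rw [h1]
      simp
    have h4 : x' ∈ nx D φ {x, x'} {x} := by
      rw [h2]
      simp [hne.symm]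
    ext z
    rw [Finset.mem_singleton]
    constructor
    · intro hz
      have h5 := hst.nx_subset _ hz
      rw [Finset.mem_insert, Finset.mem_singleton] at h5
      rcases h5 with rfl | rfl
      · exact absurd hz h3
      · rfl
    · rintro rfl
      exact h4
  have ht := hst.term (S := {x}) (Finset.singleton_subset_iff.2 m1)
  rw [hn, JD.sg_eq_neg_one, hev.neg_one_pow, one_smul, Finset.card_singleton,
    Finset.card_singleton, pow_one, neg_one_smul, neg_one_smul, neg_inj] at ht
  rw [← stc_one k, ← stc_one k', e1, e2]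
  rw [Finset.pair_comm x' x, insert_empty_eq, insert_empty_eq, ht]

/-- The second diagram of the relation is unique. -/
theorem Second.mv {D T : JD H} {x : H} (h : Second D T x) : ∃ k : Ok D x, T = D.mv x k := by
  obtain ⟨U, a, b, y, c, d, hl, hK⟩ := h
  obtain ⟨i1, i2, i3, i4, i5, i6⟩ := hl.i1
  have hy := hl.exy
  subst hy
  subst i1
  subst i2
  subst i4
  subst i5
  have k : Ok D x := ⟨hl.inn, hl.nya, hl.nyb⟩
  refine ⟨k, JD.ext hl.eJ (Equiv.ext fun h => ?_) ?_⟩
  · obtain ⟨j1, j2, j3, j4, j5, j6⟩ := hl.j1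
    show T.r h = D.hf x h
    by_cases hs : D.six x h
    · rcases hs with (rfl | rfl | rfl) | (rfl | rfl | rfl)
      · rw [j1, JD.hf_x k]
      · rw [j6, JD.hf_a k]
      · rw [j2, JD.hf_b k]
      · rw [j4, JD.hf_y k]
      · rw [j3, JD.hf_c k]
      · rw [j5, JD.hf_d k]
    · rw [JD.hf_o k hs]
      unfold JD.six JD.vt at hs
      push Not at hs
      exact (hl.oth h hs.1.1 hs.1.2.1 hs.1.2.2 hs.2.1 hs.2.2.1 hs.2.2.2).1
  · rw [JD.mv_K]
    unfold JD.hK
    rcases hK with ⟨h1, h2, _⟩ | ⟨h1, h2, _⟩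
    · rw [if_neg, h2]
      intro h3
      exact h1.2.1 (Or.inl h3)
    · rw [if_pos h1, h2]

theorem Place.sw {D : JD H} {φ : Equiv.Perm H} {x : H} (h : Place D φ x) : SW D φ x :=
  ⟨h.1, h.2.1, h.2.2⟩

end Pool.Agent.Jac70
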