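import Mathlib
import Pool.Agent.Jac70.Brid2
import Pool.Agent.Jac70.Half

/-!
# The halves at any two places are equal
-/

set_option autoImplicit false

namespace Pool.Agent.Jac70

variable {H : Type} [DecidableEq H]

/-- The vertex of `h` is fixed, half-edge by half-edge. -/
def FV (D : JD H) (φ : Equiv.Perm H) (h : H) : Prop :=
  φ h = h ∧ φ (D.r h) = D.r h ∧ φ (D.r (D.r h)) = D.r (D.r h)

instance (D : JD H) (φ : Equiv.Perm H) (h : H) : Decidable (FV D φ h) := by
  unfold FV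
  infer_instance

theorem FV.r {D : JD H} {φ : Equiv.Perm H} {h : H} (f : FV D φ h) : FV D φ (D.r h) :=
  ⟨f.2.1, f.2.2, by rw [D.r3]; exact f.1⟩

theorem FV.vt {D : JD H} {φ : Equiv.Perm H} {h t : H} (f : FV D φ h) (v : D.vt h t) :
    FV D φ t := by
  rcases v with rfl | rfl | rfl
  · exact f
  · exact f.r
  · exact f.r.r

section

variable {D : JD H} {φ : Equiv.Perm H} {x x' : H}

theorem SW.fv (ha : Aut D φ) (s : SW D φ x) : FV D φ (D.e x) := by
  obtain ⟨_, h2, h3⟩ := JD.SW.all ha s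
  exact ⟨h2, s.fc, h3⟩

theorem SW.nfv (s : SW D φ x) : ¬ FV D φ x := by
  intro f
  have h1 := f.2.1
  rw [s.fa] at h1
  exact D.rr_ne_r x h1

/-- Two places with a common vertex. -/
theorem common (ha : Aut D φ) (s : SW D φ x) (s' : SW D φ x') {i j : Fin 6}
    (h : io D x i = io D x' j) : x = x' ∨ D.vt (D.e x) (D.e x') := by
  obtain ⟨u, hu, hv⟩ := io_vt D x i
  obtain ⟨u', hu', hv'⟩ := io_vt D x' j
  rw [← h] at hv'
  have hc := vt_common hv hv'
  rcases hu with rfl | rfl <;> rcases hu' with rfl | rfl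
  · left
    exact (ha.sw_uniq s.fx (SW.pr ha s).1 hc s'.fx).symm
  · exact absurd ((SW.fv ha s').vt (vt_symm hc)) s.nfv
  · exact absurd ((SW.fv ha s).vt hc) s'.nfv
  · exact Or.inr hc

theorem fv_K (ha : Aut D φ) (hK : ∀ h ∈ D.K, φ h = h) {u : H} (hu : u ∈ D.K) : FV D φ u := by
  have h2 := hK _ (D.out u hu)
  rw [← ha.e] at h2
  have h3 := D.e_inj h2
  refine ⟨hK u hu, h3, ?_⟩
  have h4 := ha.frr u
  rw [hK u hu] at h4
  cases hp : pr D φ u with
  | true =>
    rw [hp, if_pos rfl] at h4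
    exact h4
  | false =>
    rw [hp] at h4
    simp only [Bool.false_eq_true, if_false] at h4
    have h5 := φ.injective (h4.trans h3.symm)
    exact absurd h5 (D.rr_ne_r u)

/-- The second diagram at a place inside a part attached by one edge. -/
theorem mv_zero [Fintype H] {V : Finset H} {z : H} (l : Leg D V z) (k : Ok D x)
    (h6 : ∀ h, D.six x h → h ∈ V) : (D.mv x k).cl = 0 := by
  have hc : D.r (D.e x) ∉ D.K := l.nK _ (h6 _ (Or.inr (Or.inr (Or.inl rfl))))
  have l' : Leg (D.mv x k) V z := by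
    refine ⟨?_, ?_, l.zV, l.ez, l.oth⟩
    · intro h hh
      by_cases hs : D.six x h
      · obtain ⟨j, rfl⟩ := (six_iff_io D x h).1 hs
        rw [IsSt.mv_io k j]
        exact h6 _ ((six_iff_io D x _).2 ⟨_, rfl⟩)
      · rw [JD.mv_r, JD.hf_o k hs]
        exact l.cl h hh
    · intro h hh h1
      rw [JD.mv_K, JD.mem_hK k] at h1
      rcases h1 with h1 | h1
      · exact l.nK h hh h1
      · exact hc h1.1
  exact l'.zero

theorem half_all [Fintype H] (ha : Aut D φ) (hK : ∀ h ∈ D.K, φ h = h)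
    (hev : Even (rev D φ).card) (s : SW D φ x) (s' : SW D φ x') (k : Ok D x)
    (k' : Ok D x') : (D.mv x k).cl = (D.mv x' k').cl := by
  by_cases hd : ∀ i j, io D x i ≠ io D x' j
  · exact half_eq ha hev s s' k k' hd
  by_cases hxx : x = x'
  · subst hxx
    rfl
  push Not at hd
  obtain ⟨i, j, hij⟩ := hd
  have hv : D.vt (D.e x) (D.e x') := (common ha s s' hij).resolve_left hxx
  by_cases hthird : ∃ y, SW D φ y ∧ (∀ i j, io D x i ≠ io D y j) ∧
      ∀ i j, io D x' i ≠ io D y j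
  · obtain ⟨y, sy, d1, d2⟩ := hthird
    have ky : Ok D y := ha.sw_ok sy.fx (SW.pr ha sy).1
    rw [half_eq ha hev s sy k ky d1, half_eq ha hev s' sy k' ky d2]
  push Not at hthird
  -- the vertex of `e x` is not on the circle
  have hin : ∀ u ∈ D.K, ¬ D.vt (D.e x) u := by
    intro u hu hvu
    have key : ∀ z, D.inner z → D.vt (D.e z) u → D.e z = D.r (D.r u) := by
      intro z hz hvz
      rcases vt_symm hvz with h1 | h1 | h1
      · exact absurd (Or.inr (h1 ▸ hu)) hz.1
      · exfalso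
        have h2 := D.out u hu
        rw [← h1, D.e2] at h2
        exact hz.1 (Or.inl h2)
      · exact h1
    have h1 := key x k.inn hvu
    have h2 := key x' k'.inn (vt_common (vt_symm hv) (vt_symm hvu))
    exact hxx (D.e_inj (h1.trans h2.symm))
  -- the part on the side of `x`
  obtain ⟨V, hV⟩ : ∃ V : Finset H, V = Finset.univ.filter fun h =>
      ¬ (FV D φ h ∧ ¬ D.vt (D.e x) h) := ⟨_, rfl⟩
  have mem : ∀ h, h ∈ V ↔ ¬ (FV D φ h ∧ ¬ D.vt (D.e x) h) := by
    intro h
    rw [hV, Finset.mem_filter]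
    exact ⟨fun h1 => h1.2, fun h1 => ⟨Finset.mem_univ _, h1⟩⟩
  -- the third half-edge
  obtain ⟨ζ, hζ, hζ1, hζ2, hζ3⟩ : ∃ ζ, D.vt (D.e x) ζ ∧ ζ ≠ D.e x ∧ ζ ≠ D.e x' ∧
      ∀ t, D.vt (D.e x) t → t = D.e x ∨ t = D.e x' ∨ t = ζ := by
    rcases hv with hv | hv | hv
    · exact absurd (D.e_inj hv).symm hxx
    · refine ⟨D.r (D.r (D.e x)), Or.inr (Or.inr rfl), D.r2 _, ?_, ?_⟩
      · rw [hv]
        exact D.rr_ne_r _
      · rintro t (ht | ht | ht)
        · exact Or.inl ht
        · exact Or.inr (Or.inl (ht.trans hv.symm))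
        · exact Or.inr (Or.inr ht)
    · refine ⟨D.r (D.e x), Or.inr (Or.inl rfl), D.r1 _, ?_, ?_⟩
      · rw [hv]
        exact (D.rr_ne_r _).symm
      · rintro t (ht | ht | ht)
        · exact Or.inl ht
        · exact Or.inr (Or.inr ht)
        · exact Or.inr (Or.inl (ht.trans hv.symm))
  have hR : ∀ h, FV D φ h → ¬ D.vt (D.e x) h → h ≠ D.e ζ →
      FV D φ (D.e h) ∧ ¬ D.vt (D.e x) (D.e h) := by
    intro h hf hn hz
    have h1 : ¬ D.vt (D.e x) (D.e h) := by
      intro h2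
      rcases hζ3 _ h2 with h3 | h3 | h3
      · exact s.nfv (D.e_inj h3 ▸ hf)
      · exact s'.nfv (D.e_inj h3 ▸ hf)
      · apply hz
        rw [← h3, D.e2]
    refine ⟨?_, h1⟩
    by_contra hnf
    have fx : φ (D.e h) = D.e h := by rw [← ha.e, hf.1]
    have hp : pr D φ (D.e h) = false := by
      cases hp : pr D φ (D.e h) with
      | true =>
        exfalso
        apply hnf
        have h2 := ha.fr (D.e h)
        have h3 := ha.frr (D.e h)
        rw [hp, if_pos rfl, fx] at h2 h3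
        exact ⟨fx, h2, h3⟩
      | false => rfl
    have sy : SW D φ (D.e h) := ⟨fx, (ha.sw_ne fx hp).1, by rw [D.e2]; exact hf.2.1⟩
    have hnot : ∀ z, SW D φ z → D.vt (D.e x) (D.e z) → ∀ i j, io D z i ≠ io D (D.e h) j := by
      intro z sz hz2 i j hij
      rcases common ha sz sy hij with h5 | h5
      · rw [h5, D.e2] at hz2
        exact hn hz2
      · rw [D.e2] at h5
        apply hn
        exact vt_common hz2 (vt_symm h5)
    obtain ⟨i, j, hij2⟩ := hthird (D.e h) sy (hnot x s (Or.inl rfl))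
    exact hnot x' s' hv i j hij2
  have heζ : FV D φ (D.e ζ) ∧ ¬ D.vt (D.e x) (D.e ζ) := by
    by_contra hc
    have h1 := D.conn {h | FV D φ h ∧ ¬ D.vt (D.e x) h} (by
      obtain ⟨u, hu⟩ := D.ne x
      exact ⟨u, fv_K ha hK hu, hin u hu⟩) (by
      rintro h ⟨h2, h3⟩
      refine hR h h2 h3 ?_
      rintro rfl
      exact hc ⟨h2, h3⟩) (by
      rintro h ⟨h2, h3⟩
      exact ⟨h2.r, fun h4 => h3 (D.vt_r.1 h4)⟩)
    have h2 : D.e x ∈ {h | FV D φ h ∧ ¬ D.vt (D.e x) h} := by
      rw [h1]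
      exact Set.mem_univ _
    exact h2.2 (Or.inl rfl)
  have l : Leg D V ζ := by
    refine ⟨?_, ?_, ?_, ?_, ?_⟩
    · intro h hh
      rw [mem] at hh ⊢
      rintro ⟨h1, h2⟩
      apply hh
      have h3 := h1.r.r
      rw [D.r3] at h3
      exact ⟨h3, fun h4 => h2 (D.vt_r.2 h4)⟩
    · intro h hh hk
      exact (mem h).1 hh ⟨fv_K ha hK hk, hin h hk⟩
    · rw [mem]
      exact fun h => h.2 hζ
    · rw [mem, not_not]
      exact heζ
    · intro h hh hne
      rw [mem] at hh ⊢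
      rintro ⟨h1, h2⟩
      apply hh
      have h3 := hR (D.e h) h1 h2 (fun h4 => hne (D.e_inj h4))
      rwa [D.e2] at h3
  have c1 : ∀ z, SW D φ z → D.vt (D.e x) (D.e z) → ∀ h, D.six z h → h ∈ V := by
    rintro z sz hz h (h1 | h1)
    · rw [mem]
      rintro ⟨h2, _⟩
      exact sz.nfv (h2.vt (vt_symm h1))
    · rw [mem]
      rintro ⟨_, h2⟩
      exact h2 (vt_common hz (vt_symm h1))
  rw [mv_zero l k (c1 x s (Or.inl rfl)), mv_zero l k' (c1 x' s' hv)]

end

end Pool.Agent.Jac70
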