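import Mathlib
import Pool.Agent.Jac70.Fix

/-!
# The class of a diagram is divisible by the number of its automorphisms which fix the circle
-/

set_option autoImplicit false

namespace Pool.Agent.Jac70

variable {H : Type} [DecidableEq H]

/-- An automorphism which fixes the six half-edges at an edge is an automorphism of the second
diagram of the relation. -/
theorem Aut.mv {D : JD H} {ψ : Equiv.Perm H} (ha : Aut D ψ) {x : H} (k : Ok D x)
    (h6 : ∀ h, D.six x h → ψ h = h) : Aut (D.mv x k) ψ := by
  have hy : ψ (D.e x) = D.e x := h6 _ (Or.inr (Or.inl rfl))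
  have six_iff : ∀ h, D.six x (ψ h) ↔ D.six x h := by
    intro h
    constructor
    · intro h1
      have h2 := h6 _ h1
      rwa [ψ.injective h2] at h1
    · intro h1
      rwa [h6 h h1]
  refine ⟨ha.e, ?_, ?_⟩
  · intro h
    by_cases hh : D.six x h
    · left
      rw [h6 h hh, h6]
      obtain ⟨j, hj⟩ := (six_iff_io D x h).1 hh
      rw [← hj, IsSt.mv_io k j]
      exact (six_iff_io D x _).2 ⟨_, rfl⟩
    · simp only [JD.mv_r]
      have h1 : ¬ D.six x (ψ h) := fun h' => hh ((six_iff h).1 h')
      have h2 : ¬ D.six x (D.r h) := fun h' => hh (D.six_r.1 h')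
      rw [JD.hf_o k h1, JD.hf_o k hh, JD.hf_o k h2]
      exact ha.r h
  · intro h
    rw [JD.mv_K, JD.mem_hK k, JD.mem_hK k, ha.K]
    have e4 : ψ h = D.e x ↔ h = D.e x :=
      ⟨fun h' => ψ.injective (h'.trans hy.symm), fun h' => h' ▸ hy⟩
    rw [e4]

theorem exists_place {D : JD H} {Γ : Type} (ρ : Γ → Equiv.Perm H) (ha : ∀ g, Aut D (ρ g))
    (hK : ∀ g, ∀ h ∈ D.K, ρ g h = h) (h1 : ∃ g, ρ g ≠ 1) :
    ∃ (x : H) (g : Γ), SW D (ρ g) x ∧ ∀ g', ρ g' x = x ∧ ρ g' (D.r (D.e x)) = D.r (D.e x) := by
  by_contra hc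
  push Not at hc
  obtain ⟨g0, hg0⟩ := h1
  apply hg0
  have hne : ∃ h, ρ g0 h ≠ h := by
    by_contra hn
    push Not at hn
    exact hg0 (Equiv.ext hn)
  obtain ⟨h0, _⟩ := hne
  obtain ⟨u, hu⟩ := D.ne h0
  have hS : {h | ∀ g, ρ g h = h ∧ ρ g (D.r h) = D.r h ∧ ρ g (D.r (D.r h)) = D.r (D.r h)} =
      Set.univ := by
    apply D.conn
    · refine ⟨u, fun g => ⟨hK g u hu, ?_, ?_⟩⟩
      · have h2 := hK g _ (D.out u hu)
        rw [← (ha g).e] at h2
        exact D.e_inj h2
      · have h2 := hK g _ (D.out u hu)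
        rw [← (ha g).e] at h2
        have h3 := D.e_inj h2
        have h4 := (ha g).frr u
        rw [hK g u hu] at h4
        cases hp : pr D (ρ g) u with
        | true =>
          rw [hp, if_pos rfl] at h4
          exact h4
        | false =>
          rw [hp] at h4
          simp only [Bool.false_eq_true, if_false] at h4
          have h5 := (ρ g).injective (h4.trans h3.symm)
          exact absurd h5 (D.rr_ne_r u)
    · intro y hy
      have fx : ∀ g, ρ g (D.e y) = D.e y := fun g => by rw [← (ha g).e, (hy g).1]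
      intro g
      cases hp : pr D (ρ g) (D.e y) with
      | true =>
        have h2 := (ha g).fr (D.e y)
        have h3 := (ha g).frr (D.e y)
        rw [hp, if_pos rfl, fx g] at h2 h3
        exact ⟨fx g, h2, h3⟩
      | false =>
        exfalso
        obtain ⟨g', hg'⟩ := hc (D.e y) g ⟨fx g, ((ha g).sw_ne (fx g) hp).1, by
          rw [D.e2]
          exact (hy g).2.1⟩
        apply hg' (fx g')
        rw [D.e2]
        exact (hy g').2.1
    · intro y hy g
      refine ⟨(hy g).2.1, (hy g).2.2, ?_⟩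
      rw [D.r3]
      exact (hy g).1
  refine Equiv.ext fun h => ?_
  have h2 : h ∈ {h | ∀ g, ρ g h = h ∧ ρ g (D.r h) = D.r h ∧
      ρ g (D.r (D.r h)) = D.r (D.r h)} := by
    rw [hS]
    exact Set.mem_univ h
  exact (h2 g0).1

/-- The automorphisms which preserve the cyclic order at a fixed half-edge. -/
def stab {D : JD H} {Γ : Type} [Group Γ] (ρ : Γ →* Equiv.Perm H) (ha : ∀ g, Aut D (ρ g)) {x : H}
    (hx : ∀ g, ρ g x = x) : Subgroup Γ where
  carrier := {g | pr D (ρ g) x = true}
  mul_mem' := by
    intro a b h1 h2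
    show pr D (ρ (a * b)) x = true
    have h1' : pr D (ρ a) x = true := h1
    have h2' : pr D (ρ b) x = true := h2
    rw [map_mul, (ha a).pr_mul (ha b), hx, h1', h2']
    rfl
  one_mem' := by
    show pr D (ρ 1) x = true
    rw [map_one, Aut.pr_one]
  inv_mem' := by
    intro a h1
    have h1' : pr D (ρ a) x = true := h1
    show pr D (ρ a⁻¹) x = true
    have h2 := (ha a).pr_mul (ha a⁻¹) x
    rw [← map_mul, mul_inv_cancel, map_one, Aut.pr_one, hx, h1'] at h2
    cases hp : pr D (ρ a⁻¹) x
    · rw [hp] at h2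
      simp at h2
    · rfl

theorem div_card [Fintype H] (n : ℕ) : ∀ (Γ : Type) [Group Γ] [Finite Γ]
    (ρ : Γ →* Equiv.Perm H) (D : JD H), Function.Injective ρ → (∀ g, Aut D (ρ g)) →
      (∀ g, ∀ h ∈ D.K, ρ g h = h) → Nat.card Γ = n →
      ∃ (k : ℕ) (a : A H), n = 2 ^ k ∧ D.cl = n • a := by
  induction n using Nat.strong_induction_on with
  | _ n ih =>
    intro Γ _ _ ρ D hinj ha hK hn
    by_cases h1 : ∃ g, ρ g ≠ 1
    · obtain ⟨x, g, hs, hfix⟩ := exists_place ρ ha hK h1
      have hx : ∀ g, ρ g x = x := fun g => (hfix g).1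
      have hpg : pr D (ρ g) x = false := by
        rw [pr_false, hs.fx, hs.fa]
        exact (D.rr_ne_r x).symm
      have k : Ok D x := (ha g).sw_ok hs.fx hpg
      have hidx : (stab ρ ha hx).index = 2 := by
        rw [Subgroup.index_eq_two_iff]
        refine ⟨g, fun b => ?_⟩
        have e1 : b * g ∈ stab ρ ha hx ↔ pr D (ρ b) x = false := by
          show pr D (ρ (b * g)) x = true ↔ _
          rw [map_mul, (ha b).pr_mul (ha g), hpg, hx]
          cases pr D (ρ b) x <;> simp
        have e2 : b ∈ stab ρ ha hx ↔ pr D (ρ b) x = true := Iff.rfl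
        rw [e1, e2]
        cases pr D (ρ b) x
        · exact Or.inl ⟨rfl, by decide⟩
        · exact Or.inr ⟨rfl, by decide⟩
      have hcard := Subgroup.card_mul_index (stab ρ ha hx)
      rw [hidx, hn] at hcard
      have hpos : 0 < Nat.card (stab ρ ha hx) := Nat.card_pos
      have h6 : ∀ g' ∈ stab ρ ha hx, ∀ h, D.six x h → ρ g' h = h := by
        intro g' hg' h hh
        have hp : pr D (ρ g') x = true := hg'
        have f1 := (ha g').fr x
        have f2 := (ha g').frr x
        rw [hp, if_pos rfl, hx] at f1 f2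
        have fy : ρ g' (D.e x) = D.e x := by rw [← (ha g').e, hx]
        have fc := (hfix g').2
        have fd : ρ g' (D.r (D.r (D.e x))) = D.r (D.r (D.e x)) := by
          rcases (ha g').r (D.r (D.e x)) with h2 | h2
          · rw [← h2, fc]
          · rw [D.r3, fc, fy] at h2
            exact absurd h2 (D.r2 _)
        rcases hh with (rfl | rfl | rfl) | (rfl | rfl | rfl)
        · exact hx g'
        · exact f1
        · exact f2
        · exact fy
        · exact fc
        · exact fd
      obtain ⟨m, a, hm, hA⟩ := ih (Nat.card (stab ρ ha hx)) (by omega) (stab ρ ha hx)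
        (ρ.comp (stab ρ ha hx).subtype) (D.mv x k)
        (fun a b hab => Subtype.ext (hinj hab))
        (fun g' => (ha g'.1).mv k (h6 g'.1 g'.2))
        (by
          intro g' h hh
          rw [JD.mv_K, JD.mem_hK k] at hh
          rcases hh with hh | ⟨_, rfl⟩
          · exact hK g'.1 h hh
          · exact h6 g'.1 g'.2 _ (Or.inr (Or.inl rfl))) rfl
      have h2 := JD.key (ha g) hs k
      rw [JD.sg_eq_neg_one] at h2
      have hnm : n = 2 ^ (m + 1) := by rw [← hcard, hm, pow_succ]
      rcases Nat.even_or_odd (rev D (ρ g)).card with h3 | h3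
      · refine ⟨m + 1, a, hnm, ?_⟩
        rw [h3.neg_one_pow, one_smul, ← two_nsmul, hA, smul_smul, mul_comm, hcard] at h2
        exact h2
      · refine ⟨m + 1, 0, hnm, ?_⟩
        rw [h3.neg_one_pow, neg_one_smul, add_neg_cancel] at h2
        rw [h2, smul_zero]
    · push Not at h1
      have h2 : Subsingleton Γ := ⟨fun a b => hinj ((h1 a).trans (h1 b).symm)⟩
      have h3 : Nat.card Γ = 1 := Nat.card_eq_one_iff_unique.2 ⟨h2, ⟨1⟩⟩
      refine ⟨0, D.cl, ?_, ?_⟩
      · rw [← hn, h3, pow_zero]
      · rw [← hn, h3, one_smul]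

/-- The automorphisms which fix the circle. -/
def cAut (D : JD H) : Subgroup (Equiv.Perm H) where
  carrier := {φ | Aut D φ ∧ ∀ h ∈ D.K, φ h = h}
  mul_mem' := by
    rintro a b ⟨a1, a2⟩ ⟨b1, b2⟩
    exact ⟨a1.mul b1, fun h hh => by rw [Equiv.Perm.mul_apply, b2 h hh, a2 h hh]⟩
  one_mem' := ⟨Aut.one, fun _ _ => rfl⟩
  inv_mem' := by
    rintro a ⟨a1, a2⟩
    rw [Equiv.Perm.inv_def]
    refine ⟨⟨?_, ?_, ?_⟩, ?_⟩
    · intro h
      apply a.injective
      rw [← a1.e, Equiv.apply_symm_apply, Equiv.apply_symm_apply]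
    · intro h
      have h1 := a1.fr (a.symm h)
      rw [Equiv.apply_symm_apply] at h1
      cases hp : pr D a (a.symm h) with
      | true =>
        left
        rw [hp, if_pos rfl] at h1
        rw [← h1, Equiv.symm_apply_apply]
      | false =>
        right
        rw [hp] at h1
        simp only [Bool.false_eq_true, if_false] at h1
        rw [← h1, Equiv.symm_apply_apply]
    · intro h
      rw [← a1.K, Equiv.apply_symm_apply]
    · intro h hh
      rw [Equiv.symm_apply_eq, a2 h hh]

/-- The class of a diagram is divisible by the number of its automorphisms which fix the circle. -/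
theorem div_cAut [Fintype H] (D : JD H) :
    ∃ (k : ℕ) (a : A H), Nat.card (cAut D) = 2 ^ k ∧ D.cl = Nat.card (cAut D) • a :=
  div_card _ (cAut D) (cAut D).subtype D Subtype.val_injective (fun g => g.2.1)
    (fun g => g.2.2) rfl

end Pool.Agent.Jac70
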