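import Mathlib
import Pool.Agent.Jac70.All

/-!
# The half of a symmetric Jacobi diagram does not depend on the place

`A H` is the part of degree `d` of the integral space of Jacobi diagrams on the circle, for a set
`H` with `6 d` elements (the half-edges of the union of the circle and of the graph). The definitions
are in `Pool.Agent.Jac70.Defs` and `Pool.Agent.Jac70.Defs2`.
-/

set_option autoImplicit false

namespace Pool.Agent.Jac70.HalvesCoincide

open Pool.Agent.Jac70

/-- Let `φ` be an automorphism of a Jacobi diagram `D` on the circle, not the identity, which fixes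
the circle and reverses an even number of cyclic orders. Then the relation IHX or STU at a place of
`φ` gives `[D] = 2 [T]` for its second diagram `T`, there is a place, and the class of `T` is the
same for all places of `φ`. -/
theorem halves_coincide (H : Type) [Fintype H] [DecidableEq H] (D : JD H) (φ : Equiv.Perm H)
    (hφ : Aut D φ) (hK : ∀ h ∈ D.K, φ h = h) (h1 : φ ≠ 1) (hev : Even (rev D φ).card) :
    ∃ a : A H, D.cl = 2 • a ∧ (∃ (x : H) (T : JD H), Place D φ x ∧ Second D T x) ∧
      ∀ (x : H) (T : JD H), Place D φ x → Second D T x → T.cl = a := by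
  obtain ⟨x, s, k⟩ := exists_sw hφ hK h1
  have h2 := JD.key hφ s k
  rw [JD.sg_eq_neg_one, hev.neg_one_pow, one_smul] at h2
  refine ⟨(D.mv x k).cl, by rw [h2, two_nsmul], ⟨x, D.mv x k, ⟨s.fx, s.fa, s.fc⟩, ?_⟩, ?_⟩
  · obtain ⟨s1, s2, s3, s4, s5, s6, s7, s8, s9⟩ := JD.mx_spec k
    refine ⟨D.mx x k, D.r x, D.r (D.r x), D.e x, D.r (D.e x), D.r (D.r (D.e x)), ?_, ?_⟩
    · refine ⟨rfl, k.inn, k.ya, k.yb, ⟨rfl, rfl, D.r3 x, rfl, rfl, D.r3 _⟩,
        ⟨JD.hf_x k, JD.hf_b k, JD.hf_c k, JD.hf_y k, JD.hf_d k, JD.hf_a k⟩,
        ⟨s1, s2, s3, s4, s5, s6⟩, ?_, rfl, s9⟩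
      intro h t1 t2 t3 t4 t5 t6
      have hs : ¬ D.six x h := by
        rintro ((h' | h' | h') | (h' | h' | h'))
        · exact t1 h'
        · exact t2 h'
        · exact t3 h'
        · exact t4 h'
        · exact t5 h'
        · exact t6 h'
      exact ⟨JD.hf_o k hs, s7 h hs⟩
    · by_cases hc : D.r (D.e x) ∈ D.K
      · right
        refine ⟨hc, ?_, ?_⟩
        · rw [JD.mv_K]
          exact if_pos hc
        · rw [s8]
          exact if_pos hc
      · left
        refine ⟨?_, ?_, ?_⟩
        · by_contra hi
          obtain ⟨u, hu, h⟩ := D.not_inner_iff.1 hi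
          have h6 : D.six x u := by
            right
            rcases h with h | h | h
            · exact Or.inl h.symm
            · right; right
              rw [h, D.r3]
            · right; left
              rw [h, D.r3]
          exact hc (JD.six_mem k hu h6 ▸ hu)
        · rw [JD.mv_K]
          exact if_neg hc
        · rw [s8]
          exact if_neg hc
  · intro x' T hx' hT
    obtain ⟨k', rfl⟩ := hT.mv
    exact half_all hφ hK hev hx'.sw s k' k

end Pool.Agent.Jac70.HalvesCoincide
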